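import Pool.Agent.SawPoly.Reg1

/-!
Regularity of the numbers of polygons.
-/

set_option autoImplicit false

open Pool.Agent.SawLim Pool.Agent.SawKes Pool.Agent.SawMrg Pool.Agent.SawClose

namespace Pool.Agent.SawPoly

namespace Reg2Aux

/-- stretched exponential bound for the number of exceptional walks -/
lemma card_bad : ∃ a : ℝ, 0 < a ∧ a ≤ 1 ∧ ∀ δ : ℝ, 0 < δ → δ < 1 / 2 →
    ∃ n₀ : ℕ, ∀ n : ℕ, n₀ ≤ n → ∀ S ⊆ saws n,
      (∀ w ∈ S, ¬ (|((Ins n w).card : ℝ) - mu ^ 2 * ((Del n w).card : ℝ)| ≤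
        (n : ℝ) ^ (δ - 1 / 2) * ((Ins n w).card : ℝ) ∧ a * n ≤ ((Ins n w).card : ℝ))) →
      (S.card : ℝ) ≤ 2 * (Real.exp (-(n : ℝ) ^ (δ / 2)) * mu ^ n) := by
  classical
  obtain ⟨a, ha, ha1, hG⟩ := good_typical
  refine ⟨a, ha, ha1, fun δ hδ hδ' => ?_⟩
  obtain ⟨n₁, h₁⟩ := hG (δ / 2) (by positivity) (by linarith)
  obtain ⟨n₃, h₃⟩ : ∃ n₃ : ℕ, ∀ n : ℕ, n₃ ≤ n → (2 : ℝ) ≤ (n : ℝ) ^ (δ / 2) := by
    have h : ∀ᶠ n : ℕ in Filter.atTop, (2 : ℝ) ≤ (n : ℝ) ^ (δ / 2) :=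
      ((tendsto_rpow_atTop (by positivity : 0 < δ / 2)).comp
        tendsto_natCast_atTop_atTop).eventually_ge_atTop _
    exact Filter.eventually_atTop.1 h
  refine ⟨max n₁ (max n₃ 1), fun n hn S hS hw => ?_⟩
  have k1 := h₁ n ((le_max_left _ _).trans hn)
  have k3 := h₃ n (((le_max_left _ _).trans (le_max_right _ _)).trans hn)
  have k4 : 1 ≤ n := ((le_max_right _ _).trans (le_max_right _ _)).trans hn
  have hn1 : (1 : ℝ) ≤ n := by exact_mod_cast k4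
  have hn0 : (0 : ℝ) < n := by linarith
  have hε1 : (n : ℝ) ^ (δ / 2 - 1 / 2) ≤ 1 :=
    Real.rpow_le_one_of_one_le_of_nonpos hn1 (by linarith)
  have hε0 : 0 < (n : ℝ) ^ (δ / 2 - 1 / 2) := by positivity
  have hε2 : 2 * (n : ℝ) ^ (δ / 2 - 1 / 2) ≤ (n : ℝ) ^ (δ - 1 / 2) := by
    have : (n : ℝ) ^ (δ - 1 / 2) = (n : ℝ) ^ (δ / 2) * (n : ℝ) ^ (δ / 2 - 1 / 2) := by
      rw [← Real.rpow_add hn0]; congr 1; ring
    rw [this]
    exact mul_le_mul_of_nonneg_right k3 hε0.le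
  refine le_trans ?_ k1
  have hsub : S ⊆ (saws n).filter (fun w => ¬ Good a ((n : ℝ) ^ (δ / 2 - 1 / 2)) n w) := by
    intro w hwS
    rw [Finset.mem_filter]
    refine ⟨hS hwS, fun hg => hw w hwS ?_⟩
    obtain ⟨g1, g2⟩ := hg
    unfold Off at g2
    rw [not_or, not_le, not_le] at g2
    obtain ⟨g2, g3⟩ := g2
    unfold nI nJ at *
    refine ⟨?_, g1⟩
    set I : ℝ := ((Ins n w).card : ℝ) with hI
    set J : ℝ := mu ^ 2 * ((Del n w).card : ℝ) with hJ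
    set ε : ℝ := (n : ℝ) ^ (δ / 2 - 1 / 2) with hε
    have hI0 : 0 ≤ I := Nat.cast_nonneg _
    have h1 : |I - J| ≤ 2 * ε * I := by
      rw [abs_le]
      constructor
      · nlinarith
      · have : J ≤ 2 * I := by nlinarith
        nlinarith
    exact h1.trans (mul_le_mul_of_nonneg_right hε2 hI0)
  exact_mod_cast Finset.card_le_card hsub

/-- the remainder is negligible -/
lemma tail_small (δ : ℝ) (hδ : 0 < δ) (K : ℝ) : ∃ n₀ : ℕ, ∀ n : ℕ, n₀ ≤ n →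
    (8 * n + K) * Real.exp (-(n : ℝ) ^ (δ / 2)) * Real.exp ((n : ℝ) ^ (δ / 4)) ≤ 1 / n := by
  obtain ⟨n₁, h₁⟩ := pow_mul_exp_le 3 (δ / 4) (by positivity)
  obtain ⟨n₂, h₂⟩ : ∃ n₂ : ℕ, ∀ n : ℕ, n₂ ≤ n → (2 : ℝ) ≤ (n : ℝ) ^ (δ / 4) := by
    have h : ∀ᶠ n : ℕ in Filter.atTop, (2 : ℝ) ≤ (n : ℝ) ^ (δ / 4) :=
      ((tendsto_rpow_atTop (by positivity : 0 < δ / 4)).comp
        tendsto_natCast_atTop_atTop).eventually_ge_atTop _
    exact Filter.eventually_atTop.1 h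
  obtain ⟨n₃, h₃⟩ := exists_nat_ge K
  refine ⟨max n₁ (max n₂ (max n₃ 8)), fun n hn => ?_⟩
  have k1 := h₁ n ((le_max_left _ _).trans hn)
  have k2 := h₂ n (((le_max_left _ _).trans (le_max_right _ _)).trans hn)
  have k3 : n₃ ≤ n := ((le_max_left _ _).trans ((le_max_right _ _).trans (le_max_right _ _))).trans hn
  have k4 : 8 ≤ n := ((le_max_right _ _).trans ((le_max_right _ _).trans (le_max_right _ _))).trans hn
  have hn8 : (8 : ℝ) ≤ n := by exact_mod_cast k4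
  have hn0 : (0 : ℝ) < n := by linarith
  have hK : K ≤ n := h₃.trans (by exact_mod_cast k3)
  have h4 : (n : ℝ) ^ (δ / 2) = (n : ℝ) ^ (δ / 4) * (n : ℝ) ^ (δ / 4) := by
    rw [← Real.rpow_add hn0]; congr 1; ring
  have h5 : Real.exp (-(n : ℝ) ^ (δ / 2)) * Real.exp ((n : ℝ) ^ (δ / 4)) ≤
      Real.exp (-(n : ℝ) ^ (δ / 4)) := by
    rw [← Real.exp_add]
    apply Real.exp_le_exp.2
    rw [h4]
    nlinarith
  have hE : 0 < Real.exp (-(n : ℝ) ^ (δ / 4)) := Real.exp_pos _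
  have h6 : 8 * (n : ℝ) + K ≤ 2 * (n : ℝ) ^ 2 := by nlinarith
  rw [mul_assoc]
  have h7 : (8 * (n : ℝ) + K) * (Real.exp (-(n : ℝ) ^ (δ / 2)) * Real.exp ((n : ℝ) ^ (δ / 4))) ≤
      2 * (n : ℝ) ^ 2 * Real.exp (-(n : ℝ) ^ (δ / 4)) :=
    mul_le_mul h6 h5 (by positivity) (by positivity)
  refine h7.trans ?_
  rw [le_div_iff₀ hn0]
  calc 2 * (n : ℝ) ^ 2 * Real.exp (-(n : ℝ) ^ (δ / 4)) * n
      = 2 * (n : ℝ) ^ 3 * Real.exp (-(n : ℝ) ^ (δ / 4)) := by ring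
    _ ≤ 1 := k1

end Reg2Aux

open Reg2Aux

/-- `transfer` (SawLim.Transfer) with `f`, `g` the indicators of closing, `η = 0`, `M = 1`, `Good`
from `good_typical` (SawMrg.Conc2) as in `Hmain` (SawMrg.H) and `balanced_large` (SawLim.Merge), but
keeping the stretched exponential bound on the number of exceptional walks, and `PG_lower`. -/
theorem PG_ratio (δ : ℝ) (hδ : 0 < δ) (hδ' : δ < 1 / 2) : ∃ C : ℝ, 0 < C ∧ ∃ n₀ : ℕ, ∀ n : ℕ,
    n₀ ≤ n → Odd n →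
    |((PG (n + 2)).card : ℝ) - mu ^ 2 * (PG n).card| ≤
      C * (n : ℝ) ^ (δ - 1 / 2) * (mu ^ 2 * (PG n).card) := by
  classical
  obtain ⟨a, ha, ha1, hbad⟩ := card_bad
  obtain ⟨n₁, h₁⟩ := hbad δ hδ hδ'
  obtain ⟨n₂, h₂⟩ := PG_lower (δ / 4) (by positivity)
  obtain ⟨n₃, h₃⟩ := tail_small δ hδ (4 * mu ^ 2)
  have hm : 1 ≤ mu ^ 2 := one_le_pow₀ one_le_mu
  obtain ⟨n₄, h₄⟩ : ∃ N : ℕ, ∀ n : ℕ, N ≤ n → 8 * mu ^ 2 ≤ a * n := by
    obtain ⟨N, hN⟩ := exists_nat_ge (8 * mu ^ 2 / a)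
    refine ⟨N, fun n hn => ?_⟩
    have : (N : ℝ) ≤ n := by exact_mod_cast hn
    have h3 : 8 * mu ^ 2 / a ≤ n := hN.trans this
    rw [div_le_iff₀ ha] at h3
    linarith
  obtain ⟨n₅, h₅⟩ : ∃ N : ℕ, ∀ n : ℕ, N ≤ n → (n : ℝ) ^ (δ - 1 / 2) ≤ 1 / 4 := by
    have h : Filter.Tendsto (fun n : ℕ => (n : ℝ) ^ (-(1 / 2 - δ))) Filter.atTop (nhds 0) :=
      (tendsto_rpow_neg_atTop (by linarith : 0 < 1 / 2 - δ)).comp tendsto_natCast_atTop_atTop
    have h3 := h.eventually (ge_mem_nhds (show (0 : ℝ) < 1 / 4 by norm_num))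
    obtain ⟨N, hN⟩ := Filter.eventually_atTop.1 h3
    refine ⟨N, fun n hn => ?_⟩
    have := hN n hn
    rwa [neg_sub] at this
  refine ⟨3 + 18 * mu ^ 2 / a, by positivity, max n₁ (max n₂ (max n₃ (max n₄ (max n₅ 1)))),
    fun n hn hodd => ?_⟩
  simp only [max_le_iff] at hn
  obtain ⟨k1, k2, k3, k4, k5, k6⟩ := hn
  have hn1 : (1 : ℝ) ≤ n := by exact_mod_cast k6
  have hn0 : (0 : ℝ) < n := by linarith
  have hE0 : 0 < (n : ℝ) ^ (δ - 1 / 2) := Real.rpow_pos_of_pos hn0 _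
  have hen : 1 / (n : ℝ) ≤ (n : ℝ) ^ (δ - 1 / 2) := by
    rw [one_div, ← Real.rpow_neg_one]
    exact Real.rpow_le_rpow_of_exponent_le hn1 (by linarith)
  have hPG : ∀ k : ℕ, ((PG k).card : ℝ) =
      ∑ w ∈ saws k, if adj 0 (w (Fin.last k)) then (1 : ℝ) else 0 := by
    intro k
    rw [card_PG, card_cl]
  have h := transfer n (mu ^ 2) a ((n : ℝ) ^ (δ - 1 / 2)) 1 hm ha (h₅ n k5) k6 (h₄ n k4)
    (fun v => if adj 0 (v (Fin.last (n + 2))) then (1 : ℝ) else 0)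
    (fun w => if adj 0 (w (Fin.last n)) then (1 : ℝ) else 0) (fun _ => 0)
    (fun w => |((Ins n w).card : ℝ) - mu ^ 2 * (Del n w).card| ≤
      (n : ℝ) ^ (δ - 1 / 2) * (Ins n w).card ∧ a * n ≤ (Ins n w).card)
    (by intro v _; split_ifs <;> simp) (by intro v _; split_ifs <;> simp)
    (by intro _ _; exact le_rfl) (by
      intro w _ p hp
      have hk := (mem_Ins.1 (show (p.1, p.2) ∈ Ins n w from hp)).1
      rw [ins_last w p.2 hk]
      simp) (fun w _ h => h) hE0.le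
  rw [← hPG, ← hPG] at h
  have e1 : ∑ w ∈ saws n, |if adj 0 (w (Fin.last n)) then (1 : ℝ) else 0| = ((PG n).card : ℝ) := by
    rw [hPG]
    refine Finset.sum_congr rfl fun w _ => ?_
    split_ifs <;> simp
  rw [e1, Finset.sum_const_zero, mul_zero, zero_add, mul_one, one_mul] at h
  -- the exceptional walks
  have b1 := h₁ n k1 ((saws n).filter fun w =>
    ¬ (|((Ins n w).card : ℝ) - mu ^ 2 * (Del n w).card| ≤
      (n : ℝ) ^ (δ - 1 / 2) * (Ins n w).card ∧ a * n ≤ (Ins n w).card))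
    (Finset.filter_subset _ _) (fun w hw => (Finset.mem_filter.1 hw).2)
  have b2 := h₁ (n + 2) (by omega) ((saws (n + 2)).filter fun v => (Del (n + 2) v).card = 0)
    (Finset.filter_subset _ _) (by
      intro v hv
      rw [Finset.mem_filter] at hv
      rintro ⟨g2, g1⟩
      rw [hv.2] at g2
      have hI : 0 < ((Ins (n + 2) v).card : ℝ) := by
        refine lt_of_lt_of_le ?_ g1
        positivity
      rw [Nat.cast_zero, mul_zero, sub_zero, abs_of_pos hI] at g2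
      have h3 : ((n + 2 : ℕ) : ℝ) ^ (δ - 1 / 2) < 1 := by
        apply Real.rpow_lt_one_of_one_lt_of_neg _ (by linarith)
        push_cast
        linarith
      nlinarith)
  have hmun : 0 < mu ^ n := pow_pos mu_pos n
  have b3 : Real.exp (-((n + 2 : ℕ) : ℝ) ^ (δ / 2)) ≤ Real.exp (-(n : ℝ) ^ (δ / 2)) := by
    apply Real.exp_le_exp.2
    apply neg_le_neg
    apply Real.rpow_le_rpow hn0.le _ (by positivity)
    push_cast
    linarith
  set X : ℝ := Real.exp (-(n : ℝ) ^ (δ / 2)) with hX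
  have hX0 : 0 < X := Real.exp_pos _
  have b2' : (((saws (n + 2)).filter fun v => (Del (n + 2) v).card = 0).card : ℝ) ≤
      2 * (X * (mu ^ 2 * mu ^ n)) := by
    refine b2.trans ?_
    rw [pow_add, mul_comm (mu ^ n) (mu ^ 2)]
    have : 0 ≤ mu ^ 2 * mu ^ n := by positivity
    nlinarith [mul_le_mul_of_nonneg_right b3 this]
  -- comparison with the number of polygons
  have c1 := h₂ n k2 hodd
  set P : ℝ := ((PG n).card : ℝ) with hP
  set e : ℝ := (n : ℝ) ^ (δ - 1 / 2) with he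
  have c2 : mu ^ n ≤ P * Real.exp ((n : ℝ) ^ (δ / 4)) := by
    have c3 : mu ^ n = mu ^ n * Real.exp (-((n : ℝ) ^ (δ / 4))) * Real.exp ((n : ℝ) ^ (δ / 4)) := by
      rw [mul_assoc, ← Real.exp_add, neg_add_cancel, Real.exp_zero, mul_one]
    rw [c3]
    exact mul_le_mul_of_nonneg_right c1 (Real.exp_pos _).le
  have hP0 : 0 ≤ P := Nat.cast_nonneg _
  have c4 : (4 * (n : ℝ) + mu ^ 2) * (2 * (X * mu ^ n)) + 2 * (X * (mu ^ 2 * mu ^ n)) ≤ e * P := by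
    have c5 := h₃ n k3
    rw [← hX] at c5
    have c6 : (4 * (n : ℝ) + mu ^ 2) * (2 * (X * mu ^ n)) + 2 * (X * (mu ^ 2 * mu ^ n)) =
        (8 * n + 4 * mu ^ 2) * X * mu ^ n := by ring
    rw [c6]
    calc (8 * (n : ℝ) + 4 * mu ^ 2) * X * mu ^ n
        ≤ (8 * n + 4 * mu ^ 2) * X * (P * Real.exp ((n : ℝ) ^ (δ / 4))) :=
          mul_le_mul_of_nonneg_left c2 (by positivity)
      _ = ((8 * n + 4 * mu ^ 2) * X * Real.exp ((n : ℝ) ^ (δ / 4))) * P := by ring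
      _ ≤ (1 / n) * P := mul_le_mul_of_nonneg_right c5 hP0
      _ ≤ e * P := mul_le_mul_of_nonneg_right hen hP0
  have c7 : 18 * (mu ^ 2) ^ 2 / (a * n) ≤ 18 * mu ^ 2 / a * mu ^ 2 * e := by
    calc 18 * (mu ^ 2) ^ 2 / (a * n) = 18 * mu ^ 2 / a * mu ^ 2 * (1 / n) := by
          field_simp
      _ ≤ _ := mul_le_mul_of_nonneg_left hen (by positivity)
  have b1' := mul_le_mul_of_nonneg_left b1 (show (0 : ℝ) ≤ 4 * n + mu ^ 2 by positivity)
  refine h.trans ?_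
  calc (2 * mu ^ 2 * e + 18 * (mu ^ 2) ^ 2 / (a * n)) * P +
      (4 * n + mu ^ 2) * (((saws n).filter fun w =>
        ¬ (|((Ins n w).card : ℝ) - mu ^ 2 * (Del n w).card| ≤ e * (Ins n w).card ∧
          a * n ≤ (Ins n w).card)).card : ℝ) +
      (((saws (n + 2)).filter fun v => (Del (n + 2) v).card = 0).card : ℝ)
      ≤ (2 * mu ^ 2 * e + 18 * mu ^ 2 / a * mu ^ 2 * e) * P +
        ((4 * (n : ℝ) + mu ^ 2) * (2 * (X * mu ^ n)) + 2 * (X * (mu ^ 2 * mu ^ n))) := by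
        have c8 := mul_le_mul_of_nonneg_right (add_le_add_right c7 (2 * mu ^ 2 * e)) hP0
        linarith
    _ ≤ (2 * mu ^ 2 * e + 18 * mu ^ 2 / a * mu ^ 2 * e) * P + e * P := by linarith
    _ ≤ (2 * mu ^ 2 * e + 18 * mu ^ 2 / a * mu ^ 2 * e) * P + mu ^ 2 * (e * P) := by
        have : 0 ≤ e * P := by positivity
        nlinarith
    _ = (3 + 18 * mu ^ 2 / a) * e * (mu ^ 2 * P) := by ring

end Pool.Agent.SawPoly
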