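import Pool.Agent.SawPoly.Basic
import Pool.Agent.SawClose.Cp
import Pool.Agent.SawClose.Window
import Pool.Agent.SawBr38.Polygon

/-!
The finite sets of rooted polygons.
-/

set_option autoImplicit false

open Pool.Agent.SawLim Pool.Agent.SawKes Pool.Agent.SawMrg Pool.Agent.SawClose

namespace Pool.Agent.SawPoly

lemma nb_eq_adj (p q : Pt) : nb p q ↔ adj p q := Iff.rfl

/-- the self-avoiding polygons with `n + 1` sites, with a first site (the origin) and an
orientation -/
noncomputable def PG (n : ℕ) : Finset (List Pt) :=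
  ((saws n).filter fun w => adj 0 (w (Fin.last n))).image List.ofFn

lemma mem_PG {n : ℕ} {L : List Pt} :
    L ∈ PG n ↔ L.length = n + 1 ∧ L.head? = some 0 ∧ Loop L := by
  unfold PG
  rw [Finset.mem_image]
  constructor
  · rintro ⟨w, hw, rfl⟩
    rw [Finset.mem_filter, mem_saws] at hw
    obtain ⟨⟨h1, h2, h3⟩, h4⟩ := hw
    have hhead : (List.ofFn w).head? = some 0 := by
      rw [List.ofFn_succ, List.head?_cons, h1]
    have hlast : (List.ofFn w).getLast? = some (w (Fin.last n)) := by
      rw [List.ofFn_succ', List.concat_eq_append, List.getLast?_append]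
      simp
    refine ⟨List.length_ofFn, hhead, List.nodup_ofFn.2 h3, ?_, ?_⟩
    · rw [List.isChain_iff_getElem]
      intro i hi
      rw [List.length_ofFn] at hi
      rw [List.getElem_ofFn, List.getElem_ofFn]
      exact h2 ⟨i, by omega⟩
    · intro x hx y hy
      rw [hlast] at hx
      rw [hhead] at hy
      obtain rfl := Option.some.inj hx
      obtain rfl := Option.some.inj hy
      exact nb_comm.1 h4
  · rintro ⟨h1, h2, h3, h4, h5⟩
    have hL : L ≠ [] := by rintro rfl; simp at h1
    refine ⟨fun i => L[(i : ℕ)]'(by omega), ?_, ?_⟩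
    · rw [Finset.mem_filter, mem_saws]
      refine ⟨⟨?_, ?_, ?_⟩, ?_⟩
      · rw [List.head?_eq_getElem?, List.getElem?_eq_getElem (by omega)] at h2
        exact Option.some.inj h2
      · intro k
        rw [List.isChain_iff_getElem] at h4
        exact h4 k (by have := k.2; omega)
      · intro i j hij
        have := (List.Nodup.getElem_inj_iff h3).1 hij
        exact Fin.ext this
      · apply nb_comm.1
        apply h5
        · rw [List.getLast?_eq_getElem?, List.getElem?_eq_getElem (by omega)]
          simp [h1]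
        · rw [h2]; rfl
    · apply List.ext_getElem
      · simp [h1]
      · intro i hi hi'
        rw [List.getElem_ofFn]

lemma PG_inj (n : ℕ) : Set.InjOn (List.ofFn : (Fin (n + 1) → ℤ × ℤ) → List Pt)
    ((saws n).filter fun w => adj 0 (w (Fin.last n)) : Finset (Fin (n + 1) → ℤ × ℤ)) :=
  fun _ _ _ _ h => List.ofFn_injective h

lemma sum_PG {n : ℕ} (f : List Pt → ℝ) :
    ∑ L ∈ PG n, f L = ∑ w ∈ (saws n).filter (fun w => adj 0 (w (Fin.last n))), f (List.ofFn w) := by
  unfold PG
  rw [Finset.sum_image (PG_inj n)]

lemma card_PG (n : ℕ) : (PG n).card = (cl n).card := by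
  have h1 : (PG n).card = ((saws n).filter fun w => adj 0 (w (Fin.last n))).card := by
    unfold PG
    rw [Finset.card_image_of_injOn (PG_inj n)]
  have h2 := card_cl n
  rw [h1]
  have h3 : (((saws n).filter fun w => adj 0 (w (Fin.last n))).card : ℝ) = ((cl n).card : ℝ) := by
    rw [h2, Finset.card_filter]
    push_cast
    rfl
  exact_mod_cast h3

/-- no polygon with an odd number of sites -/
lemma PG_even {n : ℕ} (hn : Even n) : PG n = ∅ := by
  rw [← Finset.card_eq_zero, card_PG, cl_even hn]
  rfl

/-- pairs of far times at which the polygon is at neighbouring sites -/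
def far (N L : ℕ) (σ : List Pt) : Finset (ℕ × ℕ) :=
  (Finset.range (N + 1) ×ˢ Finset.range (N + 1)).filter fun p =>
    p.1 + L ≤ p.2 ∧ nb (σ.getD p.1 0) (σ.getD p.2 0)

/-- the polygons with a contact between the times `0` and `x` -/
noncomputable def D (N x : ℕ) : Finset (List Pt) :=
  (PG N).filter fun σ => nb (σ.getD 0 0) (σ.getD x 0)

end Pool.Agent.SawPoly
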