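import Pool.Agent.SawPoly.Bound

/-!
The upper bound for the numbers of polygons in windows of lengths.
-/

set_option autoImplicit false

open Pool.Agent.SawLim Pool.Agent.SawKes Pool.Agent.SawMrg Pool.Agent.SawClose

namespace Pool.Agent.SawPoly

lemma r_nonneg (n : ℕ) : 0 ≤ r n := by
  unfold r
  have := mu_pos
  positivity

theorem window_bound (δ : ℝ) (hδ : 0 < δ) : ∃ C : ℝ, 0 < C ∧ ∀ N K : ℕ, 1 ≤ N → K ≤ N →
    ∑ n ∈ Finset.Ico N (N + K), r n ≤ C * (N : ℝ) ^ δ * min (K : ℝ) (Real.sqrt N) := by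
  obtain ⟨C₁, hC₁, h₁⟩ := r_bound δ hδ
  obtain ⟨C₂, hC₂, h₂⟩ := r_mean δ hδ
  refine ⟨C₁ * 2 ^ δ + C₂, by positivity, fun N K hN hK => ?_⟩
  have hN0 : (0 : ℝ) < N := by exact_mod_cast hN
  have hNδ : 0 < (N : ℝ) ^ δ := by positivity
  rcases le_total (K : ℝ) (Real.sqrt N) with hKN | hKN
  · rw [min_eq_left hKN]
    calc ∑ n ∈ Finset.Ico N (N + K), r n
        ≤ ∑ n ∈ Finset.Ico N (N + K), C₁ * ((2 : ℝ) * N) ^ δ := by
          refine Finset.sum_le_sum fun n hn => ?_
          rw [Finset.mem_Ico] at hn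
          refine (h₁ n (by omega)).trans ?_
          apply mul_le_mul_of_nonneg_left _ hC₁.le
          apply Real.rpow_le_rpow (Nat.cast_nonneg _) _ hδ.le
          have : n ≤ 2 * N := by omega
          exact_mod_cast this
      _ = C₁ * 2 ^ δ * (N : ℝ) ^ δ * K := by
          rw [Finset.sum_const, Nat.card_Ico, nsmul_eq_mul, Real.mul_rpow (by norm_num) hN0.le,
            Nat.add_sub_cancel_left]
          ring
      _ ≤ _ := by
          have : 0 ≤ C₂ * (N : ℝ) ^ δ * K := by positivity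
          nlinarith
  · rw [min_eq_right hKN]
    calc ∑ n ∈ Finset.Ico N (N + K), r n ≤ ∑ n ∈ Finset.Ico N (2 * N), r n := by
          apply Finset.sum_le_sum_of_subset_of_nonneg
          · exact Finset.Ico_subset_Ico_right (by omega)
          · exact fun n _ _ => r_nonneg n
      _ ≤ C₂ * (N : ℝ) ^ (1 / 2 + δ) := h₂ N hN
      _ = C₂ * (N : ℝ) ^ δ * Real.sqrt N := by
          rw [Real.sqrt_eq_rpow, mul_assoc, ← Real.rpow_add hN0, add_comm δ]
      _ ≤ _ := by
          have : 0 ≤ C₁ * 2 ^ δ * (N : ℝ) ^ δ * Real.sqrt N := by positivity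
          nlinarith

end Pool.Agent.SawPoly
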