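import Mathlib

/-!
Two real variable lemmas.
-/

set_option autoImplicit false

namespace Pool.Agent.SawPoly

private lemma ana_step (f : ℕ → ℝ) (a C : ℝ) (b n₀ : ℕ) (hb : b ≤ 1) (ha : 0 ≤ a) (hC : 1 ≤ C)
    (S : Set ℕ) (hS : ∀ n ∈ S, 2 * n + b ∈ S)
    (hpos : ∀ n ∈ S, 0 < f n)
    (h : ∀ n ∈ S, n₀ ≤ n → f n ^ 2 ≤ C * (n : ℝ) ^ a * f (2 * n + b))
    (n : ℕ) (hn : n ∈ S) (hn0 : n₀ ≤ n) (hn1 : 1 ≤ n) :
    Real.log (f n) - Real.log C - a * Real.log n - a * Real.log 3 ≤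
      (Real.log (f (2 * n + b)) - Real.log C - a * Real.log ((2 * n + b : ℕ) : ℝ) - a * Real.log 3) / 2 := by
  have hnpos : (0 : ℝ) < n := by exact_mod_cast hn1
  have hCpos : 0 < C := by linarith
  have h1 : Real.log (f n ^ 2) ≤ Real.log (C * (n : ℝ) ^ a * f (2 * n + b)) :=
    Real.log_le_log (pow_pos (hpos n hn) 2) (h n hn hn0)
  have h2 : Real.log (C * (n : ℝ) ^ a * f (2 * n + b)) =
      Real.log C + a * Real.log n + Real.log (f (2 * n + b)) := by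
    rw [Real.log_mul (mul_pos hCpos (Real.rpow_pos_of_pos hnpos a)).ne' (hpos _ (hS n hn)).ne',
      Real.log_mul hCpos.ne' (Real.rpow_pos_of_pos hnpos a).ne', Real.log_rpow hnpos]
  rw [h2, Real.log_pow] at h1
  push_cast at h1
  have h3 : Real.log ((2 * n + b : ℕ) : ℝ) ≤ Real.log n + Real.log 3 := by
    rw [← Real.log_mul hnpos.ne' (by norm_num)]
    apply Real.log_le_log
    · have : 0 < 2 * n + b := by omega
      exact_mod_cast this
    · have : 2 * n + b ≤ n * 3 := by omega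
      exact_mod_cast this
  have h4 := mul_le_mul_of_nonneg_left h3 ha
  linarith

/-- doubling iteration: `f n ^ 2 ≤ C n^a f (φ n)` with `φ n = 2 n` (`b = 0`) or `2 n + 1` (`b = 1`),
and `f` subexponential -/
theorem iter_double (f : ℕ → ℝ) (a C : ℝ) (b n₀ : ℕ) (hb : b ≤ 1) (ha : 0 ≤ a) (hC : 1 ≤ C)
    (S : Set ℕ) (hS : ∀ n ∈ S, 2 * n + b ∈ S)
    (hpos : ∀ n ∈ S, 0 < f n)
    (h : ∀ n ∈ S, n₀ ≤ n → f n ^ 2 ≤ C * (n : ℝ) ^ a * f (2 * n + b))
    (hup : ∀ n ∈ S, n₀ ≤ n → f n ≤ Real.exp ((n : ℝ) ^ (1 / 2 : ℝ))) :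
    ∃ C' : ℝ, 0 < C' ∧ ∀ n ∈ S, n₀ ≤ n → 1 ≤ n → f n ≤ C' * (n : ℝ) ^ a := by
  have key : ∀ k : ℕ, ∀ n ∈ S, n₀ ≤ n → 1 ≤ n →
      Real.log (f n) - Real.log C - a * Real.log n - a * Real.log 3 ≤
        (Real.sqrt 3 / 2) ^ k * Real.sqrt n := by
    intro k
    induction k with
    | zero =>
      intro n hn hn0 hn1
      have h1 : Real.log (f n) ≤ Real.sqrt n := by
        rw [Real.sqrt_eq_rpow, ← Real.log_exp ((n : ℝ) ^ (1 / 2 : ℝ))]
        exact Real.log_le_log (hpos n hn) (hup n hn hn0)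
      have h2 : 0 ≤ Real.log C := Real.log_nonneg hC
      have h3 : 0 ≤ a * Real.log n :=
        mul_nonneg ha (Real.log_nonneg (by exact_mod_cast hn1))
      have h4 : 0 ≤ a * Real.log 3 := mul_nonneg ha (Real.log_nonneg (by norm_num))
      simp only [pow_zero, one_mul]
      linarith
    | succ k ih =>
      intro n hn hn0 hn1
      have h1 := ana_step f a C b n₀ hb ha hC S hS hpos h n hn hn0 hn1
      have h2 := ih (2 * n + b) (hS n hn) (by omega) (by omega)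
      have h3 : Real.sqrt ((2 * n + b : ℕ) : ℝ) ≤ Real.sqrt 3 * Real.sqrt n := by
        rw [← Real.sqrt_mul (by norm_num)]
        apply Real.sqrt_le_sqrt
        have : 2 * n + b ≤ 3 * n := by omega
        exact_mod_cast this
      have h4 : 0 ≤ (Real.sqrt 3 / 2) ^ k := by positivity
      have h5 := mul_le_mul_of_nonneg_left h3 h4
      rw [pow_succ]
      linarith
  have hlt : Real.sqrt 3 / 2 < 1 := by
    have : Real.sqrt 3 < 2 := by
      rw [Real.sqrt_lt' (by norm_num)]; norm_num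
    linarith
  refine ⟨C * 3 ^ a, by positivity, fun n hn hn0 hn1 => ?_⟩
  have hnpos : (0 : ℝ) < n := by exact_mod_cast hn1
  have hlim : Filter.Tendsto (fun k : ℕ => (Real.sqrt 3 / 2) ^ k * Real.sqrt n) Filter.atTop
      (nhds (0 * Real.sqrt n)) :=
    (tendsto_pow_atTop_nhds_zero_of_lt_one (by positivity) hlt).mul_const _
  rw [zero_mul] at hlim
  have h0 : Real.log (f n) - Real.log C - a * Real.log n - a * Real.log 3 ≤ 0 :=
    ge_of_tendsto' hlim (fun k => key k n hn hn0 hn1)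
  have hCpos : 0 < C := by linarith
  have h1 : Real.log (f n) ≤ Real.log (C * 3 ^ a * (n : ℝ) ^ a) := by
    rw [Real.log_mul (by positivity) (by positivity), Real.log_mul (by positivity) (by positivity),
      Real.log_rpow hnpos, Real.log_rpow (by norm_num)]
    linarith
  exact (Real.log_le_log_iff (hpos n hn) (by positivity)).1 h1

private lemma ana_chain (r : ℕ → ℝ) (ε : ℝ) (hε : 0 ≤ ε) (hε1 : ε ≤ 1) (M : ℕ)
    (hpos : ∀ n, M ≤ n → Odd n → 0 < r n)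
    (h : ∀ n, M ≤ n → Odd n → |r (n + 2) - r n| ≤ ε * r n) (n : ℕ) (hn : M ≤ n) (hodd : Odd n)
    (j : ℕ) : (1 - j * ε) * r n ≤ r (n + 2 * j) ∧ r (n + 2 * j) ≤ Real.exp (j * ε) * r n := by
  have hrn := hpos n hn hodd
  induction j with
  | zero => simp
  | succ j ih =>
    obtain ⟨ih1, ih2⟩ := ih
    have hodd' : Odd (n + 2 * j) := by
      obtain ⟨k, hk⟩ := hodd
      exact ⟨k + j, by omega⟩
    have h1 := abs_le.1 (h (n + 2 * j) (by omega) hodd')
    have h2 := hpos (n + 2 * j) (by omega) hodd'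
    have e1 : n + 2 * (j + 1) = n + 2 * j + 2 := by ring
    rw [e1]
    push_cast
    constructor
    · have h3 : (1 - ε) * r (n + 2 * j) ≤ r (n + 2 * j + 2) := by nlinarith [h1.1]
      have h4 : (1 - ε) * ((1 - j * ε) * r n) ≤ (1 - ε) * r (n + 2 * j) :=
        mul_le_mul_of_nonneg_left ih1 (by linarith)
      have h5 : (1 - (j + 1) * ε) * r n ≤ (1 - ε) * ((1 - j * ε) * r n) := by
        have : 0 ≤ (j : ℝ) * ε * ε * r n := by positivity
        nlinarith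
      linarith
    · have h3 : r (n + 2 * j + 2) ≤ (1 + ε) * r (n + 2 * j) := by nlinarith [h1.2]
      have h4 : (1 + ε) ≤ Real.exp ε := by linarith [Real.add_one_le_exp ε]
      have h5 : (1 + ε) * r (n + 2 * j) ≤ Real.exp ε * (Real.exp (j * ε) * r n) :=
        mul_le_mul h4 ih2 h2.le (Real.exp_pos _).le
      have h6 : Real.exp ((j + 1) * ε) * r n = Real.exp ε * (Real.exp (j * ε) * r n) := by
        rw [add_mul, one_mul, Real.exp_add]; ring
      rw [h6]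
      linarith

/-- a slowly varying sequence does not change much over `n^(1/2-δ)` steps -/
theorem slow_var (r : ℕ → ℝ) (C δ δ' : ℝ) (hC : 0 < C) (hδ : 0 < δ) (hδδ : δ < δ') (hδ' : δ' < 1 / 2)
    (n₁ : ℕ) (hpos : ∀ n, n₁ ≤ n → Odd n → 0 < r n)
    (h : ∀ n, n₁ ≤ n → Odd n → |r (n + 2) - r n| ≤ C * (n : ℝ) ^ (δ - 1 / 2) * r n) :
    ∃ n₀ : ℕ, n₁ ≤ n₀ ∧ ∀ n : ℕ, n₀ ≤ n → Odd n → ∀ j : ℕ, (j : ℝ) ≤ (n : ℝ) ^ (1 / 2 - δ') →
      r n / 2 ≤ r (n + 2 * j) ∧ r n / 2 ≤ r (n - 2 * j) ∧ r (n + 2 * j) ≤ 2 * r n := by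
  -- the two smallness conditions
  have hlim1 : Filter.Tendsto (fun n : ℕ => C * 2 ^ (1 / 2 - δ) * (n : ℝ) ^ (-(δ' - δ)))
      Filter.atTop (nhds (C * 2 ^ (1 / 2 - δ) * 0)) :=
    ((tendsto_rpow_neg_atTop (by linarith : 0 < δ' - δ)).comp
      tendsto_natCast_atTop_atTop).const_mul _
  have hlim2 : Filter.Tendsto (fun n : ℕ => C * 2 ^ (1 / 2 - δ) * (n : ℝ) ^ (-(1 / 2 - δ)))
      Filter.atTop (nhds (C * 2 ^ (1 / 2 - δ) * 0)) :=
    ((tendsto_rpow_neg_atTop (by linarith : 0 < 1 / 2 - δ)).comp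
      tendsto_natCast_atTop_atTop).const_mul _
  rw [mul_zero] at hlim1 hlim2
  obtain ⟨N1, hN1⟩ := Filter.eventually_atTop.1
    (hlim1.eventually (gt_mem_nhds (by norm_num : (0 : ℝ) < 1 / 2)))
  obtain ⟨N2, hN2⟩ := Filter.eventually_atTop.1
    (hlim2.eventually (gt_mem_nhds (by norm_num : (0 : ℝ) < 1)))
  refine ⟨max (max N1 N2) (max (2 * n₁) 16), by omega, fun n hn hodd j hj => ?_⟩
  have hnN1 : N1 ≤ n := le_trans (le_trans (le_max_left _ _) (le_max_left _ _)) hn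
  have hnN2 : N2 ≤ n := le_trans (le_trans (le_max_right _ _) (le_max_left _ _)) hn
  have hnn1 : 2 * n₁ ≤ n := le_trans (le_trans (le_max_left _ _) (le_max_right _ _)) hn
  have hn16 : 16 ≤ n := le_trans (le_trans (le_max_right _ _) (le_max_right _ _)) hn
  have hnpos : (0 : ℝ) < n := by exact_mod_cast (by omega : 0 < n)
  have hn1 : (1 : ℝ) ≤ n := by exact_mod_cast (by omega : 1 ≤ n)
  -- j is small
  have hj2 : (j : ℝ) ≤ Real.sqrt n := by
    rw [Real.sqrt_eq_rpow]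
    exact hj.trans (Real.rpow_le_rpow_of_exponent_le hn1 (by linarith))
  have hj4 : 4 * j ≤ n := by
    have h1 : (4 : ℝ) ≤ Real.sqrt n := by
      rw [show (4 : ℝ) = Real.sqrt 16 by
        rw [show (16 : ℝ) = 4 ^ 2 by norm_num, Real.sqrt_sq (by norm_num)]]
      exact Real.sqrt_le_sqrt (by exact_mod_cast hn16)
    have h2 : Real.sqrt n * Real.sqrt n = n := Real.mul_self_sqrt hnpos.le
    have h3 : (4 : ℝ) * j ≤ n := by nlinarith [Real.sqrt_nonneg (n : ℝ)]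
    exact_mod_cast h3
  -- the uniform rate
  set ε : ℝ := C * 2 ^ (1 / 2 - δ) * (n : ℝ) ^ (-(1 / 2 - δ)) with hε
  have hε0 : 0 ≤ ε := by positivity
  have hε1 : ε ≤ 1 := (hN2 n hnN2).le
  have hrate : ∀ m, (n : ℝ) / 2 ≤ m → C * m ^ (δ - 1 / 2) ≤ ε := by
    intro m hm
    have h1 : m ^ (δ - 1 / 2) ≤ ((n : ℝ) / 2) ^ (δ - 1 / 2) :=
      Real.rpow_le_rpow_of_nonpos (by positivity) hm (by linarith)
    have h2 : ((n : ℝ) / 2) ^ (δ - 1 / 2) = 2 ^ (1 / 2 - δ) * (n : ℝ) ^ (-(1 / 2 - δ)) := by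
      rw [Real.div_rpow hnpos.le (by norm_num), div_eq_mul_inv, ← Real.rpow_neg (by norm_num)]
      rw [show -(δ - 1 / 2) = 1 / 2 - δ by ring, show -(1 / 2 - δ) = δ - 1 / 2 by ring, mul_comm]
    rw [hε, mul_assoc]
    exact mul_le_mul_of_nonneg_left (h1.trans h2.le) hC.le
  have hjε : (j : ℝ) * ε ≤ 1 / 2 := by
    refine le_trans ?_ (hN1 n hnN1).le
    calc (j : ℝ) * ε ≤ (n : ℝ) ^ (1 / 2 - δ') * ε := mul_le_mul_of_nonneg_right hj hε0
      _ = C * 2 ^ (1 / 2 - δ) * ((n : ℝ) ^ (1 / 2 - δ') * (n : ℝ) ^ (-(1 / 2 - δ))) := by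
          rw [hε]; ring
      _ = C * 2 ^ (1 / 2 - δ) * (n : ℝ) ^ (-(δ' - δ)) := by
          rw [← Real.rpow_add hnpos]; congr 2; ring
  -- M = n - 2 j
  have hM : ∀ m, n - 2 * j ≤ m → Odd m → |r (m + 2) - r m| ≤ ε * r m := by
    intro m hm hmodd
    have hmn : n₁ ≤ m := by omega
    refine (h m hmn hmodd).trans (mul_le_mul_of_nonneg_right (hrate m ?_) (hpos m hmn hmodd).le)
    have : n ≤ 2 * m := by omega
    have : (n : ℝ) ≤ 2 * m := by exact_mod_cast this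
    linarith
  have hposM : ∀ m, n - 2 * j ≤ m → Odd m → 0 < r m := fun m hm hmodd => hpos m (by omega) hmodd
  have hrn := hpos n (by omega) hodd
  have hexp : Real.exp ((j : ℝ) * ε) ≤ 2 := by
    have h1 : Real.exp ((j : ℝ) * ε) ≤ Real.exp (1 / 2) := Real.exp_le_exp.2 hjε
    have h2 : Real.exp (1 / 2) * Real.exp (1 / 2) = Real.exp 1 := by
      rw [← Real.exp_add]; norm_num
    have h3 := Real.exp_one_lt_d9
    have h4 := Real.exp_pos (1 / 2 : ℝ)
    nlinarith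
  obtain ⟨c1, c2⟩ := ana_chain r ε hε0 hε1 (n - 2 * j) hposM hM n (by omega) hodd j
  have hodd' : Odd (n - 2 * j) := by
    obtain ⟨k, hk⟩ := hodd
    exact ⟨k - j, by omega⟩
  obtain ⟨_, d2⟩ := ana_chain r ε hε0 hε1 (n - 2 * j) hposM hM (n - 2 * j) le_rfl hodd' j
  rw [show n - 2 * j + 2 * j = n by omega] at d2
  have hrm := hposM (n - 2 * j) le_rfl hodd'
  refine ⟨?_, ?_, ?_⟩
  · nlinarith
  · nlinarith
  · exact c2.trans (mul_le_mul_of_nonneg_right hexp hrn.le)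

end Pool.Agent.SawPoly
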