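import Pool.Agent.SawPoly.Band

/-!
Assembly of two paths and a band.
-/

set_option autoImplicit false

namespace Pool.Agent.SawPoly

private theorem asm_core {A B U V : List Pt} {a a' b b' u u' v v' : Pt}
    (hA : A.Nodup) (hAc : A.IsChain nb) (hAh : A.head? = some a) (hAl : A.getLast? = some a')
    (hB : B.Nodup) (hBc : B.IsChain nb) (hBh : B.head? = some b) (hBl : B.getLast? = some b')
    (hUc : U.IsChain nb) (hUh : U.head? = some u) (hUl : U.getLast? = some u')
    (hVc : V.IsChain nb) (hVh : V.head? = some v) (hVl : V.getLast? = some v')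
    (hUV : (U ++ V).Nodup) (hAB : ∀ z ∈ A, z ∉ B) (hfree : ∀ z ∈ U ++ V, z ∉ A ∧ z ∉ B)
    (h1 : nb a' u) (h2 : nb u' b) (h3 : nb b' v) (h4 : nb v' a) : Loop (A ++ U ++ B ++ V) := by
  have neA : A ≠ [] := by rintro rfl; simp at hAh
  have neB : B ≠ [] := by rintro rfl; simp at hBh
  have neU : U ≠ [] := by rintro rfl; simp at hUh
  have neV : V ≠ [] := by rintro rfl; simp at hVh
  obtain ⟨nU, nV, dUV⟩ := List.nodup_append.1 hUV
  refine ⟨?_, ?_, ?_⟩
  · rw [List.nodup_append]
    refine ⟨?_, nV, ?_⟩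
    · rw [List.nodup_append]
      refine ⟨?_, hB, ?_⟩
      · rw [List.nodup_append]
        refine ⟨hA, nU, ?_⟩
        rintro z hz w hw rfl
        exact (hfree z (List.mem_append_left _ hw)).1 hz
      · rintro z hz w hw rfl
        rcases List.mem_append.1 hz with hz | hz
        · exact hAB z hz hw
        · exact (hfree z (List.mem_append_left _ hz)).2 hw
    · rintro z hz w hw rfl
      rcases List.mem_append.1 hz with hz | hz
      · rcases List.mem_append.1 hz with hz | hz
        · exact (hfree z (List.mem_append_right _ hw)).1 hz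
        · exact dUV z hz z hw rfl
      · exact (hfree z (List.mem_append_right _ hw)).2 hz
  · rw [List.isChain_append, List.isChain_append, List.isChain_append]
    refine ⟨⟨⟨hAc, hUc, ?_⟩, hBc, ?_⟩, hVc, ?_⟩
    · intro z hz w hw
      rw [hAl, Option.mem_some_iff] at hz
      rw [hUh, Option.mem_some_iff] at hw
      subst hz hw
      exact h1
    · intro z hz w hw
      rw [List.getLast?_append_of_ne_nil _ neU, hUl, Option.mem_some_iff] at hz
      rw [hBh, Option.mem_some_iff] at hw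
      subst hz hw
      exact h2
    · intro z hz w hw
      rw [List.getLast?_append_of_ne_nil _ neB, hBl, Option.mem_some_iff] at hz
      rw [hVh, Option.mem_some_iff] at hw
      subst hz hw
      exact h3
  · intro z hz w hw
    rw [List.getLast?_append_of_ne_nil _ neV, hVl, Option.mem_some_iff] at hz
    rw [List.append_assoc, List.append_assoc, List.head?_append_of_ne_nil _ neA, hAh,
      Option.mem_some_iff] at hw
    subst hz hw
    exact h4

private theorem nb_right (a b c d : ℤ) (h1 : c = a + 1) (h2 : d = b) : nb (a, b) (c, d) := by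
  subst h1 h2
  simp [nb]

private theorem nb_left (a b c d : ℤ) (h1 : a = c + 1) (h2 : d = b) : nb (a, b) (c, d) :=
  nb_comm.1 (nb_right c d a b h1 h2.symm)

/-- assembly: a path `E₂ ++ P ++ E₁` from `(x, yA)` to `(x, yA+1)`, a path `G₂ ++ Q ++ G₁` from
`(x+4, yB+1)` to `(x+4, yB)`, disjoint from each other and from the columns `x+1, x+2, x+3` in the
rows used by the band (and the same with the two rows of the ends exchanged, see `assemble'`) -/
theorem assemble (x yA yB : ℤ) (h : |yB - yA| ≤ 8) (A' B' : List Pt)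
    (hA : A'.Nodup) (hAc : A'.IsChain nb) (hAh : A'.head? = some (x, yA))
    (hAl : A'.getLast? = some (x, yA + 1))
    (hB : B'.Nodup) (hBc : B'.IsChain nb) (hBh : B'.head? = some (x + 4, yB + 1))
    (hBl : B'.getLast? = some (x + 4, yB))
    (hdis : ∀ z ∈ A', z ∉ B')
    (hfree : ∀ z : Pt, x + 1 ≤ z.1 → z.1 ≤ x + 3 → min yA yB ≤ z.2 → z.2 ≤ max yA yB + 1 →
      z ∉ A' ∧ z ∉ B') :
    ∃ U V : List Pt, U ≠ [] ∧ V ≠ [] ∧ U.length ≤ 12 ∧ V.length ≤ 12 ∧
      Loop (A' ++ U ++ B' ++ V) ∧ ∀ a ∈ U.head?, ∀ b ∈ V.getLast?, nb a b := by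
  obtain ⟨Lo, Up, hl1, hl2, hn1, hn2, hnd, hc1, hc2, hh1, hg1, hh2, hg2, hin⟩ := band x yA yB h
  have hVh : Lo.reverse.head? = some (x + 3, yB) := by rw [List.head?_reverse, hg1]
  have hVl : Lo.reverse.getLast? = some (x + 1, yA) := by rw [List.getLast?_reverse, hh1]
  refine ⟨Up, Lo.reverse, hn2, by simpa using hn1, hl2, by simpa using hl1, ?_, ?_⟩
  · refine asm_core hA hAc hAh hAl hB hBc hBh hBl hc2 hh2 hg2 ?_ hVh hVl ?_ hdis ?_
      (nb_right _ _ _ _ rfl rfl) (nb_right _ _ _ _ (by ring) rfl) (nb_left _ _ _ _ (by ring) rfl)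
      (nb_left _ _ _ _ rfl rfl)
    · rw [List.isChain_reverse]
      exact hc1.imp fun a b hab => nb_comm.1 hab
    · have hp : (Up ++ Lo.reverse).Perm (Lo ++ Up) :=
        ((List.reverse_perm Lo).append_left Up).trans List.perm_append_comm
      exact hp.nodup_iff.2 hnd
    · intro z hz
      have hz' : z ∈ Lo ++ Up := by
        rw [List.mem_append] at hz ⊢
        rw [List.mem_reverse] at hz
        exact hz.symm
      obtain ⟨i1, i2, i3, i4⟩ := hin z hz'
      exact hfree z i1 i2 i3 i4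
  · intro a ha b hb
    rw [hh2, Option.mem_some_iff] at ha
    rw [hVl, Option.mem_some_iff] at hb
    subst ha hb
    simp [nb]

/-- the same with the ends of `A'` and `B'` exchanged -/
theorem assemble' (x yA yB : ℤ) (h : |yB - yA| ≤ 8) (A' B' : List Pt)
    (hA : A'.Nodup) (hAc : A'.IsChain nb) (hAh : A'.head? = some (x, yA + 1))
    (hAl : A'.getLast? = some (x, yA))
    (hB : B'.Nodup) (hBc : B'.IsChain nb) (hBh : B'.head? = some (x + 4, yB))
    (hBl : B'.getLast? = some (x + 4, yB + 1))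
    (hdis : ∀ z ∈ A', z ∉ B')
    (hfree : ∀ z : Pt, x + 1 ≤ z.1 → z.1 ≤ x + 3 → min yA yB ≤ z.2 → z.2 ≤ max yA yB + 1 →
      z ∉ A' ∧ z ∉ B') :
    ∃ U V : List Pt, U ≠ [] ∧ V ≠ [] ∧ U.length ≤ 12 ∧ V.length ≤ 12 ∧
      Loop (A' ++ U ++ B' ++ V) ∧ ∀ a ∈ U.head?, ∀ b ∈ V.getLast?, nb a b := by
  obtain ⟨Lo, Up, hl1, hl2, hn1, hn2, hnd, hc1, hc2, hh1, hg1, hh2, hg2, hin⟩ := band x yA yB h
  have hVh : Up.reverse.head? = some (x + 3, yB + 1) := by rw [List.head?_reverse, hg2]
  have hVl : Up.reverse.getLast? = some (x + 1, yA + 1) := by rw [List.getLast?_reverse, hh2]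
  refine ⟨Lo, Up.reverse, hn1, by simpa using hn2, hl1, by simpa using hl2, ?_, ?_⟩
  · refine asm_core hA hAc hAh hAl hB hBc hBh hBl hc1 hh1 hg1 ?_ hVh hVl ?_ hdis ?_
      (nb_right _ _ _ _ rfl rfl) (nb_right _ _ _ _ (by ring) rfl) (nb_left _ _ _ _ (by ring) rfl)
      (nb_left _ _ _ _ rfl rfl)
    · rw [List.isChain_reverse]
      exact hc2.imp fun a b hab => nb_comm.1 hab
    · have hp : (Lo ++ Up.reverse).Perm (Lo ++ Up) := (List.reverse_perm Up).append_left Lo
      exact hp.nodup_iff.2 hnd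
    · intro z hz
      have hz' : z ∈ Lo ++ Up := by
        rw [List.mem_append] at hz ⊢
        rw [List.mem_reverse] at hz
        exact hz
      obtain ⟨i1, i2, i3, i4⟩ := hin z hz'
      exact hfree z i1 i2 i3 i4
  · intro a ha b hb
    rw [hh1, Option.mem_some_iff] at ha
    rw [hVl, Option.mem_some_iff] at hb
    subst ha hb
    simp [nb]

end Pool.Agent.SawPoly
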