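import Pool.Agent.SawPoly.Basic

/-!
Two disjoint parallel paths through a strip of three columns.
-/

set_option autoImplicit false

namespace Pool.Agent.SawPoly

namespace BandAux

/-- the lower path from `(1, 0)` to `(3, d)` -/
def lo (d : ℤ) : List Pt :=
  if 0 ≤ d then [(1, 0), (2, 0)] ++ (List.range (d.toNat + 1)).map fun i => (3, (i : ℤ))
  else ((List.range ((-d).toNat + 1)).map fun i => (1, -(i : ℤ))) ++ [(2, d), (3, d)]

/-- the upper path from `(1, 1)` to `(3, d + 1)` -/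
def up (d : ℤ) : List Pt :=
  if 0 ≤ d then ((List.range (d.toNat + 1)).map fun i => (1, 1 + (i : ℤ))) ++
    [(2, d + 1), (3, d + 1)]
  else [(1, 1), (2, 1)] ++ (List.range ((-d).toNat + 1)).map fun i => (3, 1 - (i : ℤ))

/-- the required properties -/
def Good (d : ℤ) (Lo Up : List Pt) : Prop :=
  Lo.length ≤ 12 ∧ Up.length ≤ 12 ∧ Lo ≠ [] ∧ Up ≠ [] ∧ (Lo ++ Up).Nodup ∧
    Lo.IsChain nb ∧ Up.IsChain nb ∧
    Lo.head? = some (1, 0) ∧ Lo.getLast? = some (3, d) ∧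
    Up.head? = some (1, 1) ∧ Up.getLast? = some (3, d + 1) ∧
    ∀ z ∈ Lo ++ Up, 1 ≤ z.1 ∧ z.1 ≤ 3 ∧ min 0 d ≤ z.2 ∧ z.2 ≤ max 0 d + 1

instance (d : ℤ) (Lo Up : List Pt) : Decidable (Good d Lo Up) := by
  unfold Good; infer_instance

theorem good (d : ℤ) (h1 : -8 ≤ d) (h2 : d ≤ 8) : Good d (lo d) (up d) := by
  interval_cases d <;> decide

theorem nodup_mv {L : List Pt} (h : L.Nodup) (v : Pt) : (mv v L).Nodup :=
  h.map fun _ _ hab => add_right_cancel hab

theorem chain_mv {L : List Pt} (h : L.IsChain nb) (v : Pt) : (mv v L).IsChain nb := by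
  unfold mv
  rw [List.isChain_map]
  exact h.imp fun a b hab => (nb_add a b v).2 hab

theorem head_mv {L : List Pt} {a : Pt} (h : L.head? = some a) (v : Pt) :
    (mv v L).head? = some (a + v) := by
  unfold mv
  rw [List.head?_map, h]
  rfl

theorem last_mv {L : List Pt} {a : Pt} (h : L.getLast? = some a) (v : Pt) :
    (mv v L).getLast? = some (a + v) := by
  unfold mv
  rw [List.getLast?_map, h]
  rfl

theorem ne_mv {L : List Pt} (h : L ≠ []) (v : Pt) : mv v L ≠ [] := by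
  unfold mv
  simpa using h

end BandAux

open BandAux

/-- For rows `yA`, `yB` at distance at most `8` there are disjoint paths `Lo` from `(x+1, yA)` to
`(x+3, yB)` and `Up` from `(x+1, yA+1)` to `(x+3, yB+1)` in the columns `x+1, x+2, x+3` and in the
rows between `min yA yB` and `max yA yB + 1`, with at most `12` sites each. -/
theorem band (x yA yB : ℤ) (h : |yB - yA| ≤ 8) : ∃ Lo Up : List Pt,
    Lo.length ≤ 12 ∧ Up.length ≤ 12 ∧ Lo ≠ [] ∧ Up ≠ [] ∧ (Lo ++ Up).Nodup ∧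
    Lo.IsChain nb ∧ Up.IsChain nb ∧
    Lo.head? = some (x + 1, yA) ∧ Lo.getLast? = some (x + 3, yB) ∧
    Up.head? = some (x + 1, yA + 1) ∧ Up.getLast? = some (x + 3, yB + 1) ∧
    ∀ z ∈ Lo ++ Up, x + 1 ≤ z.1 ∧ z.1 ≤ x + 3 ∧ min yA yB ≤ z.2 ∧ z.2 ≤ max yA yB + 1 := by
  obtain ⟨hd1, hd2⟩ := abs_le.1 h
  obtain ⟨h1, h2, h3, h4, h5, h6, h7, h8, h9, h10, h11, h12⟩ := good (yB - yA) hd1 hd2
  refine ⟨mv (x, yA) (lo (yB - yA)), mv (x, yA) (up (yB - yA)), ?_, ?_, ne_mv h3 _, ne_mv h4 _,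
    ?_, chain_mv h6 _, chain_mv h7 _, ?_, ?_, ?_, ?_, ?_⟩
  · rw [length_mv]; exact h1
  · rw [length_mv]; exact h2
  · rw [← mv_append]
    exact nodup_mv h5 _
  · rw [head_mv h8]
    simp [add_comm]
  · rw [last_mv h9]
    simp [add_comm]
  · rw [head_mv h10]
    simp [add_comm]
  · rw [last_mv h11]
    simp only [Prod.mk_add_mk, Option.some.injEq, Prod.mk.injEq]
    omega
  · intro z hz
    rw [← mv_append, mem_mv] at hz
    obtain ⟨e1, e2, e3, e4⟩ := h12 _ hz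
    simp only [Prod.fst_sub, Prod.snd_sub] at e1 e2 e3 e4
    omega

end Pool.Agent.SawPoly
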