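import Pool.Agent.SawPoly.Defs

/-!
Basic facts on polygons as cyclic lists.
-/

set_option autoImplicit false

namespace Pool.Agent.SawPoly

lemma nb_comm {p q : Pt} : nb p q ↔ nb q p := by
  unfold nb
  rw [abs_sub_comm q.1 p.1, abs_sub_comm q.2 p.2]

lemma nb_irrefl (p : Pt) : ¬ nb p p := by
  unfold nb
  simp

lemma nb_add (p q v : Pt) : nb (p + v) (q + v) ↔ nb p q := by
  unfold nb
  simp

/-- the four neighbours -/
lemma nb_iff {p q : Pt} : nb p q ↔ q = (p.1 + 1, p.2) ∨ q = (p.1 - 1, p.2) ∨ q = (p.1, p.2 + 1) ∨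
    q = (p.1, p.2 - 1) := by
  obtain ⟨a, b⟩ := p
  obtain ⟨c, d⟩ := q
  unfold nb
  simp only [Prod.mk.injEq]
  constructor
  · intro h
    rcases abs_cases (c - a) with ⟨h1, h2⟩ | ⟨h1, h2⟩ <;>
      rcases abs_cases (d - b) with ⟨h3, h4⟩ | ⟨h3, h4⟩ <;> omega
  · rintro (⟨rfl, rfl⟩ | ⟨rfl, rfl⟩ | ⟨rfl, rfl⟩ | ⟨rfl, rfl⟩) <;> simp

lemma loop_append {P Q : List Pt} (hP : P ≠ []) (hQ : Q ≠ []) : Loop (P ++ Q) ↔
    (P ++ Q).Nodup ∧ P.IsChain nb ∧ Q.IsChain nb ∧
    (∀ x ∈ P.getLast?, ∀ y ∈ Q.head?, nb x y) ∧ (∀ x ∈ Q.getLast?, ∀ y ∈ P.head?, nb x y) := by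
  unfold Loop
  rw [List.isChain_append, List.getLast?_append_of_ne_nil _ hQ, List.head?_append_of_ne_nil _ hP]
  tauto

lemma Loop.rotate {L : List Pt} (h : Loop L) (k : ℕ) : Loop (L.rotate k) := by
  induction k generalizing L with
  | zero => simpa using h
  | succ k ih =>
    rcases L with _ | ⟨a, M⟩
    · simpa using h
    · rw [List.rotate_cons_succ]
      apply ih
      rcases M with _ | ⟨b, M⟩
      · simpa using h
      · have h' : Loop ([a] ++ (b :: M)) := h
        rw [loop_append (by simp) (by simp)] at h'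
        obtain ⟨h1, h2, h3, h4, h5⟩ := h'
        rw [loop_append (by simp) (by simp)]
        refine ⟨?_, h3, h2, h5, h4⟩
        exact (List.perm_append_comm).nodup_iff.1 h1

lemma Loop.reverse {L : List Pt} (h : Loop L) : Loop L.reverse := by
  obtain ⟨h1, h2, h3⟩ := h
  refine ⟨List.nodup_reverse.2 h1, ?_, ?_⟩
  · rw [List.isChain_reverse]
    exact h2.imp fun a b hab => nb_comm.1 hab
  · intro x hx y hy
    rw [List.getLast?_reverse] at hx
    rw [List.head?_reverse] at hy
    exact nb_comm.1 (h3 y hy x hx)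

lemma Loop.mv {L : List Pt} (h : Loop L) (v : Pt) : Loop (mv v L) := by
  obtain ⟨h1, h2, h3⟩ := h
  unfold SawPoly.mv
  refine ⟨h1.map fun a b hab => add_right_cancel hab, ?_, ?_⟩
  · rw [List.isChain_map]
    exact h2.imp fun a b hab => (nb_add a b v).2 hab
  · intro x hx y hy
    rw [List.getLast?_map, Option.mem_map] at hx
    rw [List.head?_map, Option.mem_map] at hy
    obtain ⟨x', hx', rfl⟩ := hx
    obtain ⟨y', hy', rfl⟩ := hy
    exact (nb_add x' y' v).2 (h3 x' hx' y' hy')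

lemma mv_mv (v w : Pt) (L : List Pt) : mv v (mv w L) = mv (w + v) L := by
  unfold mv
  rw [List.map_map]
  congr 1
  funext p
  simp [add_assoc]

lemma mv_zero (L : List Pt) : mv 0 L = L := by
  unfold mv
  simp

lemma length_mv (v : Pt) (L : List Pt) : (mv v L).length = L.length := by
  unfold mv
  simp

lemma mem_mv {v p : Pt} {L : List Pt} : p ∈ mv v L ↔ p - v ∈ L := by
  unfold mv
  rw [List.mem_map]
  constructor
  · rintro ⟨a, ha, rfl⟩
    simpa using ha
  · intro h
    exact ⟨p - v, h, by simp⟩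

lemma mv_append (v : Pt) (L M : List Pt) : mv v (L ++ M) = mv v L ++ mv v M := by
  unfold mv
  simp

lemma mv_rotate (v : Pt) (L : List Pt) (k : ℕ) : mv v (L.rotate k) = (mv v L).rotate k := by
  unfold mv
  rw [List.map_rotate]

lemma mv_reverse (v : Pt) (L : List Pt) : mv v L.reverse = (mv v L).reverse := by
  unfold mv
  rw [List.map_reverse]

lemma mv_take (v : Pt) (L : List Pt) (k : ℕ) : mv v (L.take k) = (mv v L).take k := by
  unfold mv
  rw [List.map_take]

lemma mv_drop (v : Pt) (L : List Pt) (k : ℕ) : mv v (L.drop k) = (mv v L).drop k := by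
  unfold mv
  rw [List.map_drop]

lemma headD_mv (v : Pt) {L : List Pt} (h : L ≠ []) : (mv v L).headD 0 = L.headD 0 + v := by
  obtain ⟨a, M, rfl⟩ := List.exists_cons_of_ne_nil h
  simp [mv]

lemma nrm_mv (v : Pt) (L : List Pt) : nrm (mv v L) = nrm L := by
  rcases eq_or_ne L [] with rfl | h
  · simp [nrm, mv]
  · unfold nrm
    rw [headD_mv v h, mv_mv]
    congr 1
    abel

lemma nrm_eq {L : List Pt} (h : L.head? = some 0) : nrm L = L := by
  unfold nrm
  have : L.headD 0 = 0 := by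
    rw [List.headD_eq_head?_getD, h]; rfl
  rw [this, neg_zero, mv_zero]

lemma length_nrm (L : List Pt) : (nrm L).length = L.length := length_mv _ _

lemma head_nrm {L : List Pt} (h : L ≠ []) : (nrm L).head? = some 0 := by
  obtain ⟨a, M, rfl⟩ := List.exists_cons_of_ne_nil h
  simp [nrm, mv]

lemma Loop.nrm {L : List Pt} (h : Loop L) : Loop (nrm L) := Loop.mv h _

end Pool.Agent.SawPoly
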