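import Pool.Agent.SawPoly.Ineq

/-!
The bounds for the numbers of polygons.
-/

set_option autoImplicit false

open Pool.Agent.SawLim Pool.Agent.SawKes Pool.Agent.SawMrg Pool.Agent.SawClose

namespace Pool.Agent.SawPoly

private lemma r_nonneg' (n : ℕ) : 0 ≤ r n :=
  div_nonneg (Nat.cast_nonneg _) (pow_nonneg mu_pos.le n)

private lemma r_even' {n : ℕ} (hn : Even n) : r n = 0 := by
  unfold r; rw [PG_even hn]; simp

private lemma r_upper' (ε : ℝ) (hε : 0 < ε) : ∃ n₀ : ℕ, ∀ n : ℕ, n₀ ≤ n →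
    r n ≤ Real.exp ((n : ℝ) ^ ε) := by
  obtain ⟨n₀, h⟩ := PG_upper ε hε
  refine ⟨n₀, fun n hn => ?_⟩
  unfold r
  rw [div_le_iff₀ (pow_pos mu_pos n), mul_comm]
  exact h n hn

private lemma r_pos' : ∃ n₀ : ℕ, ∀ n : ℕ, n₀ ≤ n → Odd n → 0 < r n := by
  obtain ⟨n₀, h⟩ := PG_lower 1 one_pos
  refine ⟨n₀, fun n hn ho => ?_⟩
  have h1 := h n hn ho
  have h2 : 0 < mu ^ n * Real.exp (-((n : ℝ) ^ (1 : ℝ))) :=
    mul_pos (pow_pos mu_pos n) (Real.exp_pos _)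
  exact div_pos (lt_of_lt_of_le h2 h1) (pow_pos mu_pos n)

private lemma r_ratio' (δ : ℝ) (hδ : 0 < δ) (hδ' : δ < 1 / 2) : ∃ C : ℝ, 0 < C ∧ ∃ n₀ : ℕ,
    ∀ n : ℕ, n₀ ≤ n → Odd n → |r (n + 2) - r n| ≤ C * (n : ℝ) ^ (δ - 1 / 2) * r n := by
  obtain ⟨C, hC, n₀, h⟩ := PG_ratio δ hδ hδ'
  refine ⟨C, hC, n₀, fun n hn ho => ?_⟩
  have h1 := h n hn ho
  have hm : 0 < mu ^ (n + 2) := pow_pos mu_pos _
  have hm' : (0 : ℝ) < mu ^ n := pow_pos mu_pos _
  have e1 : r (n + 2) - r n =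
      (((PG (n + 2)).card : ℝ) - mu ^ 2 * (PG n).card) / mu ^ (n + 2) := by
    unfold r
    have hmu : mu ≠ 0 := mu_pos.ne'
    rw [pow_add]
    field_simp
  have e2 : r n = (mu ^ 2 * (PG n).card) / mu ^ (n + 2) := by
    unfold r
    have hmu : mu ≠ 0 := mu_pos.ne'
    rw [pow_add]
    field_simp
  rw [e1, abs_div, abs_of_pos hm, div_le_iff₀ hm]
  calc _ ≤ _ := h1
    _ = C * (n : ℝ) ^ (δ - 1 / 2) * (r n * mu ^ (n + 2)) := by
        rw [e2, div_mul_cancel₀ _ hm.ne']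
    _ = _ := by ring

/-- one step for the pointwise bound -/
private lemma step_point (ε δ' C : ℝ) (n K : ℕ) (hε1 : ε ≤ 1) (hC : 1 ≤ C)
    (hn : 16 ≤ n) (ho : Odd n) (hK : (n : ℝ) ^ (1 / 2 - δ') ≤ (K : ℝ) + 1) (hK4 : 4 * K ≤ n)
    (hs : ∀ j : ℕ, j ≤ K → r n / 2 ≤ r (n + 2 * j) ∧ r n / 2 ≤ r (n - 2 * j))
    (hm : ∑ m ∈ (Finset.range (2 * n)).filter
        (fun m => Odd m ∧ 2 * n ≤ 4 * m ∧ 4 * m ≤ 3 * (2 * n)),
      r m * r (2 * n - m) ≤ C * ((2 * n : ℕ) : ℝ) ^ (1 / 2 + ε) * r (2 * n + 1)) :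
    r n ^ 2 ≤ 16 * C * (n : ℝ) ^ (ε + δ') * r (2 * n + 1) := by
  have hn0 : (0 : ℝ) < n := by
    have : (16 : ℝ) ≤ n := by exact_mod_cast hn
    linarith
  have hr := r_nonneg' n
  have hr1 := r_nonneg' (2 * n + 1)
  -- lower bound of the sum
  have himg : (Finset.range (K + 1)).image (fun j => n + 2 * j) ⊆
      (Finset.range (2 * n)).filter (fun m => Odd m ∧ 2 * n ≤ 4 * m ∧ 4 * m ≤ 3 * (2 * n)) := by
    intro m hm
    rw [Finset.mem_image] at hm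
    obtain ⟨j, hj, rfl⟩ := hm
    rw [Finset.mem_range] at hj
    rw [Finset.mem_filter, Finset.mem_range]
    refine ⟨by omega, ?_, by omega, by omega⟩
    obtain ⟨t, ht⟩ := ho
    exact ⟨t + j, by omega⟩
  have hlow : ((K : ℝ) + 1) * (r n / 2) ^ 2 ≤
      ∑ m ∈ (Finset.range (2 * n)).filter
        (fun m => Odd m ∧ 2 * n ≤ 4 * m ∧ 4 * m ≤ 3 * (2 * n)),
      r m * r (2 * n - m) := by
    refine le_trans ?_ (Finset.sum_le_sum_of_subset_of_nonneg himg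
      (fun m _ _ => mul_nonneg (r_nonneg' _) (r_nonneg' _)))
    rw [Finset.sum_image (fun a _ b _ h => by simpa using h)]
    calc ((K : ℝ) + 1) * (r n / 2) ^ 2
        = ∑ _j ∈ Finset.range (K + 1), (r n / 2) ^ 2 := by
          rw [Finset.sum_const, Finset.card_range, nsmul_eq_mul]; push_cast; ring
      _ ≤ _ := by
          refine Finset.sum_le_sum fun j hj => ?_
          rw [Finset.mem_range] at hj
          obtain ⟨h1, h2⟩ := hs j (by omega)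
          have e : 2 * n - (n + 2 * j) = n - 2 * j := by omega
          rw [e, pow_two]
          exact mul_le_mul h1 h2 (by positivity) (r_nonneg' _)
  have h3 := le_trans hlow hm
  have h4 : (n : ℝ) ^ (1 / 2 - δ') * (r n / 2) ^ 2 ≤
      C * ((2 * n : ℕ) : ℝ) ^ (1 / 2 + ε) * r (2 * n + 1) :=
    le_trans (mul_le_mul_of_nonneg_right hK (by positivity)) h3
  have h5 : ((2 * n : ℕ) : ℝ) ^ (1 / 2 + ε) ≤ 4 * (n : ℝ) ^ (1 / 2 + ε) := by
    push_cast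
    rw [Real.mul_rpow (by norm_num) hn0.le]
    refine mul_le_mul_of_nonneg_right ?_ (by positivity)
    calc (2 : ℝ) ^ (1 / 2 + ε) ≤ (2 : ℝ) ^ (2 : ℝ) :=
          Real.rpow_le_rpow_of_exponent_le (by norm_num) (by linarith)
      _ = 4 := by norm_num
  have h6 : (n : ℝ) ^ (1 / 2 - δ') * (r n / 2) ^ 2 ≤
      C * (4 * (n : ℝ) ^ (1 / 2 + ε)) * r (2 * n + 1) := by
    refine le_trans h4 ?_
    refine mul_le_mul_of_nonneg_right ?_ hr1
    exact mul_le_mul_of_nonneg_left h5 (by linarith)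
  have hp : (0 : ℝ) < (n : ℝ) ^ (1 / 2 - δ') := Real.rpow_pos_of_pos hn0 _
  have e7 : (n : ℝ) ^ (1 / 2 + ε) = (n : ℝ) ^ (1 / 2 - δ') * (n : ℝ) ^ (ε + δ') := by
    rw [← Real.rpow_add hn0]; congr 1; ring
  rw [e7] at h6
  have h8 : (n : ℝ) ^ (1 / 2 - δ') * (r n / 2) ^ 2 ≤
      (n : ℝ) ^ (1 / 2 - δ') * (4 * C * (n : ℝ) ^ (ε + δ') * r (2 * n + 1)) := by
    refine le_trans h6 (le_of_eq (by ring))
  have h9 := le_of_mul_le_mul_left h8 hp
  nlinarith [h9]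

/-- the pointwise bound: `main_ineq` with `N₀ = 2 n`, the terms `n ± 2 j`, `slow_var`, `iter_double`
with `b = 1`, `S` the odd numbers -/
theorem r_bound (δ : ℝ) (hδ : 0 < δ) : ∃ C : ℝ, 0 < C ∧ ∀ n : ℕ, 1 ≤ n → r n ≤ C * (n : ℝ) ^ δ := by
  obtain ⟨t, ht0, htδ, ht4⟩ : ∃ t : ℝ, 0 < t ∧ t ≤ δ ∧ t ≤ 1 / 4 :=
    ⟨min δ (1 / 4), lt_min hδ (by norm_num), min_le_left _ _, min_le_right _ _⟩
  obtain ⟨Cm, hCm, n₁, hmain⟩ := main_ineq (t / 2) (by linarith) (by linarith)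
  obtain ⟨Cr, hCr, n₂, hratio⟩ := r_ratio' (t / 4) (by linarith) (by linarith)
  obtain ⟨n₃, hpos⟩ := r_pos'
  obtain ⟨n₄, hup⟩ := r_upper' (1 / 2) (by norm_num)
  obtain ⟨n₅, hn₅, hslow⟩ := slow_var r Cr (t / 4) (t / 2) hCr (by linarith) (by linarith)
    (by linarith) (max n₂ n₃) (fun n hn ho => hpos n (le_trans (le_max_right _ _) hn) ho)
    (fun n hn ho => hratio n (le_trans (le_max_left _ _) hn) ho)
  obtain ⟨C', hC', hfin⟩ := iter_double r (t / 2 + t / 2) (16 * Cm) 1 (max n₁ (max n₄ (max n₅ 16)))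
    le_rfl (by linarith) (by linarith) {n | Odd n ∧ n₃ ≤ n}
    (by
      rintro n ⟨ho, hn⟩
      refine ⟨?_, by omega⟩
      exact ⟨n, by ring⟩)
    (by
      rintro n ⟨ho, hn⟩
      exact hpos n hn ho)
    (by
      rintro n ⟨ho, hn⟩ hn'
      have a1 : n₁ ≤ n := le_trans (le_max_left _ _) hn'
      have a2 : max n₄ (max n₅ 16) ≤ n := le_trans (le_max_right _ _) hn'
      have a3 : max n₅ 16 ≤ n := le_trans (le_max_right _ _) a2
      have a4 : n₅ ≤ n := le_trans (le_max_left _ _) a3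
      have a5 : 16 ≤ n := le_trans (le_max_right _ _) a3
      have hn0 : (16 : ℝ) ≤ n := by exact_mod_cast a5
      have hKle : ((⌊(n : ℝ) ^ (1 / 2 - t / 2)⌋₊ : ℕ) : ℝ) ≤ (n : ℝ) ^ (1 / 2 - t / 2) :=
        Nat.floor_le (by positivity)
      have hK4 : 4 * ⌊(n : ℝ) ^ (1 / 2 - t / 2)⌋₊ ≤ n := by
        have h1 : (n : ℝ) ^ (1 / 2 - t / 2) ≤ (n : ℝ) ^ (1 / 2 : ℝ) :=
          Real.rpow_le_rpow_of_exponent_le (by linarith) (by linarith)
        have h2 : (n : ℝ) ^ (1 / 2 : ℝ) = Real.sqrt n := by rw [Real.sqrt_eq_rpow]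
        have h3 : 4 * Real.sqrt n ≤ n := by
          have h4 : Real.sqrt n * Real.sqrt n = n := Real.mul_self_sqrt (by linarith)
          have h5 : (4 : ℝ) ≤ Real.sqrt n := by
            rw [show (4 : ℝ) = Real.sqrt 16 by
              rw [show (16 : ℝ) = 4 ^ 2 by norm_num, Real.sqrt_sq (by norm_num)]]
            exact Real.sqrt_le_sqrt hn0
          nlinarith
        have h6 : (4 : ℝ) * (⌊(n : ℝ) ^ (1 / 2 - t / 2)⌋₊ : ℕ) ≤ n := by
          rw [h2] at h1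
          linarith
        exact_mod_cast h6
      exact step_point (t / 2) (t / 2) Cm n _ (by linarith) hCm a5 ho
        (Nat.lt_floor_add_one _).le hK4
        (fun j hj => by
          have hj' : (j : ℝ) ≤ (n : ℝ) ^ (1 / 2 - t / 2) :=
            le_trans (by exact_mod_cast hj) hKle
          obtain ⟨h1, h2, -⟩ := hslow n a4 ho j hj'
          exact ⟨h1, h2⟩)
        (hmain (2 * n) (by omega) ⟨n, by ring⟩))
    (by
      rintro n ⟨ho, hn⟩ hn'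
      exact hup n (le_trans (le_max_left _ _) (le_trans (le_max_right _ _) hn')))
  set B := max (max n₁ (max n₄ (max n₅ 16))) n₃ with hB
  refine ⟨C' + ∑ m ∈ Finset.range B, r m,
    by
      have : 0 ≤ ∑ m ∈ Finset.range B, r m := Finset.sum_nonneg fun m _ => r_nonneg' m
      linarith, fun n hn => ?_⟩
  have hn1 : (1 : ℝ) ≤ n := by exact_mod_cast hn
  have hs0 : 0 ≤ ∑ m ∈ Finset.range B, r m := Finset.sum_nonneg fun m _ => r_nonneg' m
  have hp1 : (1 : ℝ) ≤ (n : ℝ) ^ δ := Real.one_le_rpow hn1 hδ.le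
  rcases Nat.even_or_odd n with he | ho
  · rw [r_even' he]
    positivity
  · by_cases hnB : n < B
    · have h1 : r n ≤ ∑ m ∈ Finset.range B, r m :=
        Finset.single_le_sum (f := r) (fun m _ => r_nonneg' m) (Finset.mem_range.mpr hnB)
      nlinarith
    · have h2 : B ≤ n := not_lt.mp hnB
      have h3 := hfin n ⟨ho, le_trans (le_max_right _ _) h2⟩ (le_trans (le_max_left _ _) h2) hn
      have h4 : (n : ℝ) ^ (t / 2 + t / 2) ≤ (n : ℝ) ^ δ :=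
        Real.rpow_le_rpow_of_exponent_le hn1 (by linarith)
      have h5 : C' * (n : ℝ) ^ (t / 2 + t / 2) ≤ C' * (n : ℝ) ^ δ :=
        mul_le_mul_of_nonneg_left h4 hC'.le
      nlinarith

/-- one step for the bound in the mean -/
private lemma step_mean (ε C : ℝ) (M n₁ : ℕ) (hε : 0 < ε) (hε1 : ε ≤ 1) (hC : 1 ≤ C)
    (hM : 1 ≤ M) (hMn : n₁ ≤ M)
    (hm : ∀ N₀ : ℕ, n₁ ≤ N₀ → Even N₀ →
      ∑ n ∈ (Finset.range N₀).filter (fun n => Odd n ∧ N₀ ≤ 4 * n ∧ 4 * n ≤ 3 * N₀),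
        r n * r (N₀ - n) ≤ C * (N₀ : ℝ) ^ (1 / 2 + ε) * r (N₀ + 1)) :
    (∑ n ∈ Finset.Ico M (2 * M), r n) ^ 2 ≤
      16 * C * (M : ℝ) ^ (1 / 2 + ε) * ∑ n ∈ Finset.Ico (2 * M) (2 * (2 * M)), r n := by
  have hM0 : (0 : ℝ) < M := by exact_mod_cast hM
  -- the pairs
  have h1 : (∑ n ∈ Finset.Ico M (2 * M), r n) ^ 2 =
      ∑ p ∈ Finset.Ico M (2 * M) ×ˢ Finset.Ico M (2 * M), r p.1 * r p.2 := by
    rw [pow_two, Finset.sum_mul_sum, Finset.sum_product]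
  have h2 : ∑ p ∈ Finset.Ico M (2 * M) ×ˢ Finset.Ico M (2 * M), r p.1 * r p.2 =
      ∑ p ∈ (Finset.Ico M (2 * M) ×ˢ Finset.Ico M (2 * M)).filter
        (fun p => Odd p.1 ∧ Odd p.2), r p.1 * r p.2 := by
    rw [Finset.sum_filter_of_ne]
    intro p _ hne
    by_contra hcon
    apply hne
    rw [not_and_or, Nat.not_odd_iff_even, Nat.not_odd_iff_even] at hcon
    rcases hcon with h | h
    · rw [r_even' h, zero_mul]
    · rw [r_even' h, mul_zero]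
  have h3 : ∑ p ∈ (Finset.Ico M (2 * M) ×ˢ Finset.Ico M (2 * M)).filter
        (fun p => Odd p.1 ∧ Odd p.2), r p.1 * r p.2 ≤
      ∑ N₀ ∈ (Finset.Ico (2 * M) (4 * M)).filter Even,
        ∑ n ∈ (Finset.range N₀).filter (fun n => Odd n ∧ N₀ ≤ 4 * n ∧ 4 * n ≤ 3 * N₀),
          r n * r (N₀ - n) := by
    rw [Finset.sum_sigma']
    have e : ∑ p ∈ (Finset.Ico M (2 * M) ×ˢ Finset.Ico M (2 * M)).filter
        (fun p => Odd p.1 ∧ Odd p.2), r p.1 * r p.2 =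
        ∑ x ∈ ((Finset.Ico M (2 * M) ×ˢ Finset.Ico M (2 * M)).filter
          (fun p => Odd p.1 ∧ Odd p.2)).image
            (fun p => (⟨p.1 + p.2, p.1⟩ : (_ : ℕ) × ℕ)), r x.2 * r (x.1 - x.2) := by
      rw [Finset.sum_image]
      · refine Finset.sum_congr rfl fun p _ => ?_
        simp only
        rw [Nat.add_sub_cancel_left]
      · rintro ⟨a, b⟩ _ ⟨c, d⟩ _ h
        simp only [Sigma.mk.injEq, heq_eq_eq] at h
        obtain ⟨h1, h2⟩ := h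
        subst h2
        have : b = d := by omega
        rw [this]
    rw [e]
    refine Finset.sum_le_sum_of_subset_of_nonneg ?_
      (fun x _ _ => mul_nonneg (r_nonneg' _) (r_nonneg' _))
    intro x hx
    rw [Finset.mem_image] at hx
    obtain ⟨⟨a, b⟩, hp, rfl⟩ := hx
    rw [Finset.mem_filter, Finset.mem_product, Finset.mem_Ico, Finset.mem_Ico] at hp
    obtain ⟨⟨⟨ha1, ha2⟩, ⟨hb1, hb2⟩⟩, ⟨u, hu⟩, ⟨v, hv⟩⟩ := hp
    simp only at ha1 ha2 hb1 hb2 hu hv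
    rw [Finset.mem_sigma, Finset.mem_filter, Finset.mem_filter, Finset.mem_Ico,
      Finset.mem_range]
    simp only
    refine ⟨⟨by omega, ⟨u + v + 1, by omega⟩⟩, by omega, ⟨u, hu⟩, by omega, by omega⟩
  have h4 : ∑ N₀ ∈ (Finset.Ico (2 * M) (4 * M)).filter Even,
        ∑ n ∈ (Finset.range N₀).filter (fun n => Odd n ∧ N₀ ≤ 4 * n ∧ 4 * n ≤ 3 * N₀),
          r n * r (N₀ - n) ≤
      ∑ N₀ ∈ (Finset.Ico (2 * M) (4 * M)).filter Even,
        16 * C * (M : ℝ) ^ (1 / 2 + ε) * r (N₀ + 1) := by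
    refine Finset.sum_le_sum fun N₀ hN => ?_
    rw [Finset.mem_filter, Finset.mem_Ico] at hN
    refine le_trans (hm N₀ (by omega) hN.2) ?_
    refine mul_le_mul_of_nonneg_right ?_ (r_nonneg' _)
    have h5 : (N₀ : ℝ) ^ (1 / 2 + ε) ≤ ((4 : ℝ) * M) ^ (1 / 2 + ε) := by
      refine Real.rpow_le_rpow (Nat.cast_nonneg _) ?_ (by linarith)
      have : N₀ ≤ 4 * M := hN.1.2.le
      exact_mod_cast this
    have h6 : ((4 : ℝ) * M) ^ (1 / 2 + ε) ≤ 16 * (M : ℝ) ^ (1 / 2 + ε) := by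
      rw [Real.mul_rpow (by norm_num) hM0.le]
      refine mul_le_mul_of_nonneg_right ?_ (by positivity)
      calc (4 : ℝ) ^ (1 / 2 + ε) ≤ (4 : ℝ) ^ (2 : ℝ) :=
            Real.rpow_le_rpow_of_exponent_le (by norm_num) (by linarith)
        _ = 16 := by norm_num
    calc C * (N₀ : ℝ) ^ (1 / 2 + ε) ≤ C * (16 * (M : ℝ) ^ (1 / 2 + ε)) :=
          mul_le_mul_of_nonneg_left (le_trans h5 h6) (by linarith)
      _ = _ := by ring
  have h7 : ∑ N₀ ∈ (Finset.Ico (2 * M) (4 * M)).filter Even, r (N₀ + 1) ≤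
      ∑ n ∈ Finset.Ico (2 * M) (2 * (2 * M)), r n := by
    have e : ∑ N₀ ∈ (Finset.Ico (2 * M) (4 * M)).filter Even, r (N₀ + 1) =
        ∑ n ∈ ((Finset.Ico (2 * M) (4 * M)).filter Even).image (fun N => N + 1), r n := by
      rw [Finset.sum_image (fun a _ b _ h => by simpa using h)]
    rw [e]
    refine Finset.sum_le_sum_of_subset_of_nonneg ?_ (fun m _ _ => r_nonneg' m)
    intro m hm
    rw [Finset.mem_image] at hm
    obtain ⟨N, hN, rfl⟩ := hm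
    rw [Finset.mem_filter, Finset.mem_Ico] at hN
    obtain ⟨⟨hN1, hN2⟩, ⟨s, hs⟩⟩ := hN
    rw [Finset.mem_Ico]
    omega
  rw [h1, h2]
  refine le_trans h3 (le_trans h4 ?_)
  rw [← Finset.mul_sum]
  exact mul_le_mul_of_nonneg_left h7 (by positivity)

/-- the bound in the mean: `main_ineq` for the even `N₀` in `[2 M, 4 M)`, `iter_double` with `b = 0` -/
theorem r_mean (δ : ℝ) (hδ : 0 < δ) : ∃ C : ℝ, 0 < C ∧ ∀ N : ℕ, 1 ≤ N →
    ∑ n ∈ Finset.Ico N (2 * N), r n ≤ C * (N : ℝ) ^ (1 / 2 + δ) := by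
  obtain ⟨t, ht0, htδ, ht4⟩ : ∃ t : ℝ, 0 < t ∧ t ≤ δ ∧ t ≤ 1 :=
    ⟨min δ 1, lt_min hδ (by norm_num), min_le_left _ _, min_le_right _ _⟩
  obtain ⟨Cm, hCm, n₁, hmain⟩ := main_ineq t ht0 ht4
  obtain ⟨n₃, hpos⟩ := r_pos'
  obtain ⟨n₄, hup⟩ := r_upper' (1 / 4) (by norm_num)
  obtain ⟨n₅, hn₅⟩ : ∃ n₅ : ℕ, ∀ n : ℕ, n₅ ≤ n →
      (n : ℝ) * Real.exp ((2 * n : ℝ) ^ (1 / 4 : ℝ)) ≤ Real.exp ((n : ℝ) ^ (1 / 2 : ℝ)) := by
    have hlog : Filter.Tendsto (fun x : ℝ => Real.log x / x ^ (1 / 2 : ℝ)) Filter.atTop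
        (nhds 0) := (isLittleO_log_rpow_atTop (by norm_num)).tendsto_div_nhds_zero
    have hpw : Filter.Tendsto (fun x : ℝ => x ^ (-(1 / 4) : ℝ)) Filter.atTop (nhds 0) :=
      tendsto_rpow_neg_atTop (by norm_num)
    have hev : ∀ᶠ x : ℝ in Filter.atTop, Real.log x / x ^ (1 / 2 : ℝ) ≤ 1 / 4 ∧
        x ^ (-(1 / 4) : ℝ) ≤ 1 / 4 ∧ 1 ≤ x :=
      ((hlog.eventually (ge_mem_nhds (by norm_num : (0 : ℝ) < 1 / 4))).and
        ((hpw.eventually (ge_mem_nhds (by norm_num : (0 : ℝ) < 1 / 4))).and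
          (Filter.eventually_ge_atTop 1)))
    have hev' := tendsto_natCast_atTop_atTop.eventually hev
    rw [Filter.eventually_atTop] at hev'
    obtain ⟨n₅, h5⟩ := hev'
    refine ⟨n₅, fun n hn => ?_⟩
    obtain ⟨h1, h2, h3⟩ := h5 n hn
    have hn0 : (0 : ℝ) < n := by linarith
    have hp2 : (0 : ℝ) < (n : ℝ) ^ (1 / 2 : ℝ) := Real.rpow_pos_of_pos hn0 _
    rw [div_le_iff₀ hp2] at h1
    have h4 : (2 * n : ℝ) ^ (1 / 4 : ℝ) ≤ 2 * ((1 / 4) * (n : ℝ) ^ (1 / 2 : ℝ)) := by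
      rw [Real.mul_rpow (by norm_num) hn0.le]
      refine mul_le_mul ?_ ?_ (by positivity) (by norm_num)
      · calc (2 : ℝ) ^ (1 / 4 : ℝ) ≤ (2 : ℝ) ^ (1 : ℝ) :=
              Real.rpow_le_rpow_of_exponent_le (by norm_num) (by norm_num)
          _ = 2 := by norm_num
      · have e : (n : ℝ) ^ (1 / 4 : ℝ) = (n : ℝ) ^ (-(1 / 4) : ℝ) * (n : ℝ) ^ (1 / 2 : ℝ) := by
          rw [← Real.rpow_add hn0]; norm_num
        rw [e]
        exact mul_le_mul_of_nonneg_right h2 hp2.le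
    calc (n : ℝ) * Real.exp ((2 * n : ℝ) ^ (1 / 4 : ℝ))
        = Real.exp (Real.log n + (2 * n : ℝ) ^ (1 / 4 : ℝ)) := by
          rw [Real.exp_add, Real.exp_log hn0]
      _ ≤ _ := by
          apply Real.exp_le_exp.mpr
          linarith
  set F : ℕ → ℝ := fun N => ∑ n ∈ Finset.Ico N (2 * N), r n with hF
  have hFnn : ∀ N, 0 ≤ F N := fun N => Finset.sum_nonneg fun m _ => r_nonneg' m
  obtain ⟨C', hC', hfin⟩ := iter_double F (1 / 2 + t) (16 * Cm) 0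
    (max n₁ (max n₄ (max n₅ 2))) (by norm_num) (by linarith) (by linarith)
    {n | n₃ ≤ n ∧ 2 ≤ n}
    (by
      rintro n ⟨h1, h2⟩
      exact ⟨by omega, by omega⟩)
    (by
      rintro n ⟨h1, h2⟩
      obtain ⟨m, hm1, hm2, hmo⟩ : ∃ m, n ≤ m ∧ m < 2 * n ∧ Odd m := by
        rcases Nat.even_or_odd n with he | ho
        · exact ⟨n + 1, by omega, by omega, he.add_one⟩
        · exact ⟨n, le_rfl, by omega, ho⟩
      exact lt_of_lt_of_le (hpos m (le_trans h1 hm1) hmo)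
        (Finset.single_le_sum (f := r) (fun m _ => r_nonneg' m)
          (Finset.mem_Ico.mpr ⟨hm1, hm2⟩)))
    (by
      rintro n ⟨h1, h2⟩ hn
      exact step_mean t Cm n n₁ ht0 ht4 hCm (by omega) (le_trans (le_max_left _ _) hn) hmain)
    (by
      rintro n ⟨h1, h2⟩ hn
      have a2 : max n₄ (max n₅ 2) ≤ n := le_trans (le_max_right _ _) hn
      have a3 : n₄ ≤ n := le_trans (le_max_left _ _) a2
      have a4 : n₅ ≤ n := le_trans (le_max_left _ _) (le_trans (le_max_right _ _) a2)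
      refine le_trans ?_ (hn₅ n a4)
      calc F n ≤ ∑ _m ∈ Finset.Ico n (2 * n), Real.exp ((2 * n : ℝ) ^ (1 / 4 : ℝ)) := by
            refine Finset.sum_le_sum fun m hm => ?_
            rw [Finset.mem_Ico] at hm
            refine le_trans (hup m (le_trans a3 hm.1)) ?_
            apply Real.exp_le_exp.mpr
            refine Real.rpow_le_rpow (Nat.cast_nonneg _) ?_ (by norm_num)
            have : m ≤ 2 * n := hm.2.le
            exact_mod_cast this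
        _ = (n : ℝ) * Real.exp ((2 * n : ℝ) ^ (1 / 4 : ℝ)) := by
            rw [Finset.sum_const, Nat.card_Ico, nsmul_eq_mul]
            congr 2
            omega)
  set B := max (max n₁ (max n₄ (max n₅ 2))) (max n₃ 2) with hB
  refine ⟨C' + ∑ m ∈ Finset.range B, F m,
    by
      have : 0 ≤ ∑ m ∈ Finset.range B, F m := Finset.sum_nonneg fun m _ => hFnn m
      linarith, fun n hn => ?_⟩
  have hn1 : (1 : ℝ) ≤ n := by exact_mod_cast hn
  have hs0 : 0 ≤ ∑ m ∈ Finset.range B, F m := Finset.sum_nonneg fun m _ => hFnn m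
  have hp1 : (1 : ℝ) ≤ (n : ℝ) ^ (1 / 2 + δ) := Real.one_le_rpow hn1 (by linarith)
  by_cases hnB : n < B
  · have h1 : F n ≤ ∑ m ∈ Finset.range B, F m :=
      Finset.single_le_sum (f := F) (fun m _ => hFnn m) (Finset.mem_range.mpr hnB)
    have h2 : F n ≤ (C' + ∑ m ∈ Finset.range B, F m) * (n : ℝ) ^ (1 / 2 + δ) := by nlinarith
    exact h2
  · have h2 : B ≤ n := not_lt.mp hnB
    have h2a : max n₃ 2 ≤ n := le_trans (le_max_right _ _) h2
    have h3 := hfin n ⟨le_trans (le_max_left _ _) h2a, le_trans (le_max_right _ _) h2a⟩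
      (le_trans (le_max_left _ _) h2) hn
    have h4 : (n : ℝ) ^ (1 / 2 + t) ≤ (n : ℝ) ^ (1 / 2 + δ) :=
      Real.rpow_le_rpow_of_exponent_le hn1 (by linarith)
    have h5 : C' * (n : ℝ) ^ (1 / 2 + t) ≤ C' * (n : ℝ) ^ (1 / 2 + δ) :=
      mul_le_mul_of_nonneg_left h4 hC'.le
    have h6 : F n ≤ (C' + ∑ m ∈ Finset.range B, F m) * (n : ℝ) ^ (1 / 2 + δ) := by nlinarith
    exact h6

end Pool.Agent.SawPoly
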