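import Pool.Agent.SawPoly.Rec

/-!
Counting the joined polygons.
-/

set_option autoImplicit false

namespace Pool.Agent.SawPoly

/-- the parameters `(i, v, c, e, a, b)` -/
def Info : Finset (ℕ × ℕ × ℕ × ℕ × ℕ × ℕ) :=
  ((Finset.Icc 1 16) ×ˢ (Finset.Icc 1 16) ×ˢ (Finset.range 16) ×ˢ (Finset.range 3) ×ˢ
    (Finset.range 2) ×ˢ (Finset.range 2)).filter fun q => q.2.2.1 < q.2.1

/-- the possible values of `dA`, `dB` -/
private def Dirs : Finset (Option Pt) :=
  {none, some (1, 0), some (-1, 0), some (0, 1), some (0, -1)}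

private lemma card_Dirs : Dirs.card ≤ 5 := by
  unfold Dirs
  exact Finset.card_le_five

private lemma mem_Dirs {d : Option Pt} (h : ∀ x ∈ d, nb 0 x) : d ∈ Dirs := by
  unfold Dirs
  rcases d with _ | x
  · simp
  · have h' : nb 0 x := h x rfl
    rw [nb_iff] at h'
    rcases h' with rfl | rfl | rfl | rfl <;> simp

/-- the triples `(A, B, t)` -/
private noncomputable def Trip (n m : ℕ) : Finset ((_ : List Pt) × (List Pt × ℤ)) :=
  (PG n).sigma fun A => PG m ×ˢ rows A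

private lemma card_Trip (n m : ℕ) :
    (Trip n m).card = (∑ A ∈ PG n, (rows A).card) * (PG m).card := by
  unfold Trip
  rw [Finset.card_sigma, Finset.sum_mul]
  refine Finset.sum_congr rfl fun A _ => ?_
  rw [Finset.card_product, mul_comm]

/-- the data -/
private noncomputable def Dat (n m : ℕ) :
    Finset (((_ : ℕ × ℕ × ℕ × ℕ × ℕ × ℕ) × List Pt) ×
      (ℕ × ℕ × Option Pt × Option Pt × Bool)) :=
  (Info.sigma fun q =>
    D (q.1 + (m + 1 - q.2.2.2.2.2) + q.2.1 + (n + 1 - q.2.2.2.2.1) + q.2.2.2.1 - 1)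
      (q.1 + (m + 1 - q.2.2.2.2.2) + q.2.2.1)) ×ˢ
    (Finset.range (n + 1) ×ˢ Finset.range (m + 1) ×ˢ Dirs ×ˢ Dirs ×ˢ (Finset.univ : Finset Bool))

private lemma card_Dat (n m : ℕ) : (Dat n m).card ≤ 50 * (n + 1) * (m + 1) *
      ∑ q ∈ Info, (D (q.1 + (m + 1 - q.2.2.2.2.2) + q.2.1 + (n + 1 - q.2.2.2.2.1) + q.2.2.2.1 - 1)
        (q.1 + (m + 1 - q.2.2.2.2.2) + q.2.2.1)).card := by
  unfold Dat
  rw [Finset.card_product, Finset.card_sigma, Finset.card_product, Finset.card_product,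
    Finset.card_product, Finset.card_product, Finset.card_range, Finset.card_range,
    Finset.card_univ, Fintype.card_bool, mul_comm]
  refine Nat.mul_le_mul_right _ ?_
  have h5 : Dirs.card * (Dirs.card * 2) ≤ 5 * (5 * 2) :=
    Nat.mul_le_mul card_Dirs (Nat.mul_le_mul_right _ card_Dirs)
  calc (n + 1) * ((m + 1) * (Dirs.card * (Dirs.card * 2)))
      ≤ (n + 1) * ((m + 1) * (5 * (5 * 2))) :=
        Nat.mul_le_mul_left _ (Nat.mul_le_mul_left _ h5)
    _ = 50 * (n + 1) * (m + 1) := by ring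

/-- the reconstruction map -/
private def rc (n m : ℕ) (z : ((_ : ℕ × ℕ × ℕ × ℕ × ℕ × ℕ) × List Pt) ×
      (ℕ × ℕ × Option Pt × Option Pt × Bool)) : (_ : List Pt) × (List Pt × ℤ) :=
  let q := z.1.1
  let σ := z.1.2
  let r := recon q.1 (m + 1 - q.2.2.2.2.2) q.2.1 (n + 1 - q.2.2.2.2.1) z.2.2.2.1 z.2.2.2.2.1
    z.2.1 z.2.2.1 z.2.2.2.2.2 σ
  ⟨r.1, r.2⟩

theorem card_join {n m : ℕ} (hn : 3 ≤ n) (hm : 3 ≤ m) :
    (∑ A ∈ PG n, (rows A).card) * (PG m).card ≤ 50 * (n + 1) * (m + 1) *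
      ∑ q ∈ Info, (D (q.1 + (m + 1 - q.2.2.2.2.2) + q.2.1 + (n + 1 - q.2.2.2.2.1) + q.2.2.2.1 - 1)
        (q.1 + (m + 1 - q.2.2.2.2.2) + q.2.2.1)).card := by
  rw [← card_Trip]
  refine le_trans ?_ (card_Dat n m)
  have hsub : Trip n m ⊆ (Dat n m).image (rc n m) := by
    rintro ⟨A, B, t⟩ hz
    unfold Trip at hz
    rw [Finset.mem_sigma, Finset.mem_product] at hz
    obtain ⟨hA, hB, ht⟩ := hz
    simp only at hA hB ht
    obtain ⟨i, v, c, e, a, b, k, k', dA, dB, rev, N, σ, h1, h2, h3, h4, h5, h6, h7, h8, h9, h10,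
      h11, h12, h13, h14, h15⟩ := exists_rec hn hm hA hB ht
    rw [Finset.mem_image]
    have hN : N = i + (m + 1 - b) + v + (n + 1 - a) + e - 1 := by omega
    rw [hN] at h14
    refine ⟨(⟨(i, v, c, e, a, b), σ⟩, (k, k', dA, dB, rev)), ?_, ?_⟩
    · unfold Dat Info
      simp only [Finset.mem_product, Finset.mem_sigma, Finset.mem_filter, Finset.mem_Icc,
        Finset.mem_range, Finset.mem_univ, and_true]
      exact ⟨⟨⟨⟨⟨h1, h2⟩, ⟨h3, h4⟩, by omega, by omega, by omega, by omega⟩, h5⟩, h14⟩,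
        by omega, by omega, mem_Dirs h11, mem_Dirs h12⟩
    · unfold rc
      simp only [h15]
  exact (Finset.card_le_card hsub).trans Finset.card_image_le

end Pool.Agent.SawPoly
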