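import Mathlib

/-!
Self-avoiding polygons of the square lattice as cyclic lists of sites: definitions.
-/

set_option autoImplicit false

namespace Pool.Agent.SawPoly

/-- sites of the square lattice -/
abbrev Pt := ℤ × ℤ

/-- lattice adjacency (definitionally equal to `Pool.Agent.SawLim.adj`) -/
def nb (p q : Pt) : Prop := |q.1 - p.1| + |q.2 - p.2| = 1

instance (p q : Pt) : Decidable (nb p q) := by unfold nb; infer_instance

/-- `L` lists, in cyclic order, the sites of a self-avoiding polygon (when `3 ≤ L.length`) -/
def Loop (L : List Pt) : Prop :=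
  L.Nodup ∧ L.IsChain nb ∧ ∀ x ∈ L.getLast?, ∀ y ∈ L.head?, nb x y

/-- translation of a list of sites -/
def mv (v : Pt) (L : List Pt) : List Pt := L.map fun p => p + v

/-- the rows (second coordinates) of the sites -/
def rows (L : List Pt) : Finset ℤ := (L.map Prod.snd).toFinset

/-- `nrm L` is `L` translated so that its first site is the origin -/
def nrm (L : List Pt) : List Pt := mv (-(L.headD 0)) L

/-- `Port L F a b`: after removing at most one site of the polygon `L` and adding at most four
sites, all of them free and satisfying `F`, there is an open path from `a` to `b` through all the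
remaining sites. -/
def Port (L : List Pt) (F : Pt → Prop) (a b : Pt) : Prop :=
  ∃ (r : ℕ) (P I E₁ E₂ : List Pt), L.rotate r = P ++ I ∧ P ≠ [] ∧ I.length ≤ 1 ∧
    E₁.length ≤ 2 ∧ E₂.length ≤ 2 ∧ (∀ x ∈ E₁ ++ E₂, x ∉ L ∧ F x) ∧
    (E₂ ++ P ++ E₁).Nodup ∧ (E₂ ++ P ++ E₁).IsChain nb ∧
    (E₂ ++ P ++ E₁).head? = some a ∧ (E₂ ++ P ++ E₁).getLast? = some b

end Pool.Agent.SawPoly
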