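import Pool.Agent.SawPoly.PG
import Pool.Agent.SawCon.Final

/-!
Polygons have few far contacts.
-/

set_option autoImplicit false

open Pool.Agent.SawLim Pool.Agent.SawKes Pool.Agent.SawMrg Pool.Agent.SawClose Pool.Agent.SawCon

namespace Pool.Agent.SawPoly

private lemma far_le {N L : ℕ} (w : Fin (N + 1) → Pt) :
    (far N L (List.ofFn w)).card ≤ contacts N w (fun i j => i + L ≤ j) := by
  classical
  unfold contacts
  rw [Nat.card_eq_fintype_card, Fintype.card_subtype]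
  refine le_trans (Finset.card_le_card ?_) (Finset.card_image_le
    (f := fun p : Fin (N + 1) × Fin (N + 1) => ((p.1 : ℕ), (p.2 : ℕ))))
  rintro ⟨a, b⟩ h
  unfold far at h
  rw [Finset.mem_filter, Finset.mem_product, Finset.mem_range, Finset.mem_range] at h
  obtain ⟨⟨ha, hb⟩, h1, h2⟩ := h
  simp only at ha hb h1 h2
  rw [Finset.mem_image]
  refine ⟨(⟨a, ha⟩, ⟨b, hb⟩), ?_, rfl⟩
  rw [Finset.mem_filter]
  refine ⟨Finset.mem_univ _, h1, ?_⟩
  have e1 : (List.ofFn w).getD a 0 = w ⟨a, ha⟩ := by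
    rw [List.getD_eq_getElem _ _ (by simpa using ha), List.getElem_ofFn]
  have e2 : (List.ofFn w).getD b 0 = w ⟨b, hb⟩ := by
    rw [List.getD_eq_getElem _ _ (by simpa using hb), List.getElem_ofFn]
  rw [e1, e2] at h2
  exact h2

private lemma far_triv (N L : ℕ) (σ : List Pt) : ((far N L σ).card : ℝ) ≤ ((N : ℝ) + 2) ^ 2 := by
  have h1 : (far N L σ).card ≤ (N + 1) * (N + 1) := by
    unfold far
    refine (Finset.card_le_card (Finset.filter_subset _ _)).trans ?_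
    rw [Finset.card_product, Finset.card_range]
  have h2 : ((far N L σ).card : ℝ) ≤ (((N + 1) * (N + 1) : ℕ) : ℝ) := by exact_mod_cast h1
  push_cast at h2
  have : (0 : ℝ) ≤ N := Nat.cast_nonneg _
  nlinarith

private lemma cc_le (ε : ℝ) (hε : 0 < ε) : ∃ C : ℝ, 0 < C ∧ ∀ n : ℕ,
    (cc n : ℝ) ≤ C * (mu ^ n * Real.exp ((n : ℝ) ^ ε)) := by
  obtain ⟨n₀, h⟩ := hw_bound ε hε
  have hS : (0 : ℝ) ≤ ∑ n ∈ Finset.range n₀, (cc n : ℝ) :=
    Finset.sum_nonneg fun _ _ => Nat.cast_nonneg _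
  refine ⟨1 + ∑ n ∈ Finset.range n₀, (cc n : ℝ), by positivity, fun n => ?_⟩
  have hmu : 1 ≤ mu ^ n := one_le_pow₀ one_le_mu
  have hexp : 1 ≤ Real.exp ((n : ℝ) ^ ε) := Real.one_le_exp (by positivity)
  have hpos : 1 ≤ mu ^ n * Real.exp ((n : ℝ) ^ ε) := by nlinarith
  rcases le_or_gt n₀ n with h1 | h1
  · have h2 := h n h1
    nlinarith
  · have h2 : (cc n : ℝ) ≤ ∑ n ∈ Finset.range n₀, (cc n : ℝ) :=
      Finset.single_le_sum (f := fun n => (cc n : ℝ)) (fun _ _ => Nat.cast_nonneg _)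
        (Finset.mem_range.2 h1)
    nlinarith

/-- Use `far_contacts` (SawCon.Final) for all the `N`-step walks, `hw_bound` (SawMrg.HW) with
exponent `ε/2`, and the trivial bound `(N+1)^2` on the exceptional walks. -/
theorem sum_far (ε : ℝ) (hε : 0 < ε) (hε1 : ε ≤ 1) : ∃ C : ℝ, 0 < C ∧ ∀ N L : ℕ, 1 ≤ N → 1 ≤ L →
    N ≤ 8 * L → L ≤ N →
    ∑ σ ∈ PG N, ((far N L σ).card : ℝ) ≤
      C * (N : ℝ) ^ ε * (PG N).card + C * (mu ^ N * Real.exp (-((N : ℝ) ^ (ε / 2)))) := by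
  classical
  obtain ⟨M, hM0, hM⟩ := exists_M ε hε
  obtain ⟨C₁, hC₁, h₁⟩ := far_contacts ε hε hε1 (M + 2) (by positivity)
  obtain ⟨C₂, hC₂, h₂⟩ := cc_le (ε / 2) (by positivity)
  refine ⟨8 * C₁ + C₂, by positivity, ?_⟩
  intro N L hN hL hNL hLN
  have hN1 : (1 : ℝ) ≤ N := by exact_mod_cast hN
  have hL1 : (1 : ℝ) ≤ L := by exact_mod_cast hL
  have hNL' : (N : ℝ) ≤ 8 * L := by exact_mod_cast hNL
  have hLN' : (L : ℝ) ≤ N := by exact_mod_cast hLN
  set X : ℝ := N * (L : ℝ) ^ (ε - 1) with hX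
  -- `N^ε ≤ X ≤ 8 N^ε`
  have hXN : (N : ℝ) ^ ε ≤ X := by
    have h1 : (N : ℝ) ^ (ε - 1) ≤ (L : ℝ) ^ (ε - 1) :=
      Real.rpow_le_rpow_of_nonpos (by linarith) hLN' (by linarith)
    have h2 : (N : ℝ) ^ ε = N * (N : ℝ) ^ (ε - 1) := by
      rw [Real.rpow_sub_one (by positivity)]
      field_simp
    rw [h2, hX]
    exact mul_le_mul_of_nonneg_left h1 (by positivity)
  have hX8 : X ≤ 8 * (N : ℝ) ^ ε := by
    have h2 : (L : ℝ) ^ ε = L * (L : ℝ) ^ (ε - 1) := by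
      rw [Real.rpow_sub_one (by positivity)]
      field_simp
    have h3 : (L : ℝ) ^ ε ≤ (N : ℝ) ^ ε := Real.rpow_le_rpow (by positivity) hLN' hε.le
    have h4 : 0 ≤ (L : ℝ) ^ (ε - 1) := by positivity
    rw [hX]
    nlinarith
  have hp := h₁ N L hL hLN
  rw [← hX, prob_eq] at hp
  have hc : (0 : ℝ) < cc N := by exact_mod_cast cc_pos N
  have hp' : (((saws N).filter fun w => C₁ * X ≤ ((contacts N w fun i j => i + L ≤ j : ℕ) : ℝ)).card
      : ℝ) ≤ Real.exp (-((M + 2) * X)) * cc N := by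
    rwa [div_le_iff₀ hc] at hp
  rw [sum_PG]
  have hpt : ∀ w ∈ (saws N).filter (fun w => adj 0 (w (Fin.last N))),
      ((far N L (List.ofFn w)).card : ℝ)
      ≤ 8 * C₁ * (N : ℝ) ^ ε + (if C₁ * X ≤ ((contacts N w fun i j => i + L ≤ j : ℕ) : ℝ) then
        ((N : ℝ) + 2) ^ 2 else 0) := by
    intro w _
    split_ifs with h1
    · have := far_triv N L (List.ofFn w)
      have : 0 ≤ 8 * C₁ * (N : ℝ) ^ ε := by positivity
      linarith
    · have h3 : ((far N L (List.ofFn w)).card : ℝ) ≤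
          ((contacts N w fun i j => i + L ≤ j : ℕ) : ℝ) := by exact_mod_cast far_le w
      have h4 := not_le.1 h1
      have h5 : C₁ * X ≤ C₁ * (8 * (N : ℝ) ^ ε) := mul_le_mul_of_nonneg_left hX8 hC₁.le
      linarith
  refine (Finset.sum_le_sum hpt).trans ?_
  rw [Finset.sum_add_distrib, Finset.sum_const, nsmul_eq_mul]
  have hcard : ((((saws N).filter (fun w => adj 0 (w (Fin.last N)))).card : ℕ) : ℝ)
      = (PG N).card := by
    have h := sum_PG (n := N) (fun _ => (1 : ℝ))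
    simp only [Finset.sum_const, nsmul_eq_mul, mul_one] at h
    exact h.symm
  rw [hcard]
  have hsecond : ∑ w ∈ (saws N).filter (fun w => adj 0 (w (Fin.last N))),
      (if C₁ * X ≤ ((contacts N w fun i j => i + L ≤ j : ℕ) : ℝ) then
        ((N : ℝ) + 2) ^ 2 else 0) ≤ C₂ * (mu ^ N * Real.exp (-((N : ℝ) ^ (ε / 2)))) := by
    have h1 : ∑ w ∈ (saws N).filter (fun w => adj 0 (w (Fin.last N))),
        (if C₁ * X ≤ ((contacts N w fun i j => i + L ≤ j : ℕ) : ℝ) then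
        ((N : ℝ) + 2) ^ 2 else 0) ≤ ∑ w ∈ saws N,
        (if C₁ * X ≤ ((contacts N w fun i j => i + L ≤ j : ℕ) : ℝ) then
        ((N : ℝ) + 2) ^ 2 else 0) := by
      apply Finset.sum_le_sum_of_subset_of_nonneg (Finset.filter_subset _ _)
      intro w _ _
      split_ifs <;> positivity
    refine h1.trans ?_
    rw [← Finset.sum_filter, Finset.sum_const, nsmul_eq_mul]
    have h3 : (1 : ℝ) ≤ (N : ℝ) ^ (ε / 2) := Real.one_le_rpow hN1 (by positivity)
    have h4 : (N : ℝ) ^ (ε / 2) ≤ (N : ℝ) ^ ε :=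
      Real.rpow_le_rpow_of_exponent_le hN1 (by linarith)
    calc (((saws N).filter fun w => C₁ * X ≤ ((contacts N w fun i j => i + L ≤ j : ℕ) : ℝ)).card
      : ℝ) * ((N : ℝ) + 2) ^ 2
        ≤ (Real.exp (-((M + 2) * X)) * cc N) * Real.exp (M * (N : ℝ) ^ ε) := by
          apply mul_le_mul hp' (hM N hN) (by positivity) (by positivity)
      _ ≤ (Real.exp (-((M + 2) * X)) * (C₂ * (mu ^ N * Real.exp ((N : ℝ) ^ (ε / 2))))) *
            Real.exp (M * (N : ℝ) ^ ε) := by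
          apply mul_le_mul_of_nonneg_right _ (Real.exp_pos _).le
          exact mul_le_mul_of_nonneg_left (h₂ N) (Real.exp_pos _).le
      _ = C₂ * (mu ^ N * Real.exp (-((M + 2) * X) + (N : ℝ) ^ (ε / 2) + M * (N : ℝ) ^ ε)) := by
          rw [Real.exp_add, Real.exp_add]; ring
      _ ≤ _ := by
          apply mul_le_mul_of_nonneg_left _ hC₂.le
          apply mul_le_mul_of_nonneg_left _ (by have := mu_pos; positivity)
          apply Real.exp_le_exp.2
          nlinarith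
  have hfirst : ((PG N).card : ℝ) * (8 * C₁ * (N : ℝ) ^ ε) ≤
      (8 * C₁ + C₂) * (N : ℝ) ^ ε * (PG N).card := by
    have : 0 ≤ C₂ * ((N : ℝ) ^ ε * (PG N).card) := by positivity
    nlinarith
  have hthird : C₂ * (mu ^ N * Real.exp (-((N : ℝ) ^ (ε / 2)))) ≤
      (8 * C₁ + C₂) * (mu ^ N * Real.exp (-((N : ℝ) ^ (ε / 2)))) := by
    have hm := mu_pos
    have : 0 ≤ 8 * C₁ * (mu ^ N * Real.exp (-((N : ℝ) ^ (ε / 2)))) := by positivity
    nlinarith
  linarith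

end Pool.Agent.SawPoly
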