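import Pool.Agent.SawPoly.Basic

/-!
Sliding the second polygon towards the first one.
-/

set_option autoImplicit false

namespace Pool.Agent.SawPoly

/-- Slide `B` horizontally until `min (b.1 - a.1) = 4`, the minimum being over `a ∈ A`, `b ∈ B`
with `|b.2 - a.2| ≤ 4`; then take a pair `(p, q)` with `q.1 - p.1 = 4` and `|q.2 - p.2|` minimal. -/
theorem slide (A B : List Pt) (h : ∃ a ∈ A, ∃ b ∈ B, a.2 = b.2) :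
    ∃ s : ℤ, ∃ p ∈ A, ∃ q ∈ mv (s, 0) B, q.1 = p.1 + 4 ∧ |q.2 - p.2| ≤ 4 ∧
      (∀ a ∈ A, ∀ b ∈ mv (s, 0) B, |b.2 - a.2| ≤ 4 → a.1 + 4 ≤ b.1) ∧
      (∀ a ∈ A, ∀ b ∈ mv (s, 0) B, b.1 = a.1 + 4 → |q.2 - p.2| ≤ |b.2 - a.2|) := by
  have hmem : ∀ (s : ℤ) (x : Pt), x ∈ mv (s, 0) B ↔ ∃ b ∈ B, x = (b.1 + s, b.2) := by
    intro s x
    unfold mv
    rw [List.mem_map]
    constructor
    · rintro ⟨b, hb, rfl⟩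
      exact ⟨b, hb, by ext <;> simp⟩
    · rintro ⟨b, hb, rfl⟩
      exact ⟨b, hb, by ext <;> simp⟩
  obtain ⟨T, hT⟩ : ∃ T : Finset (Pt × Pt), T = (A.toFinset ×ˢ B.toFinset).filter
    (fun x => |x.2.2 - x.1.2| ≤ 4) := ⟨_, rfl⟩
  have hTm : ∀ a b : Pt, (a, b) ∈ T ↔ (a ∈ A ∧ b ∈ B) ∧ |b.2 - a.2| ≤ 4 := by
    intro a b
    rw [hT, Finset.mem_filter, Finset.mem_product, List.mem_toFinset, List.mem_toFinset]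
  have hTne : T.Nonempty := by
    obtain ⟨a, ha, b, hb, hab⟩ := h
    exact ⟨(a, b), (hTm a b).2 ⟨⟨ha, hb⟩, by rw [hab, sub_self, abs_zero]; norm_num⟩⟩
  obtain ⟨⟨a₀, b₀⟩, h0, hmin⟩ := T.exists_min_image (fun x => x.2.1 - x.1.1) hTne
  obtain ⟨⟨ha₀, hb₀⟩, h4⟩ := (hTm a₀ b₀).1 h0
  obtain ⟨U, hU⟩ : ∃ U : Finset (Pt × Pt), U = (A.toFinset ×ˢ B.toFinset).filter
    (fun x => x.2.1 - x.1.1 = b₀.1 - a₀.1) := ⟨_, rfl⟩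
  have hUm : ∀ a b : Pt, (a, b) ∈ U ↔ (a ∈ A ∧ b ∈ B) ∧ b.1 - a.1 = b₀.1 - a₀.1 := by
    intro a b
    rw [hU, Finset.mem_filter, Finset.mem_product, List.mem_toFinset, List.mem_toFinset]
  obtain ⟨⟨p, q⟩, h1, hmin'⟩ := U.exists_min_image (fun x => |x.2.2 - x.1.2|)
    ⟨(a₀, b₀), (hUm a₀ b₀).2 ⟨⟨ha₀, hb₀⟩, rfl⟩⟩
  obtain ⟨⟨hp, hq⟩, hpq⟩ := (hUm p q).1 h1
  refine ⟨4 - (b₀.1 - a₀.1), p, hp, (q.1 + (4 - (b₀.1 - a₀.1)), q.2),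
    (hmem _ _).2 ⟨q, hq, rfl⟩, ?_, ?_, ?_, ?_⟩
  · show q.1 + (4 - (b₀.1 - a₀.1)) = p.1 + 4
    omega
  · show |q.2 - p.2| ≤ 4
    have := hmin' (a₀, b₀) ((hUm a₀ b₀).2 ⟨⟨ha₀, hb₀⟩, rfl⟩)
    exact le_trans this h4
  · intro a ha x hx hax
    obtain ⟨b, hb, rfl⟩ := (hmem _ _).1 hx
    have h2 : b₀.1 - a₀.1 ≤ b.1 - a.1 := hmin (a, b) ((hTm a b).2 ⟨⟨ha, hb⟩, hax⟩)
    show a.1 + 4 ≤ b.1 + (4 - (b₀.1 - a₀.1))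
    omega
  · intro a ha x hx hax
    obtain ⟨b, hb, rfl⟩ := (hmem _ _).1 hx
    have hax' : b.1 + (4 - (b₀.1 - a₀.1)) = a.1 + 4 := hax
    exact hmin' (a, b) ((hUm a b).2 ⟨⟨ha, hb⟩, by omega⟩)

end Pool.Agent.SawPoly
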