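import Pool.Agent.SawPoly.PortE
import Pool.Agent.SawPoly.Slide
import Pool.Agent.SawPoly.Asm

/-!
The joining lemma.
-/

set_option autoImplicit false

namespace Pool.Agent.SawPoly

private lemma mem_of_port {L P I : List Pt} {r : ℕ} (h : L.rotate r = P ++ I) {z : Pt}
    (hz : z ∈ P) : z ∈ L := by
  rw [← List.mem_rotate (n := r), h]
  exact List.mem_append_left _ hz

private lemma finish {A B'' : List Pt} {r r' : ℕ} {PA IA E₁ E₂ PB IB G₁ G₂ U₀ V₀ : List Pt}
    (hA : A.rotate r = PA ++ IA) (hPA : PA ≠ []) (hIA : IA.length ≤ 1) (hE₁ : E₁.length ≤ 2)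
    (hE₂ : E₂.length ≤ 2)
    (hB : B''.rotate r' = PB ++ IB) (hPB : PB ≠ []) (hIB : IB.length ≤ 1) (hG₁ : G₁.length ≤ 2)
    (hG₂ : G₂.length ≤ 2) (hU₀ : U₀ ≠ []) (hV₀ : V₀ ≠ []) (hU : U₀.length ≤ 12)
    (hV : V₀.length ≤ 12)
    (hL : Loop ((E₂ ++ PA ++ E₁) ++ U₀ ++ (G₂ ++ PB ++ G₁) ++ V₀))
    (hn : ∀ a ∈ U₀.head?, ∀ b ∈ V₀.getLast?, nb a b) :
    ∃ (r r' : ℕ) (PA IA PB IB U V : List Pt) (e f : ℕ),
      A.rotate r = PA ++ IA ∧ B''.rotate r' = PB ++ IB ∧
      PA ≠ [] ∧ PB ≠ [] ∧ IA.length ≤ 1 ∧ IB.length ≤ 1 ∧ U.length ≤ 16 ∧ V.length ≤ 16 ∧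
      e ≤ 2 ∧ f ≤ 2 ∧ e < U.length ∧ f < V.length ∧ Loop (PA ++ U ++ PB ++ V) ∧
      nb (U.getD e 0) (V.getD (V.length - 1 - f) 0) := by
  obtain ⟨a, U₁, rfl⟩ := List.exists_cons_of_ne_nil hU₀
  obtain ⟨V₁, b, rfl⟩ : ∃ V₁ b, V₀ = V₁ ++ [b] :=
    ⟨V₀.dropLast, V₀.getLast hV₀, (List.dropLast_append_getLast hV₀).symm⟩
  refine ⟨r, r', PA, IA, PB, IB, E₁ ++ (a :: U₁) ++ G₂, G₁ ++ (V₁ ++ [b]) ++ E₂, E₁.length,
    E₂.length, hA, hB, hPA, hPB, hIA, hIB, ?_, ?_, hE₁, hE₂, ?_, ?_, ?_, ?_⟩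
  · simp only [List.length_append, List.length_cons] at hU ⊢
    omega
  · simp only [List.length_append, List.length_cons, List.length_nil] at hV ⊢
    omega
  · simp only [List.length_append, List.length_cons]
    omega
  · simp only [List.length_append, List.length_cons, List.length_nil]
    omega
  · have h := hL.rotate E₂.length
    have e : ((E₂ ++ PA ++ E₁) ++ (a :: U₁) ++ (G₂ ++ PB ++ G₁) ++ (V₁ ++ [b])) =
        E₂ ++ (PA ++ E₁ ++ (a :: U₁) ++ (G₂ ++ PB ++ G₁) ++ (V₁ ++ [b])) := by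
      simp only [List.append_assoc]
    rw [e, List.rotate_append_length_eq] at h
    have e2 : PA ++ (E₁ ++ (a :: U₁) ++ G₂) ++ PB ++ (G₁ ++ (V₁ ++ [b]) ++ E₂) =
        (PA ++ E₁ ++ (a :: U₁) ++ (G₂ ++ PB ++ G₁) ++ (V₁ ++ [b])) ++ E₂ := by
      simp only [List.append_assoc]
    rw [e2]
    exact h
  · have h1 : (E₁ ++ (a :: U₁) ++ G₂).getD E₁.length 0 = a := by
      rw [List.append_assoc, List.getD_append_right _ _ _ _ le_rfl]
      simp
    have h2 : (G₁ ++ (V₁ ++ [b]) ++ E₂).getD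
        ((G₁ ++ (V₁ ++ [b]) ++ E₂).length - 1 - E₂.length) 0 = b := by
      have h3 : (G₁ ++ (V₁ ++ [b]) ++ E₂).length - 1 - E₂.length = (G₁ ++ V₁).length := by
        simp only [List.length_append, List.length_cons, List.length_nil]
        omega
      have h4 : G₁ ++ (V₁ ++ [b]) ++ E₂ = (G₁ ++ V₁) ++ (b :: E₂) := by
        simp only [List.append_assoc, List.singleton_append]
      rw [h3, h4, List.getD_append_right _ _ _ _ le_rfl]
      simp
    rw [h1, h2]
    exact hn a (by simp) b (by simp)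

/-- `Port` in one of the two directions -/
private lemma orient {L : List Pt} {F : Pt → Prop} {a b : Pt} (h : Port L F a b ∨ Port L F b a) :
    ∃ rev : Bool, Port (if rev then L.reverse else L) F a b := by
  rcases h with h | h
  · exact ⟨false, by simpa using h⟩
  · exact ⟨true, by simpa using h.reverse⟩

private lemma core {A B : List Pt} {F₁ F₂ : Pt → Prop} (x yA yB : ℤ) (h8 : |yB - yA| ≤ 8)
    (hA : Port A F₁ (x, yA) (x, yA + 1) ∨ Port A F₁ (x, yA + 1) (x, yA))
    (hB : Port B F₂ (x + 4, yB) (x + 4, yB + 1) ∨ Port B F₂ (x + 4, yB + 1) (x + 4, yB))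
    (hAB : ∀ z ∈ A, z ∉ B) (h1B : ∀ z, F₁ z → z ∉ B) (h2A : ∀ z, F₂ z → z ∉ A)
    (h12 : ∀ z, F₁ z → ¬ F₂ z)
    (hfree : ∀ z : Pt, x + 1 ≤ z.1 → z.1 ≤ x + 3 → min yA yB ≤ z.2 → z.2 ≤ max yA yB + 1 →
      z ∉ A ∧ z ∉ B ∧ ¬ F₁ z ∧ ¬ F₂ z) :
    ∃ (rev : Bool) (r r' : ℕ) (PA IA PB IB U V : List Pt) (e f : ℕ),
      A.rotate r = PA ++ IA ∧ (if rev then B.reverse else B).rotate r' = PB ++ IB ∧
      PA ≠ [] ∧ PB ≠ [] ∧ IA.length ≤ 1 ∧ IB.length ≤ 1 ∧ U.length ≤ 16 ∧ V.length ≤ 16 ∧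
      e ≤ 2 ∧ f ≤ 2 ∧ e < U.length ∧ f < V.length ∧ Loop (PA ++ U ++ PB ++ V) ∧
      nb (U.getD e 0) (V.getD (V.length - 1 - f) 0) := by
  have key : ∀ {r r' : ℕ} {PA IA E₁ E₂ PB IB G₁ G₂ : List Pt} {B'' : List Pt},
      (∀ z, z ∈ B'' ↔ z ∈ B) →
      A.rotate r = PA ++ IA → B''.rotate r' = PB ++ IB →
      (∀ z ∈ E₁ ++ E₂, z ∉ A ∧ F₁ z) → (∀ z ∈ G₁ ++ G₂, z ∉ B'' ∧ F₂ z) →
      (∀ z ∈ E₂ ++ PA ++ E₁, z ∉ G₂ ++ PB ++ G₁) ∧
      (∀ z : Pt, x + 1 ≤ z.1 → z.1 ≤ x + 3 → min yA yB ≤ z.2 → z.2 ≤ max yA yB + 1 →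
        z ∉ E₂ ++ PA ++ E₁ ∧ z ∉ G₂ ++ PB ++ G₁) := by
    intro r r' PA IA E₁ E₂ PB IB G₁ G₂ B'' hBB hrA hrB hE hG
    have hPA : ∀ z ∈ E₂ ++ PA ++ E₁, z ∈ A ∨ (z ∉ A ∧ F₁ z) := by
      intro z hz
      simp only [List.mem_append] at hz
      rcases hz with (hz | hz) | hz
      · exact Or.inr (hE z (List.mem_append_right _ hz))
      · exact Or.inl (mem_of_port hrA hz)
      · exact Or.inr (hE z (List.mem_append_left _ hz))
    have hPB : ∀ z ∈ G₂ ++ PB ++ G₁, z ∈ B ∨ (z ∉ B ∧ F₂ z) := by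
      intro z hz
      simp only [List.mem_append] at hz
      rcases hz with (hz | hz) | hz
      · have := hG z (List.mem_append_right _ hz)
        rw [hBB] at this
        exact Or.inr this
      · exact Or.inl ((hBB z).1 (mem_of_port hrB hz))
      · have := hG z (List.mem_append_left _ hz)
        rw [hBB] at this
        exact Or.inr this
    refine ⟨fun z hz hz' => ?_, fun z a1 a2 a3 a4 => ⟨fun hz => ?_, fun hz => ?_⟩⟩
    · rcases hPA z hz with h | ⟨h, h'⟩ <;> rcases hPB z hz' with g | ⟨g, g'⟩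
      · exact hAB z h g
      · exact h2A z g' h
      · exact h1B z h' g
      · exact h12 z h' g'
    · obtain ⟨f1, f2, f3, f4⟩ := hfree z a1 a2 a3 a4
      rcases hPA z hz with h | ⟨h, h'⟩
      · exact f1 h
      · exact f3 h'
    · obtain ⟨f1, f2, f3, f4⟩ := hfree z a1 a2 a3 a4
      rcases hPB z hz with h | ⟨h, h'⟩
      · exact f2 h
      · exact f4 h'
  rcases hA with hA | hA
  · obtain ⟨rev, hB'⟩ := orient (hB.symm)
    obtain ⟨r, PA, IA, E₁, E₂, a1, a2, a3, a4, a5, a6, a7, a8, a9, a10⟩ := hA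
    obtain ⟨r', PB, IB, G₁, G₂, b1, b2, b3, b4, b5, b6, b7, b8, b9, b10⟩ := hB'
    have hBB : ∀ z, z ∈ (if rev then B.reverse else B) ↔ z ∈ B := by
      intro z; cases rev <;> simp
    obtain ⟨k1, k2⟩ := key hBB a1 b1 a6 b6
    obtain ⟨U, V, c1, c2, c3, c4, c5, c6⟩ := assemble x yA yB h8 _ _ a7 a8 a9 a10 b7 b8 b9 b10 k1 k2
    exact ⟨rev, finish a1 a2 a3 a4 a5 b1 b2 b3 b4 b5 c1 c2 c3 c4 c5 c6⟩
  · obtain ⟨rev, hB'⟩ := orient hB
    obtain ⟨r, PA, IA, E₁, E₂, a1, a2, a3, a4, a5, a6, a7, a8, a9, a10⟩ := hA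
    obtain ⟨r', PB, IB, G₁, G₂, b1, b2, b3, b4, b5, b6, b7, b8, b9, b10⟩ := hB'
    have hBB : ∀ z, z ∈ (if rev then B.reverse else B) ↔ z ∈ B := by
      intro z; cases rev <;> simp
    obtain ⟨k1, k2⟩ := key hBB a1 b1 a6 b6
    obtain ⟨U, V, c1, c2, c3, c4, c5, c6⟩ := assemble' x yA yB h8 _ _ a7 a8 a9 a10 b7 b8 b9 b10 k1 k2
    exact ⟨rev, finish a1 a2 a3 a4 a5 b1 b2 b3 b4 b5 c1 c2 c3 c4 c5 c6⟩

/-- **The joining lemma.** Two polygons with a common row are joined, after a horizontal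
translation of the second one. -/
theorem join_geom (A B : List Pt) (hA : Loop A) (hB : Loop B) (h4 : 4 ≤ A.length)
    (h4' : 4 ≤ B.length) (hrow : ∃ a ∈ A, ∃ b ∈ B, a.2 = b.2) :
    ∃ (s : ℤ) (r r' : ℕ) (rev : Bool) (PA IA PB IB U V : List Pt) (e f : ℕ),
      A.rotate r = PA ++ IA ∧
      (if rev then (mv (s, 0) B).reverse else mv (s, 0) B).rotate r' = PB ++ IB ∧
      PA ≠ [] ∧ PB ≠ [] ∧ IA.length ≤ 1 ∧ IB.length ≤ 1 ∧ U.length ≤ 16 ∧ V.length ≤ 16 ∧
      e ≤ 2 ∧ f ≤ 2 ∧ e < U.length ∧ f < V.length ∧ Loop (PA ++ U ++ PB ++ V) ∧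
      nb (U.getD e 0) (V.getD (V.length - 1 - f) 0) := by
  obtain ⟨s, p, hp, q, hq, hx, hd, hmin, hmin2⟩ := slide A B hrow
  have hB1 : Loop (mv (s, 0) B) := hB.mv _
  have h4B : 4 ≤ (mv (s, 0) B).length := by rw [length_mv]; exact h4'
  set B₁ := mv (s, 0) B with hB₁
  obtain ⟨px, py⟩ := p
  obtain ⟨qx, qy⟩ := q
  simp only at hx hd hmin2
  subst hx
  have hAB : ∀ z ∈ A, z ∉ B₁ := by
    intro z hz hz'
    have := hmin z hz z hz' (by simp)
    omega
  -- sites of `A` near the row of `q`, sites of `B₁` near the row of `p`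
  have hAr : ∀ z ∈ A, |qy - z.2| ≤ 4 → z.1 ≤ px := by
    intro z hz h
    have := hmin z hz _ hq h
    simp only at this
    omega
  have hBr : ∀ z ∈ B₁, |z.2 - py| ≤ 4 → px + 4 ≤ z.1 := by
    intro z hz h
    exact hmin _ hp z hz h
  suffices H : ∃ (rev : Bool) (r r' : ℕ) (PA IA PB IB U V : List Pt) (e f : ℕ),
      A.rotate r = PA ++ IA ∧ (if rev then B₁.reverse else B₁).rotate r' = PB ++ IB ∧
      PA ≠ [] ∧ PB ≠ [] ∧ IA.length ≤ 1 ∧ IB.length ≤ 1 ∧ U.length ≤ 16 ∧ V.length ≤ 16 ∧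
      e ≤ 2 ∧ f ≤ 2 ∧ e < U.length ∧ f < V.length ∧ Loop (PA ++ U ++ PB ++ V) ∧
      nb (U.getD e 0) (V.getD (V.length - 1 - f) 0) by
    obtain ⟨rev, r, r', PA, IA, PB, IB, U, V, e, f, hh⟩ := H
    exact ⟨s, r, r', rev, PA, IA, PB, IB, U, V, e, f, hh⟩
  rcases lt_or_ge (|qy - py|) 4 with hlt | hge
  · -- direct case
    rw [abs_lt] at hlt
    obtain ⟨yA, hyA, hPA⟩ := port_direct hA h4 hp 1 (Or.inl rfl) (by
      intro h
      have := hAr _ h (by simp only; rw [abs_le]; constructor <;> omega)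
      simp only at this
      omega)
    obtain ⟨yB, hyB, hPB⟩ := port_direct hB1 h4B hq (-1) (Or.inr rfl) (by
      intro h
      have := hBr _ h (by simp only; rw [abs_le]; constructor <;> omega)
      simp only at this
      omega)
    simp only at hyA hyB
    refine core px yA yB ?_ hPA hPB hAB (fun _ h => h.elim) (fun _ h => h.elim)
      (fun _ h => h.elim) ?_
    · rw [abs_le]; constructor <;> omega
    · rintro ⟨zx, zy⟩ a1 a2 a3 a4
      simp only at a1 a2 a3 a4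
      refine ⟨fun h => ?_, fun h => ?_, fun h => h, fun h => h⟩
      · have := hAr _ h (by simp only; rw [abs_le]; constructor <;> omega)
        simp only at this
        omega
      · have := hBr _ h (by simp only; rw [abs_le]; constructor <;> omega)
        simp only at this
        omega
  · -- extreme case
    obtain ⟨σ, hσ, hqy⟩ : ∃ σ : ℤ, (σ = 1 ∨ σ = -1) ∧ qy = py + 4 * σ := by
      rcases abs_cases (qy - py) with ⟨h1, h2⟩ | ⟨h1, h2⟩
      · exact ⟨1, Or.inl rfl, by omega⟩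
      · exact ⟨-1, Or.inr rfl, by omega⟩
    subst hqy
    have hmin3 : ∀ a ∈ A, ∀ b ∈ B₁, b.1 = a.1 + 4 → 4 ≤ |b.2 - a.2| := by
      intro a ha b hb h
      exact hge.trans (hmin2 a ha b hb h)
    obtain ⟨z, hz, hPA⟩ := port_extreme hA h4 hp 1 σ (Or.inl rfl) hσ
      (by
        intro h
        have := hAr _ h (by simp only [loc]; rcases hσ with rfl | rfl <;> norm_num)
        simp only [loc] at this
        omega)
      (by
        intro h
        have := hmin3 _ h _ hq (by simp only [loc]; ring)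
        simp only [loc] at this
        rcases hσ with rfl | rfl
        · rw [show py + 4 * 1 - (py + 1 * 1) = 3 by ring] at this; norm_num at this
        · rw [show py + 4 * (-1) - (py + (-1) * 1) = -3 by ring] at this; norm_num at this)
      (by
        intro h
        have := hmin3 _ h _ hq (by simp only [loc]; ring)
        simp only [loc] at this
        rcases hσ with rfl | rfl
        · rw [show py + 4 * 1 - (py + 1 * 2) = 2 by ring] at this; norm_num at this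
        · rw [show py + 4 * (-1) - (py + (-1) * 2) = -2 by ring] at this; norm_num at this)
    obtain ⟨z', hz', hPB⟩ := port_extreme hB1 h4B hq (-1) (-σ) (Or.inr rfl) (by
        rcases hσ with rfl | rfl
        · exact Or.inr rfl
        · exact Or.inl (by norm_num))
      (by
        intro h
        have := hBr _ h (by simp only [loc]; rcases hσ with rfl | rfl <;> norm_num)
        simp only [loc] at this
        omega)
      (by
        intro h
        have := hmin3 _ hp _ h (by simp only [loc]; ring)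
        simp only [loc] at this
        rcases hσ with rfl | rfl
        · rw [show py + 4 * 1 + -1 * 1 - py = 3 by ring] at this; norm_num at this
        · rw [show py + 4 * (-1) + - -1 * 1 - py = -3 by ring] at this; norm_num at this)
      (by
        intro h
        have := hmin3 _ hp _ h (by simp only [loc]; ring)
        simp only [loc] at this
        rcases hσ with rfl | rfl
        · rw [show py + 4 * 1 + -1 * 2 - py = 2 by ring] at this; norm_num at this
        · rw [show py + 4 * (-1) + - -1 * 2 - py = -2 by ring] at this; norm_num at this)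
    simp only [loc] at hPA hPB
    have hF1 : ∀ w : Pt, (w = (px + 1 * -1, py + σ * 1) ∨ w = (px + 1 * 0, py + σ * 1) ∨
        w = (px + 1 * 0, py + σ * 2)) → w.1 ≤ px ∧ |w.2 - py| ≤ 4 := by
      rintro w (rfl | rfl | rfl) <;> rcases hσ with rfl | rfl <;> simp
    have hF2 : ∀ w : Pt, (w = (px + 4 + -1 * -1, py + 4 * σ + -σ * 1) ∨
        w = (px + 4 + -1 * 0, py + 4 * σ + -σ * 1) ∨
        w = (px + 4 + -1 * 0, py + 4 * σ + -σ * 2)) → px + 4 ≤ w.1 ∧ |py + 4 * σ - w.2| ≤ 4 := by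
      rintro w (rfl | rfl | rfl) <;> rcases hσ with rfl | rfl <;> simp
    have c1 : ∀ w : Pt, (w = (px + 1 * -1, py + σ * 1) ∨ w = (px + 1 * 0, py + σ * 1) ∨
        w = (px + 1 * 0, py + σ * 2)) → w ∉ B₁ := by
      intro w hw hw'
      obtain ⟨g1, g2⟩ := hF1 w hw
      have := hBr w hw' g2
      omega
    have c2 : ∀ w : Pt, (w = (px + 4 + -1 * -1, py + 4 * σ + -σ * 1) ∨
        w = (px + 4 + -1 * 0, py + 4 * σ + -σ * 1) ∨
        w = (px + 4 + -1 * 0, py + 4 * σ + -σ * 2)) → w ∉ A := by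
      intro w hw hw'
      obtain ⟨g1, g2⟩ := hF2 w hw
      have := hAr w hw' g2
      omega
    have c3 : ∀ w : Pt, (w = (px + 1 * -1, py + σ * 1) ∨ w = (px + 1 * 0, py + σ * 1) ∨
        w = (px + 1 * 0, py + σ * 2)) → ¬ (w = (px + 4 + -1 * -1, py + 4 * σ + -σ * 1) ∨
        w = (px + 4 + -1 * 0, py + 4 * σ + -σ * 1) ∨
        w = (px + 4 + -1 * 0, py + 4 * σ + -σ * 2)) := by
      intro w hw hw'
      have g1 := (hF1 w hw).1
      have g2 := (hF2 w hw').1
      omega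
    have hx0 : px + 1 * 0 = px := by ring
    have hx4 : px + 4 + -1 * 0 = px + 4 := by ring
    rw [hx0] at hPA
    rw [hx4] at hPB
    have main : ∀ yA yB : ℤ, min (py + σ * z) (py + σ * (z + 1)) = yA →
        max (py + σ * z) (py + σ * (z + 1)) = yA + 1 →
        min (py + 4 * σ + -σ * z') (py + 4 * σ + -σ * (z' + 1)) = yB →
        max (py + 4 * σ + -σ * z') (py + 4 * σ + -σ * (z' + 1)) = yB + 1 → 
        (∀ y, min yA yB ≤ y → y ≤ max yA yB + 1 → |py + 4 * σ - y| ≤ 4 ∧ |y - py| ≤ 4) →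
        |yB - yA| ≤ 8 →
        ∃ (rev : Bool) (r r' : ℕ) (PA IA PB IB U V : List Pt) (e f : ℕ),
          A.rotate r = PA ++ IA ∧ (if rev then B₁.reverse else B₁).rotate r' = PB ++ IB ∧
          PA ≠ [] ∧ PB ≠ [] ∧ IA.length ≤ 1 ∧ IB.length ≤ 1 ∧ U.length ≤ 16 ∧ V.length ≤ 16 ∧
          e ≤ 2 ∧ f ≤ 2 ∧ e < U.length ∧ f < V.length ∧ Loop (PA ++ U ++ PB ++ V) ∧
          nb (U.getD e 0) (V.getD (V.length - 1 - f) 0) := by
      intro yA yB m1 m2 m3 m4 m5 m6
      refine core px yA yB m6 ?_ ?_ hAB c1 c2 c3 ?_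
      · rcases le_total (py + σ * z) (py + σ * (z + 1)) with h | h
        · rw [min_eq_left h] at m1
          rw [max_eq_right h] at m2
          rw [m1, m2] at hPA
          simpa only [hx0] using hPA
        · rw [min_eq_right h] at m1
          rw [max_eq_left h] at m2
          rw [m1, m2] at hPA
          simpa only [hx0] using hPA.symm
      · rcases le_total (py + 4 * σ + -σ * z') (py + 4 * σ + -σ * (z' + 1)) with h | h
        · rw [min_eq_left h] at m3
          rw [max_eq_right h] at m4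
          rw [m3, m4] at hPB
          simpa only [hx4] using hPB
        · rw [min_eq_right h] at m3
          rw [max_eq_left h] at m4
          rw [m3, m4] at hPB
          simpa only [hx4] using hPB.symm
      · rintro w a1 a2 a3 a4
        obtain ⟨n1, n2⟩ := m5 w.2 a3 a4
        refine ⟨fun h => ?_, fun h => ?_, fun h => ?_, fun h => ?_⟩
        · have := hAr w h n1
          omega
        · have := hBr w h n2
          omega
        · have := (hF1 w h).1
          omega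
        · have := (hF2 w h).1
          omega
    rcases hσ with rfl | rfl
    · refine main (py + z) (py + 4 - z' - 1) ?_ ?_ ?_ ?_ ?_ ?_
      · rw [min_eq_left (by omega)]; ring
      · rw [max_eq_right (by omega)]; ring
      · rw [min_eq_right (by omega)]; ring
      · rw [max_eq_left (by omega)]; ring
      · intro y h1 h2
        rw [abs_le, abs_le]
        omega
      · rw [abs_le]; omega
    · refine main (py - z - 1) (py - 4 + z') ?_ ?_ ?_ ?_ ?_ ?_
      · rw [min_eq_right (by omega)]; ring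
      · rw [max_eq_left (by omega)]; ring
      · rw [min_eq_left (by omega)]; ring
      · rw [max_eq_right (by omega)]; ring
      · intro y h1 h2
        rw [abs_le, abs_le]
        omega
      · rw [abs_le]; omega

end Pool.Agent.SawPoly
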