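import Pool.Agent.SawPoly.Main1
import Pool.Agent.SawPoly.Far
import Pool.Agent.SawPoly.Reg
import Pool.Agent.SawPoly.Ana

/-!
The main inequality for the normalised numbers of polygons.
-/

set_option autoImplicit false

open Pool.Agent.SawLim Pool.Agent.SawKes Pool.Agent.SawMrg Pool.Agent.SawClose

namespace Pool.Agent.SawPoly

/-- normalised number of rooted polygons with `n + 1` sites -/
noncomputable def r (n : ℕ) : ℝ := ((PG n).card : ℝ) / mu ^ n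

lemma Ineq_r_nonneg (n : ℕ) : 0 ≤ r n :=
  div_nonneg (Nat.cast_nonneg _) (pow_nonneg mu_pos.le _)

lemma Ineq_card (n : ℕ) : ((PG n).card : ℝ) = mu ^ n * r n := by
  unfold r
  rw [mul_div_cancel₀ _ (pow_ne_zero n mu_pos.ne')]

lemma Ineq_step : ∃ n₀ : ℕ, ∀ n : ℕ, n₀ ≤ n → Odd n → r (n + 2) ≤ 2 * r n := by
  obtain ⟨C, hC, n₀, h⟩ := PG_ratio (1 / 4) (by norm_num) (by norm_num)
  have hev : ∀ᶠ n : ℕ in Filter.atTop, C * (n : ℝ) ^ (1 / 4 - 1 / 2 : ℝ) ≤ 1 := by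
    have h1 : Filter.Tendsto (fun n : ℕ => C * (n : ℝ) ^ (1 / 4 - 1 / 2 : ℝ)) Filter.atTop
        (nhds (C * 0)) := by
      refine Filter.Tendsto.const_mul C ?_
      have h2 := (tendsto_rpow_neg_atTop (show (0 : ℝ) < 1 / 4 by norm_num)).comp
        (tendsto_natCast_atTop_atTop (R := ℝ))
      refine h2.congr fun n => ?_
      rw [Function.comp_apply]
      congr 1
      norm_num
    rw [mul_zero] at h1
    exact (h1.eventually_lt_const (by norm_num : (0 : ℝ) < 1)).mono fun n hn => hn.le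
  obtain ⟨n₁, hn₁⟩ := Filter.eventually_atTop.1 hev
  refine ⟨max n₀ n₁, fun n hn ho => ?_⟩
  have h1 := h n ((le_max_left _ _).trans hn) ho
  have h2 := hn₁ n ((le_max_right _ _).trans hn)
  have hmu := mu_pos
  rw [Ineq_card, Ineq_card] at h1
  have h3 : 0 ≤ mu ^ 2 * (mu ^ n * r n) := by
    have := Ineq_r_nonneg n
    positivity
  have h4 := (abs_le.1 h1).2
  have h5 : C * (n : ℝ) ^ (1 / 4 - 1 / 2 : ℝ) * (mu ^ 2 * (mu ^ n * r n)) ≤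
      1 * (mu ^ 2 * (mu ^ n * r n)) := mul_le_mul_of_nonneg_right h2 h3
  have h6 : mu ^ (n + 2) * r (n + 2) ≤ mu ^ (n + 2) * (2 * r n) := by
    have h7 : mu ^ (n + 2) * (2 * r n) = 2 * (mu ^ 2 * (mu ^ n * r n)) := by ring
    rw [h7]
    linarith
  exact le_of_mul_le_mul_left h6 (pow_pos hmu _)

lemma Ineq_iter : ∃ n₀ : ℕ, ∀ n : ℕ, n₀ ≤ n → Odd n → ∀ j : ℕ, r (n + 2 * j) ≤ 2 ^ j * r n := by
  obtain ⟨n₀, h⟩ := Ineq_step
  refine ⟨n₀, fun n hn ho j => ?_⟩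
  induction j with
  | zero => simp
  | succ j ih =>
    have h1 := h (n + 2 * j) (by omega) (ho.add_even (even_two_mul j))
    have h2 : n + 2 * (j + 1) = n + 2 * j + 2 := by ring
    rw [h2, pow_succ]
    linarith

/-- Divide `joining_sqrt` by `mu ^ N₀`; `sum_far` for `N` in `[N₀+1, N₀+40]`, `L = N₀/4`; `r N ≤ 2^20 r (N₀+1)`
by `PG_ratio` (and `PG_even`), `exp (-N^(ε/2)) ≤ r (N₀+1)` by `PG_lower (ε/4)`. -/
theorem main_ineq (ε : ℝ) (hε : 0 < ε) (hε1 : ε ≤ 1) : ∃ C : ℝ, 1 ≤ C ∧ ∃ n₀ : ℕ, ∀ N₀ : ℕ,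
    n₀ ≤ N₀ → Even N₀ →
    ∑ n ∈ (Finset.range N₀).filter (fun n => Odd n ∧ N₀ ≤ 4 * n ∧ 4 * n ≤ 3 * N₀),
      r n * r (N₀ - n) ≤ C * (N₀ : ℝ) ^ (1 / 2 + ε) * r (N₀ + 1) := by
  obtain ⟨C, hC, hfar⟩ := sum_far ε hε hε1
  obtain ⟨n₁, hlow⟩ := PG_lower (ε / 4) (by positivity)
  obtain ⟨n₂, hiter⟩ := Ineq_iter
  have hmu1 : 1 ≤ mu := one_le_mu
  have hmu := mu_pos
  set D : ℝ := mu ^ 40 * (C * (2 ^ 21 + 1)) with hD
  refine ⟨max 1 (10 ^ 9 * 40 * D), le_max_left _ _, max (max n₁ n₂) 50, ?_⟩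
  intro N₀ hN₀ hev
  have h50 : 50 ≤ N₀ := (le_max_right _ _).trans hN₀
  have hN₁ : n₁ ≤ N₀ := ((le_max_left _ _).trans (le_max_left _ _)).trans hN₀
  have hN₂ : n₂ ≤ N₀ := ((le_max_right _ _).trans (le_max_left _ _)).trans hN₀
  have hodd : Odd (N₀ + 1) := hev.add_one
  have hr0 : 0 ≤ r (N₀ + 1) := Ineq_r_nonneg _
  have hNR : (50 : ℝ) ≤ N₀ := by exact_mod_cast h50
  have hN0 : (0 : ℝ) < N₀ := by linarith
  have hNε1 : 1 ≤ (N₀ : ℝ) ^ ε := Real.one_le_rpow (by linarith) hε.le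
  -- lower bound for `r (N₀ + 1)`
  have hlow' : Real.exp (-(((N₀ + 1 : ℕ) : ℝ) ^ (ε / 4))) ≤ r (N₀ + 1) := by
    have h1 := hlow (N₀ + 1) (by omega) hodd
    rw [Ineq_card] at h1
    exact le_of_mul_le_mul_left h1 (pow_pos hmu _)
  -- one value of `N`
  have hone : ∀ N ∈ Finset.Icc (N₀ + 1) (N₀ + 40), ∑ σ ∈ PG N, ((far N (N₀ / 4) σ).card : ℝ) ≤
      mu ^ N₀ * (D * ((N₀ : ℝ) ^ ε * r (N₀ + 1))) := by
    intro N hN
    rw [Finset.mem_Icc] at hN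
    have h1 := hfar N (N₀ / 4) (by omega) (by omega) (by omega) (by omega)
    have hNN : ((N₀ + 1 : ℕ) : ℝ) ≤ N := by exact_mod_cast hN.1
    have hN1 : (1 : ℝ) ≤ ((N₀ + 1 : ℕ) : ℝ) := by
      push_cast
      linarith
    have hN2 : (N : ℝ) ≤ 2 * N₀ := by
      have : N ≤ 2 * N₀ := by omega
      exact_mod_cast this
    -- `r N`
    have hrN : r N ≤ 2 ^ 20 * r (N₀ + 1) := by
      rcases Nat.even_or_odd N with he | ho
      · have h2 : r N = 0 := by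
          unfold r
          rw [PG_even he, Finset.card_empty, Nat.cast_zero, zero_div]
        rw [h2]
        positivity
      · obtain ⟨j, hj⟩ : ∃ j, N = N₀ + 1 + 2 * j := by
          obtain ⟨a, ha⟩ := ho
          obtain ⟨b, hb⟩ := hodd
          exact ⟨a - b, by omega⟩
        have h2 := hiter (N₀ + 1) (by omega) hodd j
        rw [← hj] at h2
        refine h2.trans (mul_le_mul_of_nonneg_right ?_ hr0)
        exact pow_le_pow_right₀ (by norm_num) (by omega)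
    -- the exponential
    have hexp : Real.exp (-((N : ℝ) ^ (ε / 2))) ≤ r (N₀ + 1) := by
      refine le_trans ?_ hlow'
      rw [Real.exp_le_exp, neg_le_neg_iff]
      calc ((N₀ + 1 : ℕ) : ℝ) ^ (ε / 4) ≤ ((N₀ + 1 : ℕ) : ℝ) ^ (ε / 2) :=
            Real.rpow_le_rpow_of_exponent_le hN1 (by linarith)
        _ ≤ (N : ℝ) ^ (ε / 2) := Real.rpow_le_rpow (by positivity) hNN (by positivity)
    have hpow : (N : ℝ) ^ ε ≤ 2 * (N₀ : ℝ) ^ ε := by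
      calc (N : ℝ) ^ ε ≤ (2 * N₀ : ℝ) ^ ε := Real.rpow_le_rpow (by positivity) hN2 hε.le
        _ = 2 ^ ε * (N₀ : ℝ) ^ ε := Real.mul_rpow (by norm_num) hN0.le
        _ ≤ 2 * (N₀ : ℝ) ^ ε := by
            refine mul_le_mul_of_nonneg_right ?_ (by positivity)
            calc (2 : ℝ) ^ ε ≤ 2 ^ (1 : ℝ) := Real.rpow_le_rpow_of_exponent_le (by norm_num) hε1
              _ = 2 := Real.rpow_one 2
    have hmuN : mu ^ N ≤ mu ^ N₀ * mu ^ 40 := by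
      rw [← pow_add]
      exact pow_le_pow_right₀ hmu1 hN.2
    have hb1 : (N : ℝ) ^ ε * r N ≤ 2 ^ 21 * ((N₀ : ℝ) ^ ε * r (N₀ + 1)) := by
      calc (N : ℝ) ^ ε * r N ≤ (2 * (N₀ : ℝ) ^ ε) * (2 ^ 20 * r (N₀ + 1)) :=
            mul_le_mul hpow hrN (Ineq_r_nonneg _) (by positivity)
        _ = 2 ^ 21 * ((N₀ : ℝ) ^ ε * r (N₀ + 1)) := by ring
    have hb2 : Real.exp (-((N : ℝ) ^ (ε / 2))) ≤ (N₀ : ℝ) ^ ε * r (N₀ + 1) := by
      refine hexp.trans ?_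
      calc r (N₀ + 1) = 1 * r (N₀ + 1) := (one_mul _).symm
        _ ≤ (N₀ : ℝ) ^ ε * r (N₀ + 1) := mul_le_mul_of_nonneg_right hNε1 hr0
    have hX : 0 ≤ (N₀ : ℝ) ^ ε * r (N₀ + 1) := by positivity
    calc ∑ σ ∈ PG N, ((far N (N₀ / 4) σ).card : ℝ)
        ≤ C * (N : ℝ) ^ ε * (PG N).card + C * (mu ^ N * Real.exp (-((N : ℝ) ^ (ε / 2)))) := h1
      _ = mu ^ N * (C * ((N : ℝ) ^ ε * r N) + C * Real.exp (-((N : ℝ) ^ (ε / 2)))) := by
          rw [Ineq_card]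
          ring
      _ ≤ mu ^ N * (C * (2 ^ 21 * ((N₀ : ℝ) ^ ε * r (N₀ + 1))) +
            C * ((N₀ : ℝ) ^ ε * r (N₀ + 1))) := by
          refine mul_le_mul_of_nonneg_left ?_ (pow_nonneg hmu.le _)
          exact add_le_add (mul_le_mul_of_nonneg_left hb1 hC.le)
            (mul_le_mul_of_nonneg_left hb2 hC.le)
      _ ≤ (mu ^ N₀ * mu ^ 40) * (C * (2 ^ 21 * ((N₀ : ℝ) ^ ε * r (N₀ + 1))) +
            C * ((N₀ : ℝ) ^ ε * r (N₀ + 1))) := by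
          refine mul_le_mul_of_nonneg_right hmuN (by positivity)
      _ = mu ^ N₀ * (D * ((N₀ : ℝ) ^ ε * r (N₀ + 1))) := by
          rw [hD]
          ring
  have hsum : ∑ N ∈ Finset.Icc (N₀ + 1) (N₀ + 40), ∑ σ ∈ PG N, ((far N (N₀ / 4) σ).card : ℝ) ≤
      40 * (mu ^ N₀ * (D * ((N₀ : ℝ) ^ ε * r (N₀ + 1)))) := by
    refine (Finset.sum_le_sum hone).trans ?_
    rw [Finset.sum_const, Nat.card_Icc, nsmul_eq_mul]
    have : N₀ + 40 + 1 - (N₀ + 1) = 40 := by omega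
    rw [this]
    norm_num
  have hj := joining_sqrt N₀ (by omega)
  have hprod : ∑ n ∈ (Finset.range N₀).filter (fun n => Odd n ∧ N₀ ≤ 4 * n ∧ 4 * n ≤ 3 * N₀),
      ((PG n).card : ℝ) * (PG (N₀ - n)).card =
      mu ^ N₀ * ∑ n ∈ (Finset.range N₀).filter (fun n => Odd n ∧ N₀ ≤ 4 * n ∧ 4 * n ≤ 3 * N₀),
        r n * r (N₀ - n) := by
    rw [Finset.mul_sum]
    refine Finset.sum_congr rfl fun n hn => ?_
    have hn1 : n < N₀ := Finset.mem_range.1 (Finset.mem_filter.1 hn).1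
    have hpw : mu ^ N₀ = mu ^ n * mu ^ (N₀ - n) := by
      rw [← pow_add]
      congr 1
      omega
    rw [Ineq_card, Ineq_card, hpw]
    ring
  rw [hprod] at hj
  set S : ℝ := ∑ n ∈ (Finset.range N₀).filter (fun n => Odd n ∧ N₀ ≤ 4 * n ∧ 4 * n ≤ 3 * N₀),
        r n * r (N₀ - n) with hS
  have hsq : Real.sqrt N₀ * Real.sqrt N₀ = N₀ := Real.mul_self_sqrt hN0.le
  have hsqpos : 0 < Real.sqrt N₀ := Real.sqrt_pos.2 hN0
  have h1 : Real.sqrt N₀ * (mu ^ N₀ * S) ≤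
      10 ^ 9 * N₀ * (40 * (mu ^ N₀ * (D * ((N₀ : ℝ) ^ ε * r (N₀ + 1))))) :=
    hj.trans (mul_le_mul_of_nonneg_left hsum (by positivity))
  have h2 : (Real.sqrt N₀ * mu ^ N₀) * S ≤ (Real.sqrt N₀ * mu ^ N₀) *
      (10 ^ 9 * 40 * D * (Real.sqrt N₀ * (N₀ : ℝ) ^ ε) * r (N₀ + 1)) := by
    calc (Real.sqrt N₀ * mu ^ N₀) * S = Real.sqrt N₀ * (mu ^ N₀ * S) := by ring
      _ ≤ 10 ^ 9 * N₀ * (40 * (mu ^ N₀ * (D * ((N₀ : ℝ) ^ ε * r (N₀ + 1))))) := h1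
      _ = 10 ^ 9 * (Real.sqrt N₀ * Real.sqrt N₀) *
            (40 * (mu ^ N₀ * (D * ((N₀ : ℝ) ^ ε * r (N₀ + 1))))) := by rw [hsq]
      _ = _ := by ring
  have h3 := le_of_mul_le_mul_left h2 (by positivity)
  refine h3.trans ?_
  have h4 : Real.sqrt N₀ * (N₀ : ℝ) ^ ε = (N₀ : ℝ) ^ (1 / 2 + ε) := by
    rw [Real.sqrt_eq_rpow, Real.rpow_add hN0]
  rw [h4]
  refine mul_le_mul_of_nonneg_right ?_ hr0
  exact mul_le_mul_of_nonneg_right (le_max_right _ _) (by positivity)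

end Pool.Agent.SawPoly
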