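import Pool.Agent.SawPoly.PG

/-!
Averaging over the rotations of a polygon.
-/

set_option autoImplicit false

namespace Pool.Agent.SawPoly

private lemma ra_getD_mv (v : Pt) (L : List Pt) (k : ℕ) (hk : k < L.length) :
    (mv v L).getD k 0 = L.getD k 0 + v := by
  unfold mv
  rw [List.getD_eq_getElem _ _ (by simpa using hk), List.getD_eq_getElem _ _ hk, List.getElem_map]

private lemma ra_getD_rot (L : List Pt) (m k : ℕ) (hk : k < L.length) :
    (L.rotate m).getD k 0 = L.getD ((k + m) % L.length) 0 := by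
  have h0 : 0 < L.length := by omega
  rw [List.getD_eq_getElem _ _ (by simpa using hk), List.getElem_rotate,
    List.getD_eq_getElem _ _ (Nat.mod_lt _ h0)]

private lemma ra_nrm_rot_mem {N : ℕ} {σ : List Pt} (h : σ ∈ PG N) (m : ℕ) :
    nrm (σ.rotate m) ∈ PG N := by
  rw [mem_PG] at h ⊢
  obtain ⟨h1, h2, h3⟩ := h
  refine ⟨by rw [length_nrm, List.length_rotate, h1], head_nrm ?_, (h3.rotate m).nrm⟩
  intro h
  have := congrArg List.length h
  rw [List.length_rotate, h1] at this
  simp at this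

private lemma ra_nrm_rot_inj {N : ℕ} {σ τ : List Pt} (hσ : σ ∈ PG N) (hτ : τ ∈ PG N) (m : ℕ)
    (hm : m ≤ N + 1) (h : nrm (σ.rotate m) = nrm (τ.rotate m)) : σ = τ := by
  have key : ∀ ρ ∈ PG N, nrm ((nrm (ρ.rotate m)).rotate (N + 1 - m)) = ρ := by
    intro ρ hρ
    rw [mem_PG] at hρ
    obtain ⟨h1, h2, h3⟩ := hρ
    have : (nrm (ρ.rotate m)).rotate (N + 1 - m) = mv (-((ρ.rotate m).headD 0)) ρ := by
      unfold nrm
      rw [← mv_rotate, List.rotate_rotate]
      have : m + (N + 1 - m) = ρ.length := by omega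
      rw [this, List.rotate_length]
    rw [this, nrm_mv, nrm_eq h2]
  rw [← key σ hσ, h, key τ hτ]

/-- `σ ↦ nrm (σ.rotate j)` is injective on `PG N` -/
theorem rot_avg (N x : ℕ) : (N + 1) * (D N x).card ≤ ∑ σ ∈ PG N,
    ((Finset.range (N + 1)).filter fun j =>
      nb (σ.getD j 0) (σ.getD ((j + x) % (N + 1)) 0)).card := by
  have h1 : ∑ σ ∈ PG N, ((Finset.range (N + 1)).filter fun j =>
      nb (σ.getD j 0) (σ.getD ((j + x) % (N + 1)) 0)).card =
      ∑ j ∈ Finset.range (N + 1), ((PG N).filter fun σ =>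
        nb (σ.getD j 0) (σ.getD ((j + x) % (N + 1)) 0)).card := by
    simp only [Finset.card_filter]
    exact Finset.sum_comm
  rw [h1]
  have h2 : (N + 1) * (D N x).card = ∑ j ∈ Finset.range (N + 1), (D N x).card := by simp
  rw [h2]
  apply Finset.sum_le_sum
  intro j hj
  rw [Finset.mem_range] at hj
  by_cases hx : x ≤ N
  · apply Finset.card_le_card_of_injOn (fun σ => nrm (σ.rotate (N + 1 - j)))
    · intro σ hσ
      rw [Finset.mem_coe, D, Finset.mem_filter] at hσ
      obtain ⟨hσ1, hσ2⟩ := hσ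
      rw [Finset.mem_coe, Finset.mem_filter]
      refine ⟨ra_nrm_rot_mem hσ1 _, ?_⟩
      rw [mem_PG] at hσ1
      have hl := hσ1.1
      have e1 : (j + (N + 1 - j)) % (N + 1) = 0 := by
        rw [show j + (N + 1 - j) = N + 1 by omega]
        simp
      have e2 : ((j + x) % (N + 1) + (N + 1 - j)) % (N + 1) = x := by
        rw [Nat.mod_add_mod, show j + x + (N + 1 - j) = x + (N + 1) by omega, Nat.add_mod_right,
          Nat.mod_eq_of_lt (by omega)]
      have hb : (j + x) % (N + 1) < N + 1 := Nat.mod_lt _ (by omega)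
      unfold nrm
      rw [ra_getD_mv _ _ _ (by rw [List.length_rotate, hl]; exact hj),
        ra_getD_mv _ _ _ (by rw [List.length_rotate, hl]; exact hb), nb_add,
        ra_getD_rot _ _ _ (by rw [hl]; exact hj), ra_getD_rot _ _ _ (by rw [hl]; exact hb), hl, e1,
        e2]
      exact hσ2
    · intro σ hσ τ hτ h
      rw [Finset.mem_coe, D, Finset.mem_filter] at hσ hτ
      exact ra_nrm_rot_inj hσ.1 hτ.1 _ (by omega) h
  · have h3 : D N x = ∅ := by
      rw [D, Finset.filter_eq_empty_iff]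
      intro σ hσ
      rw [mem_PG] at hσ
      obtain ⟨hl, hh, -⟩ := hσ
      have e1 : σ.getD 0 0 = 0 := by
        rw [← List.headD_eq_getD, List.headD_eq_head?_getD, hh]
        rfl
      have e2 : σ.getD x 0 = 0 := by
        rw [List.getD_eq_default _ _ (by omega)]
      rw [e1, e2]
      exact nb_irrefl 0
    rw [h3]
    simp

/-- sum over `x` -/
theorem sum_D_le (N L : ℕ) (hL : 1 ≤ L) (S : Finset ℕ) (hS : ∀ x ∈ S, L ≤ x ∧ x + L ≤ N + 1) :
    (N + 1) * ∑ x ∈ S, (D N x).card ≤ 2 * ∑ σ ∈ PG N, (far N L σ).card := by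
  have h1 : (N + 1) * ∑ x ∈ S, (D N x).card ≤ ∑ x ∈ S, ∑ σ ∈ PG N,
      ((Finset.range (N + 1)).filter fun j =>
        nb (σ.getD j 0) (σ.getD ((j + x) % (N + 1)) 0)).card := by
    rw [Finset.mul_sum]
    exact Finset.sum_le_sum fun x _ => rot_avg N x
  refine h1.trans ?_
  rw [Finset.sum_comm, Finset.mul_sum]
  apply Finset.sum_le_sum
  intro σ _
  -- the pairs `(x, j)`
  let T : Finset (ℕ × ℕ) := (S ×ˢ Finset.range (N + 1)).filter fun p =>
    nb (σ.getD p.2 0) (σ.getD ((p.2 + p.1) % (N + 1)) 0)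
  have h2 : ∑ x ∈ S, ((Finset.range (N + 1)).filter fun j =>
      nb (σ.getD j 0) (σ.getD ((j + x) % (N + 1)) 0)).card = T.card := by
    simp only [T, Finset.card_filter]
    rw [Finset.sum_product]
  rw [h2, ← Finset.card_filter_add_card_filter_not (s := T) (fun p => p.1 + p.2 < N + 1), two_mul]
  apply add_le_add
  · apply Finset.card_le_card_of_injOn (fun p => (p.2, p.2 + p.1))
    · intro p hp
      simp only [T, Finset.coe_filter, Finset.mem_filter, Finset.mem_product, Finset.mem_range,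
        Set.mem_ofPred_eq] at hp
      obtain ⟨⟨⟨hp1, hp2⟩, hp3⟩, hp4⟩ := hp
      have := hS _ hp1
      rw [Nat.mod_eq_of_lt (by omega)] at hp3
      simp only [far, Finset.coe_filter, Finset.mem_product, Finset.mem_range, Set.mem_ofPred_eq]
      exact ⟨⟨hp2, by omega⟩, by omega, hp3⟩
    · intro p _ q _ h
      simp only [Prod.mk.injEq] at h
      ext <;> omega
  · apply Finset.card_le_card_of_injOn (fun p => (p.2 + p.1 - (N + 1), p.2))
    · intro p hp
      simp only [T, Finset.coe_filter, Finset.mem_filter, Finset.mem_product, Finset.mem_range,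
        Set.mem_ofPred_eq] at hp
      obtain ⟨⟨⟨hp1, hp2⟩, hp3⟩, hp4⟩ := hp
      have := hS _ hp1
      have e : (p.2 + p.1) % (N + 1) = p.2 + p.1 - (N + 1) := by
        rw [Nat.mod_eq_sub_mod (by omega), Nat.mod_eq_of_lt (by omega)]
      rw [e] at hp3
      simp only [far, Finset.coe_filter, Finset.mem_product, Finset.mem_range, Set.mem_ofPred_eq]
      exact ⟨⟨by omega, hp2⟩, by omega, nb_comm.1 hp3⟩
    · intro p hp q hq h
      simp only [T, Finset.coe_filter, Finset.mem_filter, Finset.mem_product, Finset.mem_range,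
        Set.mem_ofPred_eq] at hp hq
      simp only [Prod.mk.injEq] at h
      ext <;> omega

end Pool.Agent.SawPoly
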