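import Pool.Agent.SawPoly.PG

/-!
Half of the polygons are tall.
-/

set_option autoImplicit false

namespace Pool.Agent.SawPoly

private lemma nb_swap {p q : Pt} (h : nb p q) : nb p.swap q.swap := by
  unfold nb at h ⊢
  rw [Prod.fst_swap, Prod.fst_swap, Prod.snd_swap, Prod.snd_swap, add_comm]
  exact h

private lemma swap_mem_PG {n : ℕ} {L : List Pt} (h : L ∈ PG n) : L.map Prod.swap ∈ PG n := by
  rw [mem_PG] at h ⊢
  obtain ⟨h1, h2, h3, h4, h5⟩ := h
  refine ⟨by rw [List.length_map]; exact h1, ?_, h3.map Prod.swap_injective, ?_, ?_⟩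
  · rw [List.head?_map, h2]
    rfl
  · rw [List.isChain_map]
    exact h4.imp fun a b hab => nb_swap hab
  · intro x hx y hy
    rw [List.getLast?_map, Option.mem_map] at hx
    rw [List.head?_map, Option.mem_map] at hy
    obtain ⟨x', hx', rfl⟩ := hx
    obtain ⟨y', hy', rfl⟩ := hy
    exact nb_swap (h5 x' hx' y' hy')

private lemma swap_swap (L : List Pt) : (L.map Prod.swap).map Prod.swap = L := by
  rw [List.map_map, Prod.swap_swap_eq, List.map_id]

private lemma card_le_rows_mul {n : ℕ} {L : List Pt} (h : L ∈ PG n) :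
    n + 1 ≤ (rows L).card * (rows (L.map Prod.swap)).card := by
  rw [mem_PG] at h
  obtain ⟨h1, -, h3, -, -⟩ := h
  rw [← h1, ← List.toFinset_card_of_nodup h3, mul_comm, ← Finset.card_product]
  apply Finset.card_le_card
  intro p hp
  rw [List.mem_toFinset] at hp
  rw [Finset.mem_product]
  unfold rows
  rw [List.mem_toFinset, List.mem_toFinset, List.map_map]
  exact ⟨List.mem_map.2 ⟨p, hp, rfl⟩, List.mem_map.2 ⟨p, hp, rfl⟩⟩

/-- symmetry `x ↔ y`, and `#rows * #columns ≥ #sites` -/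
theorem sum_rows (n : ℕ) :
    Real.sqrt (n + 1) / 2 * ((PG n).card : ℝ) ≤ ∑ A ∈ PG n, ((rows A).card : ℝ) := by
  have hsym : ∑ A ∈ PG n, ((rows (A.map Prod.swap)).card : ℝ) = ∑ A ∈ PG n, ((rows A).card : ℝ) :=
    Finset.sum_nbij' (fun A => A.map Prod.swap) (fun A => A.map Prod.swap)
      (fun A hA => swap_mem_PG hA) (fun A hA => swap_mem_PG hA) (fun A _ => swap_swap A)
      (fun A _ => swap_swap A) (fun A _ => rfl)
  have hpt : ∀ A ∈ PG n, Real.sqrt (n + 1) ≤
      ((rows A).card : ℝ) + ((rows (A.map Prod.swap)).card : ℝ) := by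
    intro A hA
    have h := card_le_rows_mul hA
    have h' : ((n : ℝ) + 1) ≤ ((rows A).card : ℝ) * ((rows (A.map Prod.swap)).card : ℝ) := by
      exact_mod_cast h
    have h0 : (0 : ℝ) ≤ ((rows A).card : ℝ) := Nat.cast_nonneg _
    have h1 : (0 : ℝ) ≤ ((rows (A.map Prod.swap)).card : ℝ) := Nat.cast_nonneg _
    rw [Real.sqrt_le_left (by positivity)]
    nlinarith
  have hsum := Finset.sum_le_sum hpt
  rw [Finset.sum_const, nsmul_eq_mul, Finset.sum_add_distrib, hsym] at hsum
  linarith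

end Pool.Agent.SawPoly
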