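import Pool.Agent.SawPoly.Count
import Pool.Agent.SawPoly.RotAvg
import Pool.Agent.SawPoly.Tall

/-!
The joining inequality, summed over the splittings.
-/

set_option autoImplicit false

namespace Pool.Agent.SawPoly

private lemma Main1_card_Info : Info.card ≤ 49152 := by
  unfold Info
  refine (Finset.card_filter_le _ _).trans ?_
  simp only [Finset.card_product, Nat.card_Icc, Finset.card_range]
  norm_num

/-- the number of steps of the joined polygon -/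
private def Nq (N₀ : ℕ) (q : ℕ × ℕ × ℕ × ℕ × ℕ × ℕ) : ℕ :=
  N₀ + 1 + q.1 + q.2.1 + q.2.2.2.1 - q.2.2.2.2.1 - q.2.2.2.2.2

/-- the time of the contact -/
private def xq (N₀ : ℕ) (q : ℕ × ℕ × ℕ × ℕ × ℕ × ℕ) (n : ℕ) : ℕ :=
  q.1 + (N₀ - n + 1 - q.2.2.2.2.2) + q.2.2.1

private lemma Main1_Info {q : ℕ × ℕ × ℕ × ℕ × ℕ × ℕ} (hq : q ∈ Info) :
    1 ≤ q.1 ∧ q.1 ≤ 16 ∧ 1 ≤ q.2.1 ∧ q.2.1 ≤ 16 ∧ q.2.2.1 < q.2.1 ∧ q.2.2.2.1 < 3 ∧
      q.2.2.2.2.1 < 2 ∧ q.2.2.2.2.2 < 2 := by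
  unfold Info at hq
  simp only [Finset.mem_filter, Finset.mem_product, Finset.mem_Icc, Finset.mem_range] at hq
  obtain ⟨⟨h1, h2, h3, h4, h5, h6⟩, h7⟩ := hq
  exact ⟨h1.1, h1.2, h2.1, h2.2, h7, h4, h5, h6⟩

private lemma Main1_q (N₀ : ℕ) (hN : 16 ≤ N₀) (q : ℕ × ℕ × ℕ × ℕ × ℕ × ℕ) (hq : q ∈ Info) :
    N₀ * ∑ n ∈ (Finset.range N₀).filter (fun n => Odd n ∧ N₀ ≤ 4 * n ∧ 4 * n ≤ 3 * N₀),
      (D (Nq N₀ q) (xq N₀ q n)).card ≤ 2 * ∑ σ ∈ PG (Nq N₀ q), (far (Nq N₀ q) (N₀ / 4) σ).card := by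
  classical
  obtain ⟨h1, h2, h3, h4, h5, h6, h7, h8⟩ := Main1_Info hq
  set S : Finset ℕ := (Finset.range N₀).filter (fun n => Odd n ∧ N₀ ≤ 4 * n ∧ 4 * n ≤ 3 * N₀)
    with hS
  have hmem : ∀ n ∈ S, n < N₀ ∧ N₀ ≤ 4 * n ∧ 4 * n ≤ 3 * N₀ := by
    intro n hn
    obtain ⟨h9, h10⟩ := Finset.mem_filter.1 hn
    exact ⟨Finset.mem_range.1 h9, h10.2⟩
  have hinj : ∀ n ∈ S, ∀ n' ∈ S, xq N₀ q n = xq N₀ q n' → n = n' := by
    intro n hn n' hn' he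
    have := hmem n hn
    have := hmem n' hn'
    unfold xq at he
    omega
  have hsum : ∑ n ∈ S, (D (Nq N₀ q) (xq N₀ q n)).card =
      ∑ x ∈ S.image (xq N₀ q), (D (Nq N₀ q) x).card := by
    rw [Finset.sum_image hinj]
  rw [hsum]
  have h9 := sum_D_le (Nq N₀ q) (N₀ / 4) (by omega) (S.image (xq N₀ q)) (by
    intro x hx
    obtain ⟨n, hn, rfl⟩ := Finset.mem_image.1 hx
    have := hmem n hn
    unfold xq Nq
    omega)
  refine le_trans (Nat.mul_le_mul_right _ ?_) h9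
  unfold Nq
  omega

/-- `N₀` even; sum over the odd `n` between `N₀/4` and `3N₀/4` -/
theorem joining (N₀ : ℕ) (hN : 16 ≤ N₀) :
    ∑ n ∈ (Finset.range N₀).filter (fun n => Odd n ∧ N₀ ≤ 4 * n ∧ 4 * n ≤ 3 * N₀),
      (∑ A ∈ PG n, (rows A).card) * (PG (N₀ - n)).card ≤
    10 ^ 8 * N₀ * ∑ N ∈ Finset.Icc (N₀ + 1) (N₀ + 40), ∑ σ ∈ PG N, (far N (N₀ / 4) σ).card := by
  classical
  set S : Finset ℕ := (Finset.range N₀).filter (fun n => Odd n ∧ N₀ ≤ 4 * n ∧ 4 * n ≤ 3 * N₀)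
    with hS
  have hmem : ∀ n ∈ S, n < N₀ ∧ N₀ ≤ 4 * n ∧ 4 * n ≤ 3 * N₀ := by
    intro n hn
    obtain ⟨h9, h10⟩ := Finset.mem_filter.1 hn
    exact ⟨Finset.mem_range.1 h9, h10.2⟩
  set F : ℕ → ℕ := fun N => ∑ σ ∈ PG N, (far N (N₀ / 4) σ).card with hF
  have hone : ∀ n ∈ S, (∑ A ∈ PG n, (rows A).card) * (PG (N₀ - n)).card ≤
      50 * N₀ * N₀ * ∑ q ∈ Info, (D (Nq N₀ q) (xq N₀ q n)).card := by
    intro n hn
    obtain ⟨g1, g2, g3⟩ := hmem n hn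
    have h1 := card_join (n := n) (m := N₀ - n) (by omega) (by omega)
    refine h1.trans (Nat.mul_le_mul ?_ (le_of_eq ?_))
    · exact Nat.mul_le_mul (Nat.mul_le_mul_left _ (by omega)) (by omega)
    · refine Finset.sum_congr rfl fun q hq => ?_
      obtain ⟨h1, h2, h3, h4, h5, h6, h7, h8⟩ := Main1_Info hq
      have e1 : q.1 + (N₀ - n + 1 - q.2.2.2.2.2) + q.2.1 + (n + 1 - q.2.2.2.2.1) + q.2.2.2.1 - 1 =
          Nq N₀ q := by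
        unfold Nq
        omega
      rw [e1]
      rfl
  have hFle : ∀ q ∈ Info, F (Nq N₀ q) ≤ ∑ N ∈ Finset.Icc (N₀ + 1) (N₀ + 40), F N := by
    intro q hq
    obtain ⟨h1, h2, h3, h4, h5, h6, h7, h8⟩ := Main1_Info hq
    refine Finset.single_le_sum (f := F) (fun _ _ => Nat.zero_le _) ?_
    rw [Finset.mem_Icc]
    unfold Nq
    omega
  calc ∑ n ∈ S, (∑ A ∈ PG n, (rows A).card) * (PG (N₀ - n)).card
      ≤ ∑ n ∈ S, 50 * N₀ * N₀ * ∑ q ∈ Info, (D (Nq N₀ q) (xq N₀ q n)).card :=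
        Finset.sum_le_sum hone
    _ = 50 * N₀ * ∑ q ∈ Info, (N₀ * ∑ n ∈ S, (D (Nq N₀ q) (xq N₀ q n)).card) := by
        rw [← Finset.mul_sum, Finset.sum_comm, ← Finset.mul_sum]
        ring
    _ ≤ 50 * N₀ * ∑ q ∈ Info, (2 * F (Nq N₀ q)) :=
        Nat.mul_le_mul_left _ (Finset.sum_le_sum fun q hq => Main1_q N₀ hN q hq)
    _ ≤ 50 * N₀ * ∑ q ∈ Info, (2 * ∑ N ∈ Finset.Icc (N₀ + 1) (N₀ + 40), F N) :=
        Nat.mul_le_mul_left _ (Finset.sum_le_sum fun q hq => Nat.mul_le_mul_left _ (hFle q hq))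
    _ = 100 * Info.card * N₀ * ∑ N ∈ Finset.Icc (N₀ + 1) (N₀ + 40), F N := by
        rw [Finset.sum_const, smul_eq_mul]
        ring
    _ ≤ 10 ^ 8 * N₀ * ∑ N ∈ Finset.Icc (N₀ + 1) (N₀ + 40), F N := by
        refine Nat.mul_le_mul_right _ (Nat.mul_le_mul_right _ ?_)
        have := Main1_card_Info
        omega

/-- the same with `√N₀` -/
theorem joining_sqrt (N₀ : ℕ) (hN : 16 ≤ N₀) :
    Real.sqrt N₀ *
    ∑ n ∈ (Finset.range N₀).filter (fun n => Odd n ∧ N₀ ≤ 4 * n ∧ 4 * n ≤ 3 * N₀),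
      ((PG n).card : ℝ) * (PG (N₀ - n)).card ≤
    10 ^ 9 * N₀ * ∑ N ∈ Finset.Icc (N₀ + 1) (N₀ + 40), ∑ σ ∈ PG N, ((far N (N₀ / 4) σ).card : ℝ) := by
  have h1 := joining N₀ hN
  have h2 : ((∑ n ∈ (Finset.range N₀).filter (fun n => Odd n ∧ N₀ ≤ 4 * n ∧ 4 * n ≤ 3 * N₀),
      (∑ A ∈ PG n, (rows A).card) * (PG (N₀ - n)).card : ℕ) : ℝ) ≤
      ((10 ^ 8 * N₀ * ∑ N ∈ Finset.Icc (N₀ + 1) (N₀ + 40), ∑ σ ∈ PG N,
        (far N (N₀ / 4) σ).card : ℕ) : ℝ) := by exact_mod_cast h1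
  push_cast at h2
  have hone : ∀ n ∈ (Finset.range N₀).filter (fun n => Odd n ∧ N₀ ≤ 4 * n ∧ 4 * n ≤ 3 * N₀),
      Real.sqrt N₀ * (((PG n).card : ℝ) * (PG (N₀ - n)).card) ≤
        4 * ((∑ A ∈ PG n, ((rows A).card : ℝ)) * (PG (N₀ - n)).card) := by
    intro n hn
    obtain ⟨h9, h10⟩ := Finset.mem_filter.1 hn
    have h3 := sum_rows n
    have h4 : Real.sqrt N₀ ≤ 2 * Real.sqrt (n + 1) := by
      have h5 : Real.sqrt (N₀ : ℝ) ≤ Real.sqrt (4 * ((n : ℝ) + 1)) := by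
        apply Real.sqrt_le_sqrt
        have h6 : (N₀ : ℝ) ≤ 4 * n := by exact_mod_cast h10.2.1
        linarith
      rw [Real.sqrt_mul (by norm_num)] at h5
      have h7 : Real.sqrt 4 = 2 := by
        rw [show (4 : ℝ) = 2 ^ 2 by norm_num, Real.sqrt_sq (by norm_num)]
      rw [h7] at h5
      exact h5
    have h5 : (0 : ℝ) ≤ (PG n).card := Nat.cast_nonneg _
    have h6 : (0 : ℝ) ≤ (PG (N₀ - n)).card := Nat.cast_nonneg _
    have h7 : Real.sqrt N₀ * ((PG n).card : ℝ) ≤ 4 * ∑ A ∈ PG n, ((rows A).card : ℝ) := by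
      calc Real.sqrt N₀ * ((PG n).card : ℝ) ≤ 2 * Real.sqrt (n + 1) * ((PG n).card : ℝ) :=
            mul_le_mul_of_nonneg_right h4 h5
        _ = 4 * (Real.sqrt (n + 1) / 2 * ((PG n).card : ℝ)) := by ring
        _ ≤ 4 * ∑ A ∈ PG n, ((rows A).card : ℝ) := by linarith
    calc Real.sqrt N₀ * (((PG n).card : ℝ) * (PG (N₀ - n)).card)
        = (Real.sqrt N₀ * ((PG n).card : ℝ)) * (PG (N₀ - n)).card := by ring
      _ ≤ (4 * ∑ A ∈ PG n, ((rows A).card : ℝ)) * (PG (N₀ - n)).card :=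
          mul_le_mul_of_nonneg_right h7 h6
      _ = _ := by ring
  rw [Finset.mul_sum]
  refine (Finset.sum_le_sum hone).trans ?_
  rw [← Finset.mul_sum]
  have h8 : (0 : ℝ) ≤ (N₀ : ℝ) * ∑ N ∈ Finset.Icc (N₀ + 1) (N₀ + 40),
      ∑ σ ∈ PG N, ((far N (N₀ / 4) σ).card : ℝ) := by positivity
  nlinarith [h2, h8]

end Pool.Agent.SawPoly
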