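import Pool.Agent.SawPoly.Basic

/-!
The local surgery: a vertical edge of the polygon seen from the right (or left).
-/

set_option autoImplicit false

namespace Pool.Agent.SawPoly

/-- every site of a polygon is the first one of a rotation; its predecessor and its successor are
distinct neighbours of it in the polygon -/
lemma exists_rotate {L : List Pt} (hL : Loop L) (h3 : 3 ≤ L.length) {p : Pt} (hp : p ∈ L) :
    ∃ (r : ℕ) (v : Pt) (M : List Pt) (u : Pt), L.rotate r = p :: v :: (M ++ [u]) ∧ nb p v ∧ nb u p ∧
      u ≠ v ∧ u ∈ L ∧ v ∈ L := by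
  obtain ⟨A, B, rfl⟩ := List.append_of_mem hp
  have hr : (A ++ p :: B).rotate A.length = (p :: B) ++ A := List.rotate_append_length_eq _ _
  have hloop := hL.rotate A.length
  have hlen : ((p :: B) ++ A).length = (A ++ p :: B).length := by
    rw [← hr, List.length_rotate]
  rcases hC : B ++ A with _ | ⟨v, C⟩
  · rw [List.cons_append, hC] at hlen
    simp only [List.length_cons, List.length_nil] at hlen
    omega
  · rcases List.eq_nil_or_concat C with rfl | ⟨M, u, rfl⟩
    · rw [List.cons_append, hC] at hlen
      simp only [List.length_cons, List.length_nil] at hlen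
      omega
    · rw [List.concat_eq_append] at hC
      have hr2 : (A ++ p :: B).rotate A.length = p :: v :: (M ++ [u]) := by
        rw [hr, List.cons_append, hC]
      rw [hr2] at hloop
      obtain ⟨hn, hc, hl⟩ := hloop
      have hmem : ∀ z, z ∈ p :: v :: (M ++ [u]) → z ∈ A ++ p :: B := by
        intro z hz
        rw [← hr2, List.mem_rotate] at hz
        exact hz
      refine ⟨A.length, v, M, u, hr2, ?_, ?_, ?_, ?_, ?_⟩
      · exact (List.isChain_cons_cons.1 hc).1
      · apply hl
        · have : p :: v :: (M ++ [u]) = (p :: v :: M) ++ [u] := by simp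
          rw [this, List.getLast?_concat]
          rfl
        · rfl
      · rintro rfl
        simp at hn
      · apply hmem; simp
      · apply hmem; simp

lemma Port.reverse {L : List Pt} {F : Pt → Prop} {a b : Pt} (h : Port L F a b) :
    Port L.reverse F b a := by
  obtain ⟨r, P, I, E₁, E₂, h1, h2, h3, h4, h5, h6, h7, h8, h9, h10⟩ := h
  refine ⟨(L.length - r % L.length) + I.length, P.reverse, I.reverse, E₂.reverse, E₁.reverse,
    ?_, by simpa using h2, by simpa using h3, by simpa using h5, by simpa using h4, ?_, ?_, ?_, ?_,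
    ?_⟩
  · rw [← List.rotate_rotate, ← List.reverse_rotate, h1, List.reverse_append]
    have := List.rotate_append_length_eq I.reverse P.reverse
    rw [List.length_reverse] at this
    exact this
  · intro x hx
    rw [List.mem_reverse]
    apply h6
    rw [List.mem_append, List.mem_reverse, List.mem_reverse] at hx
    exact List.mem_append.2 hx.symm
  · have e : E₁.reverse ++ P.reverse ++ E₂.reverse = (E₂ ++ P ++ E₁).reverse := by simp
    rw [e]
    exact List.nodup_reverse.2 h7
  · have e : E₁.reverse ++ P.reverse ++ E₂.reverse = (E₂ ++ P ++ E₁).reverse := by simp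
    rw [e, List.isChain_reverse]
    exact h8.imp fun a b hab => nb_comm.1 hab
  · have e : E₁.reverse ++ P.reverse ++ E₂.reverse = (E₂ ++ P ++ E₁).reverse := by simp
    rw [e, List.head?_reverse]
    exact h10
  · have e : E₁.reverse ++ P.reverse ++ E₂.reverse = (E₂ ++ P ++ E₁).reverse := by simp
    rw [e, List.getLast?_reverse]
    exact h9

/-- opening the polygon at the edge from the last to the first site of a rotation -/
lemma port_of_rotate {L : List Pt} (hL : Loop L) (F : Pt → Prop) {r : ℕ} {a b : Pt} {M : List Pt}
    (h : L.rotate r = a :: (M ++ [b])) : Port L F a b := by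
  have hloop := hL.rotate r
  rw [h] at hloop
  refine ⟨r, a :: (M ++ [b]), [], [], [], by rw [h]; simp, by simp, by simp, by simp, by simp,
    by simp, by simpa using hloop.1, by simpa using hloop.2.1, by simp, ?_⟩
  have e : [] ++ a :: (M ++ [b]) ++ [] = (a :: M) ++ [b] := by simp
  rw [e, List.getLast?_concat]

/-- `p` is a site of the polygon whose right (`o = 1`) or left (`o = -1`) neighbour is free: one of
the two vertical edges at `p` belongs to the polygon -/
theorem port_direct {L : List Pt} (hL : Loop L) (h4 : 4 ≤ L.length) {p : Pt} (hp : p ∈ L) (o : ℤ)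
    (ho : o = 1 ∨ o = -1) (hfree : (p.1 + o, p.2) ∉ L) :
    ∃ y : ℤ, (y = p.2 ∨ y = p.2 - 1) ∧
      (Port L (fun _ => False) (p.1, y) (p.1, y + 1) ∨
        Port L (fun _ => False) (p.1, y + 1) (p.1, y)) := by
  obtain ⟨r, v, M, u, hr, hv, hu, huv, huL, hvL⟩ := exists_rotate hL (by omega) hp
  -- the edge `u → p`
  have P1 : Port L (fun _ => False) p u := port_of_rotate hL _ (M := v :: M) (by rw [hr]; simp)
  -- the edge `p → v`
  have P2 : Port L (fun _ => False) v p := by
    apply port_of_rotate hL _ (r := r + 1) (M := M ++ [u])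
    rw [← List.rotate_rotate, hr, List.rotate_cons_succ, List.rotate_zero]
    simp
  rw [nb_comm] at hu
  rw [nb_iff] at hu hv
  have hu' : u ≠ (p.1 + o, p.2) := fun h => hfree (h ▸ huL)
  have hv' : v ≠ (p.1 + o, p.2) := fun h => hfree (h ▸ hvL)
  obtain ⟨px, py⟩ := p
  simp only at hu hv hu' hv' P1 P2 ⊢
  -- one of `u`, `v` is vertical
  have key : (u = (px, py + 1) ∨ u = (px, py - 1)) ∨ (v = (px, py + 1) ∨ v = (px, py - 1)) := by
    rcases ho with rfl | rfl
    · rcases hu with h | h | h | h
      · exact absurd h hu'
      · rcases hv with g | g | g | g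
        · exact absurd g hv'
        · exact absurd (h.trans g.symm) huv
        · exact Or.inr (Or.inl g)
        · exact Or.inr (Or.inr g)
      · exact Or.inl (Or.inl h)
      · exact Or.inl (Or.inr h)
    · rcases hu with h | h | h | h
      · rcases hv with g | g | g | g
        · exact absurd (h.trans g.symm) huv
        · exact absurd g hv'
        · exact Or.inr (Or.inl g)
        · exact Or.inr (Or.inr g)
      · exact absurd h hu'
      · exact Or.inl (Or.inl h)
      · exact Or.inl (Or.inr h)
  rcases key with (h | h) | (h | h)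
  · exact ⟨py, Or.inl rfl, Or.inl (h ▸ P1)⟩
  · refine ⟨py - 1, Or.inr rfl, Or.inr ?_⟩
    rw [sub_add_cancel]
    exact h ▸ P1
  · exact ⟨py, Or.inl rfl, Or.inr (h ▸ P2)⟩
  · refine ⟨py - 1, Or.inr rfl, Or.inl ?_⟩
    rw [sub_add_cancel]
    exact h ▸ P2

end Pool.Agent.SawPoly
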