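import Pool.Agent.SawPoly.PortD

/-!
The local surgery in the extreme case. Local coordinates at `p`: `(X, Y)` stands for the site
`(p.1 + o * X, p.2 + s * Y)`, `o, s = ±1`.
-/

set_option autoImplicit false

namespace Pool.Agent.SawPoly

/-- local coordinates -/
def loc (p : Pt) (o s X Y : ℤ) : Pt := (p.1 + o * X, p.2 + s * Y)

lemma loc_zero (p : Pt) (o s : ℤ) : loc p o s 0 0 = p := by
  simp [loc]

lemma nb_loc {p q : Pt} {o s X Y : ℤ} (ho : o = 1 ∨ o = -1) (hs : s = 1 ∨ s = -1) :
    nb (loc p o s X Y) q ↔ q = loc p o s (X + 1) Y ∨ q = loc p o s (X - 1) Y ∨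
      q = loc p o s X (Y + 1) ∨ q = loc p o s X (Y - 1) := by
  obtain ⟨a, b⟩ := p
  obtain ⟨c, d⟩ := q
  rw [nb_iff]
  simp only [loc, Prod.mk.injEq]
  rcases ho with rfl | rfl <;> rcases hs with rfl | rfl <;> constructor <;> intro h <;> omega

lemma loc_inj {p : Pt} {o s X Y X' Y' : ℤ} (ho : o = 1 ∨ o = -1) (hs : s = 1 ∨ s = -1) :
    loc p o s X Y = loc p o s X' Y' ↔ X = X' ∧ Y = Y' := by
  simp only [loc, Prod.mk.injEq]
  rcases ho with rfl | rfl <;> rcases hs with rfl | rfl <;> constructor <;> intro h <;> omega

lemma Port.of_rotate {L : List Pt} {k : ℕ} {F : Pt → Prop} {a b : Pt}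
    (h : Port (L.rotate k) F a b) : Port L F a b := by
  obtain ⟨r, P, I, E₁, E₂, h1, h2, h3, h4, h5, h6, h7⟩ := h
  refine ⟨k + r, P, I, E₁, E₂, ?_, h2, h3, h4, h5, ?_, h7⟩
  · rw [← h1, List.rotate_rotate]
  · intro x hx
    have := h6 x hx
    rwa [List.mem_rotate] at this

/-- add sites at the end of a polygon -/
private lemma port_end {P I E : List Pt} {F : Pt → Prop} {a b : Pt} (hL : Loop (P ++ I))
    (hP : P ≠ []) (hI : I.length ≤ 1) (hE : E.length ≤ 2) (hE0 : E ≠ [])
    (hF : ∀ x ∈ E, x ∉ P ++ I ∧ F x) (hEn : E.Nodup) (hEc : E.IsChain nb)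
    (hPE : ∀ x ∈ P.getLast?, ∀ y ∈ E.head?, nb x y)
    (ha : P.head? = some a) (hb : E.getLast? = some b) : Port (P ++ I) F a b := by
  refine ⟨0, P, I, E, [], by simp, hP, hI, hE, by simp, by simpa using hF, ?_, ?_, ?_, ?_⟩
  · rw [List.nil_append, List.nodup_append]
    refine ⟨(List.nodup_append.1 hL.1).1, hEn, ?_⟩
    rintro x hx y hy rfl
    exact (hF x hy).1 (List.mem_append_left _ hx)
  · rw [List.nil_append, List.isChain_append]
    exact ⟨(List.isChain_append.1 hL.2.1).1, hEc, hPE⟩
  · rw [List.nil_append, List.head?_append_of_ne_nil _ hP, ha]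
  · rw [List.nil_append, List.getLast?_append_of_ne_nil _ hE0, hb]

/-- open a polygon at an edge and add a site at each end -/
private lemma port_open {A B : List Pt} {F : Pt → Prop} {x y a b : Pt} (hL : Loop (A ++ B))
    (hA : A.getLast? = some x) (hB : B.head? = some y) (hay : nb a y) (hxb : nb x b)
    (ha : a ∉ A ++ B) (hb : b ∉ A ++ B) (hab : a ≠ b) (hFa : F a) (hFb : F b) :
    Port (A ++ B) F a b := by
  have hA0 : A ≠ [] := by
    rintro rfl
    simp at hA
  have hB0 : B ≠ [] := by
    rintro rfl
    simp at hB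
  have hperm : (B ++ A).Perm (A ++ B) := List.perm_append_comm
  have hL' : Loop (B ++ A) := by
    have := hL.rotate A.length
    rwa [List.rotate_append_length_eq] at this
  have ha' : a ∉ B ++ A := fun h => ha (hperm.mem_iff.1 h)
  have hb' : b ∉ B ++ A := fun h => hb (hperm.mem_iff.1 h)
  refine ⟨A.length, B ++ A, [], [b], [a], ?_, by simp [hA0], by simp, by simp, by simp, ?_, ?_, ?_,
    ?_, ?_⟩
  · rw [List.rotate_append_length_eq, List.append_nil]
  · intro z hz
    simp only [List.cons_append, List.nil_append, List.mem_cons, List.not_mem_nil, or_false] at hz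
    rcases hz with rfl | rfl
    · exact ⟨hb, hFb⟩
    · exact ⟨ha, hFa⟩
  · rw [List.append_assoc, List.singleton_append, List.nodup_cons, List.nodup_append]
    refine ⟨?_, hL'.1, by simp, ?_⟩
    · intro h
      rw [List.mem_append, List.mem_singleton] at h
      rcases h with h | h
      · exact ha' h
      · exact hab h
    · intro z hz w hw
      rw [List.mem_singleton] at hw
      rintro rfl
      exact hb' (hw ▸ hz)
  · rw [List.append_assoc, List.isChain_append, List.isChain_append]
    refine ⟨by simp, ⟨hL'.2.1, by simp, ?_⟩, ?_⟩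
    · intro z hz w hw
      rw [List.getLast?_append_of_ne_nil _ hA0, hA] at hz
      simp only [Option.mem_def, Option.some.injEq, List.head?_cons] at hz hw
      subst hz; subst hw
      exact hxb
    · intro z hz w hw
      rw [List.append_assoc, List.head?_append_of_ne_nil _ hB0, hB] at hw
      simp only [Option.mem_def, Option.some.injEq, List.getLast?_singleton] at hz hw
      subst hz; subst hw
      exact hay
  · simp
  · rw [List.getLast?_append_of_ne_nil _ (by simp)]
    simp

private lemma port_extreme_core {p u v : Pt} {M : List Pt} (hL : Loop (p :: v :: (M ++ [u])))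
    (hM : M ≠ []) (o s : ℤ) (ho : o = 1 ∨ o = -1) (hs : s = 1 ∨ s = -1)
    (hu : u = loc p o s (-1) 0) (hv : v = loc p o s 0 (-1))
    (h01 : loc p o s 0 1 ∉ p :: v :: (M ++ [u])) (h02 : loc p o s 0 2 ∉ p :: v :: (M ++ [u])) :
    ∃ z : ℤ, (z = 0 ∨ z = 1) ∧
      (Port (p :: v :: (M ++ [u]))
          (fun x => x = loc p o s (-1) 1 ∨ x = loc p o s 0 1 ∨ x = loc p o s 0 2)
          (loc p o s 0 z) (loc p o s 0 (z + 1)) ∨
        Port (p :: v :: (M ++ [u]))
          (fun x => x = loc p o s (-1) 1 ∨ x = loc p o s 0 1 ∨ x = loc p o s 0 2)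
          (loc p o s 0 (z + 1)) (loc p o s 0 z)) := by
  have hp0 : loc p o s 0 0 = p := loc_zero p o s
  by_cases hw : loc p o s (-1) 1 ∈ p :: v :: (M ++ [u])
  · -- `(-1,1)` is a site of the polygon
    have hwM : loc p o s (-1) 1 ∈ M := by
      simp only [List.mem_cons, List.mem_append, List.not_mem_nil, or_false] at hw
      rcases hw with h | h | h | h
      · rw [← hp0] at h
        nth_rewrite 1 [hp0] at h
        rw [loc_inj ho hs] at h
        omega
      · rw [hv, loc_inj ho hs] at h
        omega
      · exact h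
      · rw [hu, loc_inj ho hs] at h
        omega
    obtain ⟨M₁, M₂, rfl⟩ := List.append_of_mem hwM
    rcases List.eq_nil_or_concat M₂ with rfl | ⟨M₂', c, hc⟩
    · -- case (ii)
      refine ⟨0, Or.inl rfl, Or.inl ?_⟩
      have e : p :: v :: (M₁ ++ [loc p o s (-1) 1] ++ [u]) =
          (p :: v :: (M₁ ++ [loc p o s (-1) 1])) ++ [u] := by simp
      rw [e] at hL h01 ⊢
      refine port_end (E := [loc p o s 0 1]) hL (by simp) (by simp) (by simp) (by simp) ?_ (by simp)
        (by simp) ?_ ?_ ?_
      · intro x hx
        rw [List.mem_singleton] at hx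
        subst hx
        exact ⟨h01, Or.inr (Or.inl rfl)⟩
      · intro x hx y hy
        have e2 : (p :: v :: (M₁ ++ [loc p o s (-1) 1])).getLast? = some (loc p o s (-1) 1) := by
          rw [show p :: v :: (M₁ ++ [loc p o s (-1) 1]) = (p :: v :: M₁) ++ [loc p o s (-1) 1] by simp,
            List.getLast?_append_of_ne_nil _ (by simp)]
          simp
        rw [e2] at hx
        simp only [Option.mem_def, Option.some.injEq, List.head?_cons] at hx hy
        subst hx; subst hy
        rw [nb_loc ho hs]
        left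
        norm_num
      · simp [hp0]
      · simp
    · -- case (iii)
      refine ⟨1, Or.inr rfl, ?_⟩
      -- predecessor and successor
      obtain ⟨a, ha⟩ : ∃ a, (p :: v :: M₁).getLast? = some a := by
        rw [← Option.isSome_iff_exists]; simp
      obtain ⟨b, hb⟩ : ∃ b, (M₂ ++ [u]).head? = some b := by
        rw [← Option.isSome_iff_exists]; simp
      have e1 : p :: v :: (M₁ ++ loc p o s (-1) 1 :: M₂ ++ [u]) =
          (p :: v :: M₁) ++ (loc p o s (-1) 1 :: (M₂ ++ [u])) := by simp
      have hL1 := hL
      rw [e1, loop_append (by simp) (by simp)] at hL1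
      obtain ⟨n1, n2, n3, n4, n5⟩ := hL1
      have haw : nb a (loc p o s (-1) 1) := n4 a (by simpa using ha) _ (by simp)
      have hbw : nb (loc p o s (-1) 1) b := by
        rw [List.isChain_cons] at n3
        exact n3.1 b (by simpa using hb)
      have haA : a ∈ p :: v :: M₁ := List.mem_of_getLast? ha
      have hbB : b ∈ M₂ ++ [u] := List.mem_of_mem_head? hb
      rw [List.nodup_append] at n1
      obtain ⟨n11, n12, n13⟩ := n1
      have hab : a ≠ b := n13 a haA b (List.mem_cons_of_mem _ hbB)
      have hau : a ≠ u := n13 a haA u (by simp)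
      have hbu : b ≠ u := by
        rintro rfl
        rw [hc] at hb n12
        rcases M₂' with _ | ⟨c', M₃⟩
        · simp at hb
          subst hb
          simp at n12
        · simp at hb
          subst hb
          simp at n12
      have ha01 : a ≠ loc p o s 0 1 := by
        rintro rfl
        exact h01 (by rw [e1]; exact List.mem_append_left _ haA)
      have hb01 : b ≠ loc p o s 0 1 := by
        rintro rfl
        exact h01 (by
          rw [e1]
          exact List.mem_append_right _ (List.mem_cons_of_mem _ hbB))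
      have ha2 : a = loc p o s (-2) 1 ∨ a = loc p o s (-1) 2 := by
        rw [nb_comm, nb_loc ho hs] at haw
        rcases haw with h | h | h | h
        · exact absurd h (by norm_num; exact ha01)
        · left; rw [h]; norm_num
        · right; rw [h]; norm_num
        · exact absurd h (by norm_num; rw [← hu]; exact hau)
      have hb2 : b = loc p o s (-2) 1 ∨ b = loc p o s (-1) 2 := by
        rw [nb_loc ho hs] at hbw
        rcases hbw with h | h | h | h
        · exact absurd h (by norm_num; exact hb01)
        · left; rw [h]; norm_num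
        · right; rw [h]; norm_num
        · exact absurd h (by norm_num; rw [← hu]; exact hbu)
      have h12 : loc p o s 0 1 ≠ loc p o s 0 2 := by
        rw [Ne, loc_inj ho hs]
        omega
      have nb1 : nb (loc p o s 0 1) (loc p o s (-1) 1) := by
        rw [nb_loc ho hs]
        right; left
        norm_num
      have nb2 : nb (loc p o s (-1) 2) (loc p o s 0 2) := by
        rw [nb_loc ho hs]
        left
        norm_num
      have hcase : a = loc p o s (-1) 2 ∨ b = loc p o s (-1) 2 := by
        rcases ha2 with h | h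
        · rcases hb2 with h' | h'
          · exact absurd (h.trans h'.symm) hab
          · exact Or.inr h'
        · exact Or.inl h
      rw [show (1 : ℤ) + 1 = 2 by norm_num]
      rcases hcase with h | h
      · left
        rw [e1] at hL h01 h02 ⊢
        exact port_open hL ha (by simp) nb1 (h ▸ nb2) h01 h02 h12 (Or.inr (Or.inl rfl))
          (Or.inr (Or.inr rfl))
      · right
        have e3 : p :: v :: (M₁ ++ loc p o s (-1) 1 :: M₂ ++ [u]) =
          ((p :: v :: M₁) ++ [loc p o s (-1) 1]) ++ (M₂ ++ [u]) := by simp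
        rw [e3] at hL h01 h02 ⊢
        exact port_open hL (x := loc p o s (-1) 1) (by
            rw [List.getLast?_append_of_ne_nil _ (by simp)]; simp) hb
          (h ▸ (nb_comm.1 nb2)) (nb_comm.1 nb1) h02 h01 h12.symm (Or.inr (Or.inr rfl))
          (Or.inr (Or.inl rfl))
  · -- case (i)
    refine ⟨0, Or.inl rfl, Or.inl ?_⟩
    have e : p :: v :: (M ++ [u]) = (p :: v :: (M ++ [u])) ++ [] := by simp
    rw [e] at hL h01 hw ⊢
    refine port_end (E := [loc p o s (-1) 1, loc p o s 0 1]) hL (by simp) (by simp) (by simp)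
      (by simp) ?_ ?_ ?_ ?_ ?_ ?_
    · intro x hx
      simp only [List.mem_cons, List.not_mem_nil, or_false] at hx
      rcases hx with rfl | rfl
      · exact ⟨hw, Or.inl rfl⟩
      · exact ⟨h01, Or.inr (Or.inl rfl)⟩
    · simp [loc_inj ho hs]
    · simp only [List.isChain_cons_cons, List.isChain_singleton, and_true]
      rw [nb_loc ho hs]
      left
      norm_num
    · intro x hx y hy
      rw [show p :: v :: (M ++ [u]) = (p :: v :: M) ++ [u] by simp,
        List.getLast?_append_of_ne_nil _ (by simp)] at hx
      simp only [Option.mem_def, Option.some.injEq, List.head?_cons,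
        List.getLast?_singleton] at hx hy
      subst hx; subst hy
      rw [hu, nb_loc ho hs]
      right; right; left
      norm_num
    · simp [hp0]
    · simp

/-- If `(1,0)`, `(0,1)`, `(0,2)` (local coordinates at the site `p` of the polygon) are free then
after a surgery which uses only the sites `(-1,1)`, `(0,1)`, `(0,2)` the polygon becomes a path
between `(0,z)` and `(0,z+1)`, where `z` is `0` or `1`.
Proof: the two neighbours of `p` in the polygon are `(-1,0)` and `(0,-1)`.
(i) `(-1,1)` free: replace the edge `(-1,0),(0,0)` by `(-1,0),(-1,1),(0,1)` and open the polygon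
between `(0,1)` and `(0,0)`; `z = 0`, `I = []`.
(ii) `(-1,1)` is the other neighbour of `(-1,0)` in the polygon: remove the site `(-1,0)` and add
`(0,1)`; `z = 0`, `I = [(-1,0)]`.
(iii) otherwise the two neighbours of `(-1,1)` in the polygon are `(-2,1)` and `(-1,2)`; open the
polygon at the edge `(-1,1),(-1,2)` and add `(0,1)` and `(0,2)`; `z = 1`, `I = []`. -/
theorem port_extreme {L : List Pt} (hL : Loop L) (h4 : 4 ≤ L.length) {p : Pt} (hp : p ∈ L)
    (o s : ℤ) (ho : o = 1 ∨ o = -1) (hs : s = 1 ∨ s = -1)
    (h10 : loc p o s 1 0 ∉ L) (h01 : loc p o s 0 1 ∉ L) (h02 : loc p o s 0 2 ∉ L) :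
    ∃ z : ℤ, (z = 0 ∨ z = 1) ∧
      (Port L (fun x => x = loc p o s (-1) 1 ∨ x = loc p o s 0 1 ∨ x = loc p o s 0 2)
          (loc p o s 0 z) (loc p o s 0 (z + 1)) ∨
        Port L (fun x => x = loc p o s (-1) 1 ∨ x = loc p o s 0 1 ∨ x = loc p o s 0 2)
          (loc p o s 0 (z + 1)) (loc p o s 0 z)) := by
  obtain ⟨r, v, M, u, hr, hpv, hup, huv, huL, hvL⟩ := exists_rotate hL (by omega) hp
  have hp0 : loc p o s 0 0 = p := loc_zero p o s
  have hM : M ≠ [] := by
    rintro rfl
    have := congrArg List.length hr
    simp at this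
    omega
  have hpv' : v = loc p o s (-1) 0 ∨ v = loc p o s 0 (-1) := by
    rw [← hp0, nb_loc ho hs] at hpv
    rcases hpv with h | h | h | h
    · exact absurd (h ▸ hvL) (by simpa using h10)
    · left; simpa using h
    · exact absurd (h ▸ hvL) (by simpa using h01)
    · right; simpa using h
  have hpu' : u = loc p o s (-1) 0 ∨ u = loc p o s 0 (-1) := by
    rw [nb_comm, ← hp0, nb_loc ho hs] at hup
    rcases hup with h | h | h | h
    · exact absurd (h ▸ huL) (by simpa using h10)
    · left; simpa using h
    · exact absurd (h ▸ huL) (by simpa using h01)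
    · right; simpa using h
  have hcase : (u = loc p o s (-1) 0 ∧ v = loc p o s 0 (-1)) ∨
      (v = loc p o s (-1) 0 ∧ u = loc p o s 0 (-1)) := by
    rcases hpv' with h | h <;> rcases hpu' with h' | h'
    · exact absurd (h'.trans h.symm) huv
    · exact Or.inr ⟨h, h'⟩
    · exact Or.inl ⟨h', h⟩
    · exact absurd (h'.trans h.symm) huv
  rcases hcase with ⟨h1, h2⟩ | ⟨h1, h2⟩
  · have hL' := hL.rotate r
    rw [hr] at hL'
    have f1 : loc p o s 0 1 ∉ p :: v :: (M ++ [u]) := by
      rw [← hr, List.mem_rotate]; exact h01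
    have f2 : loc p o s 0 2 ∉ p :: v :: (M ++ [u]) := by
      rw [← hr, List.mem_rotate]; exact h02
    obtain ⟨z, hz, hh⟩ := port_extreme_core hL' hM o s ho hs h1 h2 f1 f2
    rw [← hr] at hh
    exact ⟨z, hz, hh.imp Port.of_rotate Port.of_rotate⟩
  · -- the reversed polygon
    have hrev : ∃ k, L.reverse.rotate k = p :: u :: (M.reverse ++ [v]) := by
      have e := congrArg List.reverse hr
      rw [List.reverse_rotate] at e
      have e2 : (p :: v :: (M ++ [u])).reverse = (u :: (M.reverse ++ [v])) ++ [p] := by simp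
      rw [e2] at e
      refine ⟨(L.length - r % L.length) + (u :: (M.reverse ++ [v])).length, ?_⟩
      rw [← List.rotate_rotate, e, List.rotate_append_length_eq]
      simp
    obtain ⟨k, hk⟩ := hrev
    have hL' := hL.reverse.rotate k
    rw [hk] at hL'
    have f1 : loc p o s 0 1 ∉ p :: u :: (M.reverse ++ [v]) := by
      rw [← hk, List.mem_rotate, List.mem_reverse]; exact h01
    have f2 : loc p o s 0 2 ∉ p :: u :: (M.reverse ++ [v]) := by
      rw [← hk, List.mem_rotate, List.mem_reverse]; exact h02
    obtain ⟨z, hz, hh⟩ := port_extreme_core hL' (by simpa using hM) o s ho hs h1 h2 f1 f2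
    rw [← hk] at hh
    refine ⟨z, hz, ?_⟩
    rcases hh with hh | hh
    · right
      simpa using hh.of_rotate.reverse
    · left
      simpa using hh.of_rotate.reverse

end Pool.Agent.SawPoly
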