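import Pool.Agent.SawPoly.PG
import Pool.Agent.SawPoly.Geom

/-!
Reconstruction of the pair of polygons from the joined polygon.
-/

set_option autoImplicit false

namespace Pool.Agent.SawPoly

/-- Reconstruction of `(A, B, t)` from the joined polygon `σ = S₁ ++ PB ++ S₂ ++ PA ++ S₃` and the
data `|S₁| = i`, `|PB| = β`, `|S₂| = v`, `|PA| = α`, `IA = dA.map (last PA + ·)`, `IB` likewise, the
positions `k, k'` of the roots and the orientation of `B`. -/
def recon (i β v α : ℕ) (dA dB : Option Pt) (k k' : ℕ) (rev : Bool) (σ : List Pt) :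
    List Pt × List Pt × ℤ :=
  let PB := (σ.drop i).take β
  let PA := (σ.drop (i + β + v)).take α
  let A := (PA ++ (dA.map fun d => PA.getLastD 0 + d).toList).rotate k
  let B₀ := PB ++ (dB.map fun d => PB.getLastD 0 + d).toList
  let B := if rev then (B₀.rotate k').reverse else B₀.rotate k'
  (nrm A, nrm B, (B.headD 0).2 - (A.headD 0).2)


private lemma rotate_back {L M : List Pt} {r : ℕ} (hL : L ≠ []) (h : L.rotate r = M) :
    ∃ k, k < L.length ∧ M.rotate k = L := by
  have hpos : 0 < L.length := List.length_pos_iff.2 hL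
  refine ⟨(L.length - r % L.length) % L.length, Nat.mod_lt _ hpos, ?_⟩
  rw [← h, List.rotate_rotate]
  have h1 : (r + (L.length - r % L.length) % L.length) % L.length = 0 := by
    have h2 : r % L.length < L.length := Nat.mod_lt _ hpos
    rw [Nat.add_mod_mod]
    have h3 : r + (L.length - r % L.length) = L.length * (r / L.length + 1) := by
      have := Nat.div_add_mod r L.length
      rw [Nat.mul_add, Nat.mul_one]
      omega
    rw [h3]
    exact Nat.mul_mod_right _ _
  rw [← List.rotate_mod, h1, List.rotate_zero]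

private lemma getD_mv (w : Pt) (L : List Pt) {j : ℕ} (h : j < L.length) :
    (mv w L).getD j 0 = L.getD j 0 + w := by
  unfold mv
  rw [List.getD_eq_getElem _ _ (by simpa using h), List.getD_eq_getElem _ _ h, List.getElem_map]

private lemma getLastD_mv (w : Pt) {L : List Pt} (h : L ≠ []) :
    (mv w L).getLastD 0 = L.getLastD 0 + w := by
  obtain ⟨L, a, rfl⟩ : ∃ L' a, L = L' ++ [a] :=
    ⟨L.dropLast, L.getLast h, (List.dropLast_append_getLast h).symm⟩
  simp [mv]

/-- the removed site is coded by a unit vector -/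
private lemma code {P I : List Pt} (hP : P ≠ []) (hI : I.length ≤ 1) (h : Loop (P ++ I)) :
    ∃ d : Option Pt, (∀ x ∈ d, nb 0 x) ∧
      ∀ w : Pt, (d.map fun x => (mv w P).getLastD 0 + x).toList = mv w I := by
  rcases I with _ | ⟨x, I⟩
  · exact ⟨none, by simp, fun w => by simp [mv]⟩
  · have hI' : I = [] := by
      rw [List.length_cons] at hI
      exact List.eq_nil_of_length_eq_zero (by omega)
    subst hI'
    rw [loop_append hP (by simp)] at h
    obtain ⟨-, -, -, h4, -⟩ := h
    have hlast : P.getLast? = some (P.getLastD 0) := by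
      obtain ⟨L, a, rfl⟩ : ∃ L' a, P = L' ++ [a] :=
        ⟨P.dropLast, P.getLast hP, (List.dropLast_append_getLast hP).symm⟩
      simp
    have h5 : nb (P.getLastD 0) x := h4 _ hlast x rfl
    refine ⟨some (x - P.getLastD 0), ?_, fun w => ?_⟩
    · intro y hy
      obtain rfl : x - P.getLastD 0 = y := Option.some.inj hy
      have := (nb_add (P.getLastD 0) x (-(P.getLastD 0))).2 h5
      rwa [add_neg_cancel, ← sub_eq_add_neg] at this
    · rw [getLastD_mv w hP]
      simp only [Option.map_some, Option.toList_some, mv, List.map_cons, List.map_nil]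
      congr 1
      abel

/-- every triple `(A, B, t)` with `t` a row of `A` is reconstructed from some joined polygon with a
contact between the times `0` and `i + β + c`.
Proof: `join_geom` for `A` and `mv (0,t) B` (common row `t`: the head of `mv (0,t) B` is `(0,t)`);
`σ' = U.drop e ++ PB ++ V ++ PA ++ U.take e` is the rotation of `PA ++ U ++ PB ++ V` by
`PA.length + e`, `σ = nrm σ'`; `i = U.length - e`, `v = V.length`, `c = V.length - 1 - f`,
`a = IA.length`, `b = IB.length`. -/
theorem exists_rec {n m : ℕ} (hn : 3 ≤ n) (hm : 3 ≤ m) {A B : List Pt} (hA : A ∈ PG n)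
    (hB : B ∈ PG m) {t : ℤ} (ht : t ∈ rows A) :
    ∃ (i v c e a b k k' : ℕ) (dA dB : Option Pt) (rev : Bool) (N : ℕ) (σ : List Pt),
      1 ≤ i ∧ i ≤ 16 ∧ 1 ≤ v ∧ v ≤ 16 ∧ c < v ∧ e ≤ 2 ∧ a ≤ 1 ∧ b ≤ 1 ∧ k ≤ n ∧ k' ≤ m ∧
      (∀ d ∈ dA, nb 0 d) ∧ (∀ d ∈ dB, nb 0 d) ∧
      N + 1 = i + (m + 1 - b) + v + (n + 1 - a) + e ∧ σ ∈ D N (i + (m + 1 - b) + c) ∧
      recon i (m + 1 - b) v (n + 1 - a) dA dB k k' rev σ = (A, B, t) := by
  rw [mem_PG] at hA hB
  obtain ⟨hAl, hAh, hAL⟩ := hA
  obtain ⟨hBl, hBh, hBL⟩ := hB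
  have hA0 : A ≠ [] := by rintro rfl; simp at hAl
  have hB0 : B ≠ [] := by rintro rfl; simp at hBl
  have hAd : A.headD 0 = 0 := by rw [List.headD_eq_head?_getD, hAh]; rfl
  have hBd : B.headD 0 = 0 := by rw [List.headD_eq_head?_getD, hBh]; rfl
  have hrow : ∃ a ∈ A, ∃ b ∈ mv (0, t) B, a.2 = b.2 := by
    unfold rows at ht
    rw [List.mem_toFinset, List.mem_map] at ht
    obtain ⟨a, ha, rfl⟩ := ht
    refine ⟨a, ha, (0, a.2), ?_, rfl⟩
    rw [mem_mv, sub_self]
    exact List.mem_of_mem_head? hBh
  obtain ⟨s, r, r', rev, PA, IA, PB, IB, U, V, e, f, h1, h2, h3, h4, h5, h6, h7, h8, h9, h10,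
    h11, h12, h13, h14⟩ := join_geom A (mv (0, t) B) hAL (hBL.mv _) (by omega)
      (by rw [length_mv]; omega) hrow
  obtain ⟨Bs, hBs⟩ : ∃ Bs, Bs = mv (s, 0) (mv (0, t) B) := ⟨_, rfl⟩
  rw [← hBs] at h2
  have hBs0 : Bs ≠ [] := by
    rw [hBs]; intro h
    apply hB0
    unfold mv at h
    simpa using h
  have hBsl : Bs.length = m + 1 := by rw [hBs, length_mv, length_mv, hBl]
  have hBsL : Loop Bs := by rw [hBs]; exact (hBL.mv _).mv _
  have hBsd : Bs.headD 0 = (s, t) := by
    rw [hBs, headD_mv _ (by intro h; apply hB0; unfold mv at h; simpa using h), headD_mv _ hB0, hBd]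
    simp
  obtain ⟨BB, hBB⟩ : ∃ BB, BB = (if rev then Bs.reverse else Bs) := ⟨_, rfl⟩
  rw [← hBB] at h2
  have hBBl : BB.length = m + 1 := by rw [hBB]; cases rev <;> simp [hBsl]
  have hBBL : Loop BB := by
    rw [hBB]; cases rev
    · exact hBsL
    · exact hBsL.reverse
  have hBB0 : BB ≠ [] := by rintro rfl; simp at hBBl
  have hPAl : PA.length + IA.length = n + 1 := by
    have := congrArg List.length h1
    rw [List.length_rotate, List.length_append] at this
    omega
  have hPBl : PB.length + IB.length = m + 1 := by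
    have := congrArg List.length h2
    rw [List.length_rotate, List.length_append] at this
    omega
  obtain ⟨k, hk, hkA⟩ := rotate_back hA0 h1
  obtain ⟨k', hk', hkB⟩ := rotate_back hBB0 h2
  obtain ⟨dA, hdA, hdA'⟩ := code h3 h5 (h1 ▸ hAL.rotate r)
  obtain ⟨dB, hdB, hdB'⟩ := code h4 h6 (h2 ▸ hBBL.rotate r')
  -- the joined polygon
  obtain ⟨σ', hσ'⟩ : ∃ σ', σ' = U.drop e ++ PB ++ V ++ PA ++ U.take e := ⟨_, rfl⟩
  have hrot : (PA ++ U ++ PB ++ V).rotate (PA.length + e) = σ' := by
    have e1 : PA ++ U ++ PB ++ V = (PA ++ U.take e) ++ (U.drop e ++ PB ++ V) := by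
      conv_lhs => rw [← List.take_append_drop e U]
      simp only [List.append_assoc]
    have e2 : PA.length + e = (PA ++ U.take e).length := by
      rw [List.length_append, List.length_take, min_eq_left h11.le]
    rw [e1, e2, List.rotate_append_length_eq, hσ']
    simp only [List.append_assoc]
  have hσL : Loop σ' := hrot ▸ h13.rotate _
  have hσl : σ'.length = (U.length - e) + PB.length + V.length + PA.length + e := by
    rw [hσ']
    simp only [List.length_append, List.length_drop, List.length_take, min_eq_left h11.le]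
  have hσ0 : σ' ≠ [] := by
    intro h
    rw [h] at hσl
    simp only [List.length_nil] at hσl
    omega
  obtain ⟨w, hw⟩ : ∃ w, w = -(σ'.headD 0) := ⟨_, rfl⟩
  have hnrm : nrm σ' = mv w σ' := by rw [hw]; rfl
  have hd : (U.drop e).length = U.length - e := List.length_drop
  refine ⟨U.length - e, V.length, V.length - 1 - f, e, IA.length, IB.length, k, k', dA, dB, rev,
    σ'.length - 1, nrm σ', by omega, by omega, by omega, by omega, by omega, h9, h5, h6, by omega,
    by omega, hdA, hdB, by omega, ?_, ?_⟩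
  · unfold D
    rw [Finset.mem_filter, mem_PG]
    refine ⟨⟨?_, head_nrm hσ0, hσL.nrm⟩, ?_⟩
    · rw [length_nrm]; omega
    · rw [hnrm, getD_mv w σ' (by omega), getD_mv w σ' (by omega), nb_add]
      have g1 : σ'.getD 0 0 = U.getD e 0 := by
        rw [hσ']
        simp only [List.append_assoc]
        rw [List.getD_append _ _ _ _ (by rw [hd]; omega), List.getD_eq_getElem _ _ (by rw [hd]; omega),
          List.getD_eq_getElem _ _ h11, List.getElem_drop]
        simp
      have g2 : σ'.getD (U.length - e + (m + 1 - IB.length) + (V.length - 1 - f)) 0 =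
          V.getD (V.length - 1 - f) 0 := by
        rw [hσ']
        simp only [List.append_assoc]
        rw [List.getD_append_right _ _ _ _ (by rw [hd]; omega),
          List.getD_append_right _ _ _ _ (by rw [hd]; omega),
          List.getD_append _ _ _ _ (by rw [hd]; omega)]
        congr 1
        rw [hd]; omega
      rw [g1, g2]
      exact h14
  · have k1 : ((nrm σ').drop (U.length - e)).take (m + 1 - IB.length) = mv w PB := by
      rw [hnrm, ← mv_drop, ← mv_take, hσ']
      simp only [List.append_assoc]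
      rw [List.drop_left' hd, List.take_left' (by omega)]
    have k2 : ((nrm σ').drop (U.length - e + (m + 1 - IB.length) + V.length)).take
        (n + 1 - IA.length) = mv w PA := by
      rw [hnrm, ← mv_drop, ← mv_take, hσ']
      have e3 : U.drop e ++ PB ++ V ++ PA ++ U.take e =
          (U.drop e ++ PB ++ V) ++ (PA ++ U.take e) := by simp only [List.append_assoc]
      rw [e3, List.drop_left' (by simp only [List.length_append, hd]; omega),
        List.take_left' (by omega)]
    unfold recon
    simp only [k1, k2, hdA', hdB']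
    rw [← mv_append, ← mv_append, ← mv_rotate, ← mv_rotate, hkA, hkB, nrm_mv, nrm_eq hAh,
      headD_mv w hA0, hAd]
    have k3 : (if rev = true then (mv w BB).reverse else mv w BB) = mv w Bs := by
      rw [hBB]
      cases rev
      · simp
      · simp [← mv_reverse]
    rw [k3, nrm_mv, headD_mv w hBs0, hBsd]
    have k4 : nrm Bs = B := by rw [hBs, nrm_mv, nrm_mv, nrm_eq hBh]
    rw [k4]
    simp

end Pool.Agent.SawPoly
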